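import Pool.Agent.UT35.Half

/-!
# [UT35-ARCS] many paths of length three between the ends of an interval

Let `W = Ioo p q`, `l = W.card = q - p - 1`, `A = {k ∈ W : r p k}`, `B = {k ∈ W : r k q}`. `out_half`, `in_half` give `l ≤ 2 |A|` and `l ≤ 2 |B|` (apply them to `p, q - 1` and
`p + 1, q`).
Case 1: `l ≤ 64 |A ∩ B|`. Among the ordered pairs of distinct elements of `C = A ∩ B` exactly half satisfy `r` (`asym`, `tot`), so there are at least
`c (c - 1) / 2` good pairs, `c = |C| ≥ l / 64 ≥ 312`, and `10000 c (c - 1) / 2 ≥ l ^ 2` (as `l ≤ 64 c`, `4096 c ^ 2 ≤ 5000 c (c - 1)`).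
Case 2: `64 |A ∩ B| < l`. Let `A' = A \ B` and apply `med (p + 1) q A'`. The set `P` of pairs `a < b` in `W` with `a ∈ A'`, `b ∉ A'` contains all `(a, b)` with `a ∈ A'` in the
first half `(p, p + l/2]` and `b ∈ B` in the second half (`B ∩ A' = ∅`). By `out_half` (`p`, `p + l/2`) the first half contains at least `(l/2)/2` elements of `A`, so at
least `(l/2)/2 - l/64` elements of `A'`; by `in_half` (`p + l/2 + 1`, `q`) the second half contains at least `(l - l/2)/2` elements of `B`. So `|P| ≥ l^2 (1/4 - 1/64 - small) / 4`, and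
by `med` at least half of the pairs of `P` satisfy `r a b` : at least `l ^ 2 / 36` pairs. Those with `b ∉ B` have `b ∈ W \ (A ∪ B)`, and
`|W \ (A ∪ B)| = l - |A| - |B| + |A ∩ B| ≤ l / 64`: there are at most `|A'| l / 64 ≤ l ^ 2 / 64` of them. The remaining at least `l^2 / 36 - l^2 / 64 ≥ l^2 / 100` pairs are good.
-/

set_option autoImplicit false

open Finset Classical

namespace UT35

private lemma helper61_pairs {N : ℕ} {r : ℕ → ℕ → Prop} (ts : TS N r) (C : Finset ℕ)
    (hC : ∀ i ∈ C, i < N) :
    C.card * C.card - C.card ≤ 2 * ((C ×ˢ C).filter fun x => r x.1 x.2).card := by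
  have h1 : C.offDiag ⊆ ((C ×ˢ C).filter fun x => r x.1 x.2) ∪
      ((C ×ˢ C).filter fun x => r x.1 x.2).image Prod.swap := by
    rintro ⟨a, b⟩ hab
    rw [mem_offDiag] at hab
    obtain ⟨ha, hb, hne⟩ := hab
    rw [mem_union]
    rcases ts.tot a b (hC a ha) (hC b hb) hne with h | h
    · left
      rw [mem_filter, mem_product]
      exact ⟨⟨ha, hb⟩, h⟩
    · right
      rw [mem_image]
      exact ⟨(b, a), by rw [mem_filter, mem_product]; exact ⟨⟨hb, ha⟩, h⟩, rfl⟩
  have h2 := (card_le_card h1).trans (card_union_le _ _)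
  rw [offDiag_card] at h2
  have h3 := card_image_le (s := (C ×ˢ C).filter fun x => r x.1 x.2) (f := Prod.swap)
  omega

theorem arcs {N : ℕ} {r : ℕ → ℕ → Prop} (ts : TS N r) {p q : ℕ} (hpq : p < q) (hq : q < N)
    (hl : 20000 ≤ q - p - 1) :
    (q - p - 1) ^ 2 ≤ 10000 *
      ((Ioo p q ×ˢ Ioo p q).filter fun x => r p x.1 ∧ r x.1 x.2 ∧ r x.2 q).card := by
  obtain ⟨l, hldef⟩ : ∃ l, l = q - p - 1 := ⟨_, rfl⟩
  rw [← hldef] at hl ⊢
  set A := (Ioo p q).filter (fun k => r p k) with hA
  set B := (Ioo p q).filter (fun k => r k q) with hB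
  set S := (Ioo p q ×ˢ Ioo p q).filter (fun x => r p x.1 ∧ r x.1 x.2 ∧ r x.2 q) with hS
  have hWc : (Ioo p q).card = l := by rw [Nat.card_Ioo]; omega
  have hA1 : l ≤ 2 * A.card := by
    have h := out_half ts (i := p) (j := q - 1) (by omega) (by omega)
    have h2 : Ioc p (q - 1) = Ioo p q := by
      ext x; simp only [mem_Ioc, mem_Ioo]; omega
    rw [h2, ← hA] at h
    omega
  have hB1 : l ≤ 2 * B.card := by
    have h := in_half ts (i := p + 1) (j := q) (by omega) (by omega)
    have h2 : Ico (p + 1) q = Ioo p q := by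
      ext x; simp only [mem_Ico, mem_Ioo]; omega
    rw [h2, ← hB] at h
    omega
  by_cases hc : l ≤ 64 * (A ∩ B).card
  · -- Case 1
    have h1 := helper61_pairs ts (A ∩ B) (fun i hi => by
      have := (mem_Ioo.1 (mem_filter.1 (mem_inter.1 hi).1).1).2
      omega)
    have h2 : ((A ∩ B) ×ˢ (A ∩ B)).filter (fun x => r x.1 x.2) ⊆ S := by
      rintro ⟨a, b⟩ hab
      rw [mem_filter, mem_product] at hab
      obtain ⟨⟨ha, hb⟩, hr⟩ := hab
      have ha1 := mem_filter.1 (mem_inter.1 ha).1
      have hb1 := mem_filter.1 (mem_inter.1 hb).2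
      rw [hS, mem_filter, mem_product]
      exact ⟨⟨ha1.1, hb1.1⟩, ha1.2, hr, hb1.2⟩
    have h3 := card_le_card h2
    set c := (A ∩ B).card with hcd
    have h4 : c * c - c ≤ 2 * S.card := h1.trans (by omega)
    have hc6 : 312 ≤ c := by omega
    have h5 : c ≤ c * c := by nlinarith
    have h6 : c * c ≤ 2 * S.card + c := by omega
    nlinarith
  · -- Case 2
    rw [not_le] at hc
    set c := (A ∩ B).card with hcd
    set A' := A \ B with hA'
    obtain ⟨h, hh⟩ : ∃ h, h = l / 2 := ⟨_, rfl⟩
    have hmed := ts.med (p + 1) q (by omega) A'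
    have hIco : Ico (p + 1) q = Ioo p q := by
      ext x; simp only [mem_Ico, mem_Ioo]; omega
    rw [hIco] at hmed
    set P1 := (Ioo p q ×ˢ Ioo p q).filter (fun x => x.1 < x.2 ∧ x.1 ∈ A' ∧ x.2 ∉ A' ∧ r x.2 x.1)
      with hP1
    set P2 := (Ioo p q ×ˢ Ioo p q).filter (fun x => x.1 < x.2 ∧ x.1 ∈ A' ∧ x.2 ∉ A' ∧ r x.1 x.2)
      with hP2
    set a1 := A'.filter (fun k => k ≤ p + h) with ha1
    set b1 := B.filter (fun k => p + h < k) with hb1
    -- the product is contained in the union
    have hsub : a1 ×ˢ b1 ⊆ P1 ∪ P2 := by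
      rintro ⟨a, b⟩ hab
      rw [mem_product] at hab
      obtain ⟨ha, hb⟩ := hab
      rw [ha1, mem_filter] at ha
      rw [hb1, mem_filter] at hb
      have haA := mem_filter.1 (mem_sdiff.1 ha.1).1
      have hbB := mem_filter.1 hb.1
      have haI := mem_Ioo.1 haA.1
      have hbI := mem_Ioo.1 hbB.1
      have hlt : a < b := by omega
      have hbn : b ∉ A' := fun h => (mem_sdiff.1 h).2 hb.1
      rw [mem_union]
      rcases ts.tot a b (by omega) (by omega) (by omega) with h' | h'
      · right
        rw [hP2, mem_filter, mem_product]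
        exact ⟨⟨haA.1, hbB.1⟩, hlt, ha.1, hbn, h'⟩
      · left
        rw [hP1, mem_filter, mem_product]
        exact ⟨⟨haA.1, hbB.1⟩, hlt, ha.1, hbn, h'⟩
    have hcard : a1.card * b1.card ≤ P1.card + P2.card := by
      rw [← card_product]
      exact (card_le_card hsub).trans (card_union_le _ _)
    have ha1c : h ≤ 2 * (a1.card + c) := by
      have h1 := out_half ts (i := p) (j := p + h) (by omega) (by omega)
      have h2 : (Ioc p (p + h)).filter (fun k => r p k) ⊆ a1 ∪ (A ∩ B) := by
        intro k hk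
        rw [mem_filter, mem_Ioc] at hk
        have hkA : k ∈ A := by
          rw [hA, mem_filter, mem_Ioo]
          exact ⟨by omega, hk.2⟩
        rw [mem_union]
        by_cases hkB : k ∈ B
        · right
          exact mem_inter.2 ⟨hkA, hkB⟩
        · left
          rw [ha1, mem_filter]
          exact ⟨mem_sdiff.2 ⟨hkA, hkB⟩, by omega⟩
      have h3 := (card_le_card h2).trans (card_union_le _ _)
      omega
    have hb1c : l - h ≤ 2 * b1.card := by
      have h1 := in_half ts (i := p + h + 1) (j := q) (by omega) (by omega)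
      have h2 : (Ico (p + h + 1) q).filter (fun k => r k q) ⊆ b1 := by
        intro k hk
        rw [mem_filter, mem_Ico] at hk
        rw [hb1, mem_filter, hB, mem_filter, mem_Ioo]
        exact ⟨⟨by omega, hk.2⟩, by omega⟩
      have h3 := card_le_card h2
      omega
    -- the bad pairs
    have hbad : P2 ⊆ S ∪ (Ioo p q ×ˢ (Ioo p q \ (A ∪ B))) := by
      rintro ⟨a, b⟩ hab
      rw [hP2, mem_filter, mem_product] at hab
      obtain ⟨⟨haW, hbW⟩, hlt, ha, hb, hr⟩ := hab
      rw [mem_union]
      by_cases hbB : b ∈ B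
      · left
        rw [hS, mem_filter, mem_product]
        exact ⟨⟨haW, hbW⟩, (mem_filter.1 (mem_sdiff.1 ha).1).2, hr, (mem_filter.1 hbB).2⟩
      · right
        rw [mem_product, mem_sdiff, mem_union]
        refine ⟨haW, hbW, ?_⟩
        rintro (h' | h')
        · exact hb (mem_sdiff.2 ⟨h', hbB⟩)
        · exact hbB h'
    have hrest : (Ioo p q \ (A ∪ B)).card ≤ c := by
      have hsubAB : A ∪ B ⊆ Ioo p q := union_subset (filter_subset _ _) (filter_subset _ _)
      rw [card_sdiff_of_subset hsubAB, hWc]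
      have := card_union_add_card_inter A B
      omega
    have hP2c : P2.card ≤ S.card + l * c := by
      refine (card_le_card hbad).trans ((card_union_le _ _).trans ?_)
      rw [card_product, hWc]
      exact Nat.add_le_add_left (Nat.mul_le_mul_left _ hrest) _
    -- arithmetic
    set x := a1.card
    set y := b1.card
    have hx : 15 * l ≤ 64 * x + 16 := by omega
    have hy : l ≤ 4 * y := by omega
    have e1 : (15 * l) * l ≤ (64 * x + 16) * (4 * y) := Nat.mul_le_mul hx hy
    have hyl : y ≤ l := by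
      rw [← hWc]
      exact card_le_card ((filter_subset _ _).trans (filter_subset _ _))
    have e2 : x * y ≤ 2 * (S.card + l * c) := by omega
    have e3 : 64 * (l * c) ≤ l * l := by nlinarith
    nlinarith

end UT35
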