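import Pool.Agent.UT35.Defs

/-!
# [UT35-CST] choice of the constants

Put `H = 2 ^ j`, `k = j + 2`, `A = 2 D + 12`, `K = A (j + 3) + 20`. For `l ≥ L`: `2 (l / H) + 3 ≤ 2 l / H + 3`, so the left side of `win` is at most
`20000 (2 K (2 l / H + 3) + 2000 + 2 l / H + 3)`, and this is at most `l / 2 + C` with a constant `C` (depending on `j`, `D`) as soon as `20000 (4 K + 2) * 2 ≤ H = 2 ^ j`. Such
a `j` exists since `2 ^ j` grows faster than linear functions of `j` (for example `j ↦ a * j + b ≤ 2 ^ j` for `j ≥ 2 (a + b) + 4`, or use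
`tendsto`/`Nat.lt_two_pow_self`). Finally take `L` large: `L ≥ 1000 H`, `L ≥ A (k + 1) + 30` and `L ≥ 4 C + 2000`, say.
-/

set_option autoImplicit false

open Finset Classical

namespace UT35

private theorem exists_j (A : ℕ) : ∃ j, 40000 * (4 * (A * (j + 3) + 20) + 2) ≤ 2 ^ j := by
  obtain ⟨c, hc⟩ : ∃ c, c = 40000 * (12 * A + 82) := ⟨_, rfl⟩
  obtain ⟨m, hm⟩ : ∃ m, m = 320000 * A + c := ⟨_, rfl⟩
  have h1 : m < 2 ^ m := Nat.lt_two_pow_self
  refine ⟨2 * m, ?_⟩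
  have h2 : 2 ^ (2 * m) = 2 ^ m * 2 ^ m := by rw [two_mul, pow_add]
  have h3 : m * m ≤ 2 ^ m * 2 ^ m := Nat.mul_le_mul h1.le h1.le
  rw [h2]
  refine le_trans ?_ h3
  have h4 : 40000 * (4 * (A * (2 * m + 3) + 20) + 2) = 320000 * A * m + c := by
    rw [hc]; ring
  rw [h4]
  have h5 : m * m = 320000 * A * m + c * m := by
    nth_rewrite 1 [hm]
    ring
  rw [h5]
  have h6 : 1 ≤ m := by omega
  have h7 : c * 1 ≤ c * m := Nat.mul_le_mul_left c h6
  omega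

theorem exists_ok (D : ℕ) : ∃ H k L, Ok D H k L := by
  obtain ⟨j, hj⟩ := exists_j (2 * D + 12)
  obtain ⟨K, hK⟩ : ∃ K, K = (2 * D + 12) * (j + 3) + 20 := ⟨_, rfl⟩
  rw [← hK] at hj
  obtain ⟨H, hH⟩ : ∃ H, H = 2 ^ j := ⟨_, rfl⟩
  rw [← hH] at hj
  obtain ⟨C, hC⟩ : ∃ C, C = 20000 * (6 * K + 2003) := ⟨_, rfl⟩
  refine ⟨H, j + 2, 1000 * H + K + 2 * C + 1000, ?_, ?_, ?_, ?_, ?_⟩
  · omega
  · rw [hH, pow_add]; omega
  · omega
  · have : (2 * D + 12) * (j + 2 + 1) = (2 * D + 12) * (j + 3) := rfl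
    omega
  · intro l hl
    have e : (2 * D + 12) * (j + 2 + 1) + 20 = K := by rw [hK]
    rw [e]
    have h1 : H * (l / H) ≤ l := Nat.mul_div_le l H
    have h2 : 40000 * (4 * K + 2) * (l / H) ≤ H * (l / H) := Nat.mul_le_mul_right _ hj
    have h3 : 2 * (20000 * (2 * (K * (2 * (l / H) + 3) + 1000) + 2 * (l / H) + 3)) =
        40000 * (4 * K + 2) * (l / H) + 2 * C := by
      rw [hC]; ring
    omega

end UT35
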