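import Mathlib

/-!
# UT35 (MP_ae3412_co): oriented trees of bounded degree with long directed segments are unavoidable

Theorem (Final.lean): for every `Δ` there is `M` such that every tournament on `n` vertices contains every
oriented tree on `n` vertices of maximum degree at most `Δ` in which any two distinct vertices which are not
of in-degree one and out-degree one are at distance at least `M`.

Method.  The vertices of the tournament are numbered `0, .., N-1` along a median order (`TS`).  A finite set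
`F` of positions (the floats) is removed; the removal of `f` is repaired by exchanging, if necessary,
`f - 1` and `f + 1` (`tau`).  The positions not in `F` are called slots; the slot `k` carries the vertex
`tau r F k`; consecutive slots carry vertices joined by an arc.  A tree is laid out on consecutive slots, apart
from jumps `u → y → y' → v` over a window of slots, where `y`, `y'` are floats in the window.
-/

set_option autoImplicit false

open Finset Classical

namespace UT35

/-- a tournament on `{0, .., N-1}` for which `0, .., N-1` is a median order (`med` : exchanging two parts of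
an interval does not increase the number of forward arcs) -/
structure TS (N : ℕ) (r : ℕ → ℕ → Prop) : Prop where
  asym : ∀ i j, r i j → ¬ r j i
  tot : ∀ i j, i < N → j < N → i ≠ j → r i j ∨ r j i
  med : ∀ p q, q ≤ N → ∀ A : Finset ℕ,
    ((Ico p q ×ˢ Ico p q).filter fun x => x.1 < x.2 ∧ x.1 ∈ A ∧ x.2 ∉ A ∧ r x.2 x.1).card ≤
    ((Ico p q ×ˢ Ico p q).filter fun x => x.1 < x.2 ∧ x.1 ∈ A ∧ x.2 ∉ A ∧ r x.1 x.2).card

/-- the reversed tournament in the reversed order -/
def rev (N : ℕ) (r : ℕ → ℕ → Prop) : ℕ → ℕ → Prop := fun i j => r (N - 1 - j) (N - 1 - i)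

/-- admissible set of floats -/
structure Adm (N : ℕ) (F : Finset ℕ) : Prop where
  lo : ∀ f ∈ F, 20 ≤ f
  hi : ∀ f ∈ F, f + 21 ≤ N
  sep : ∀ f ∈ F, ∀ f' ∈ F, f < f' → f + 20 ≤ f'

/-- the vertex carried by the slot `k` -/
noncomputable def tau (r : ℕ → ℕ → Prop) (F : Finset ℕ) (k : ℕ) : ℕ :=
  if k + 1 ∈ F ∧ r (k + 2) k then k + 2 else if k - 1 ∈ F ∧ r k (k - 2) then k - 2 else k

/-- the slots in an interval -/
noncomputable def slots (F : Finset ℕ) (lo hi : ℕ) : Finset ℕ := (Ico lo hi).filter (· ∉ F)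

/-- the number of slots in an interval -/
noncomputable def sl (F : Finset ℕ) (lo hi : ℕ) : ℕ := (slots F lo hi).card

/-- the vertices carried by the slots of an interval -/
noncomputable def VS (r : ℕ → ℕ → Prop) (F : Finset ℕ) (lo hi : ℕ) : Finset ℕ := (slots F lo hi).image (tau r F)

/-- two floats `a`, `b` are apart at scale `l` -/
def Apart (H l a b : ℕ) : Prop := (a + 20 ≤ b ∧ l ≤ H * (b - a)) ∨ (b + 20 ≤ a ∧ l ≤ H * (a - b))

/-- sparsity of the floats in `[lo, hi)` at the scale `s`: `σ f` is the scale at which `f` was chosen, and the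
number of floats of scale less than `2 ^ k * s` is at most linear in `k` -/
structure Inv (D H : ℕ) (F : Finset ℕ) (σ : ℕ → ℕ) (lo hi s e : ℕ) : Prop where
  sep : ∀ f ∈ F, ∀ f' ∈ F, lo ≤ f → f < f' → f' < hi → min (σ f) (σ f') ≤ H * (f' - f)
  cnt : ∀ k, (F.filter fun f => lo ≤ f ∧ f < hi ∧ σ f < 2 ^ k * s).card ≤ (2 * D + 12) * k + e

/-- `y` is a possible new float of scale `l` in the window `[lo, hi)` -/
structure Fl (F : Finset ℕ) (H l lo hi y : ℕ) : Prop where
  ge : lo + 320 ≤ y
  lt : y + 21 ≤ hi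
  apart : ∀ f ∈ F, lo ≤ f → f < hi → Apart H l f y

/-- conditions on the constants -/
structure Ok (D H k L : ℕ) : Prop where
  H1 : 1 ≤ H
  pow : 4 * H ≤ 2 ^ k
  big : 1000 * H ≤ L
  cnt : (2 * D + 12) * (k + 1) + 30 ≤ L
  win : ∀ l, L ≤ l → 20000 * (2 * (((2 * D + 12) * (k + 1) + 20) * (2 * (l / H) + 3) + 1000) + 2 * (l / H) + 3)
    < l - 400

variable {V : Type}

/-- `φ` maps `X` onto `T` and the arcs of `A` to arcs of `r` -/
structure Em (r : ℕ → ℕ → Prop) (X : Finset V) (A : Finset (V × V)) (φ : V → ℕ) (T : Finset ℕ) : Prop where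
  img : X.image φ = T
  arc : ∀ a b, (a, b) ∈ A → r (φ a) (φ b)

/-- the piece `X` with arcs `A` can be laid out on every region with `X.card` slots, the entry `u` on the first
slot -/
structure ZLE (D H : ℕ) (X : Finset V) (u : V) (A : Finset (V × V)) : Prop where
  mem : u ∈ X
  wf : ∀ a b, (a, b) ∈ A → a ∈ X ∧ b ∈ X
  emb : ∀ N r, TS N r → ∀ F σ lo hi, Adm N F → hi ≤ N → lo < hi → lo ∉ F → sl F lo hi = X.card →
    Inv D H F σ lo hi X.card 0 → ∃ φ : V → ℕ, Em r X A φ (VS r F lo hi) ∧ φ u = tau r F lo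

/-- the same for a piece which begins with `n` plain steps: sparsity only from `a ≤ lo + n` on -/
structure ZLK (D H n : ℕ) (X : Finset V) (u : V) (A : Finset (V × V)) : Prop where
  mem : u ∈ X
  wf : ∀ a b, (a, b) ∈ A → a ∈ X ∧ b ∈ X
  emb : ∀ N r, TS N r → ∀ F σ lo hi a, Adm N F → hi ≤ N → lo < hi → lo ∉ F → sl F lo hi = X.card →
    a ≤ lo + n → Inv D H F σ a hi X.card 0 → ∃ φ : V → ℕ, Em r X A φ (VS r F lo hi) ∧ φ u = tau r F lo

/-- spine piece: `u` on the first slot, `z` on the last slot; the pieces hanging at it have at most `s / 2`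
vertices -/
structure ZSP (D H s : ℕ) (X : Finset V) (u z : V) (A : Finset (V × V)) : Prop where
  memu : u ∈ X
  memz : z ∈ X
  wf : ∀ a b, (a, b) ∈ A → a ∈ X ∧ b ∈ X
  emb : ∀ N r, TS N r → ∀ F σ lo hi, Adm N F → hi ≤ N → lo < hi → lo ∉ F → hi - 1 ∉ F → sl F lo hi = X.card →
    X.card ≤ s → Inv D H F σ lo hi s 8 → (∀ f ∈ F, lo ≤ f → f < hi → X.card ≤ σ f) →
    ∃ φ : V → ℕ, Em r X A φ (VS r F lo hi) ∧ φ u = tau r F lo ∧ φ z = tau r F (hi - 1)

/-- nest: `Y` is the union of `m` pieces, each of at most `s / 2` vertices, attached to the vertex `v`, which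
sits on the slot `β` immediately before the region of `Y` -/
structure ZNO (D H s m : ℕ) (Y : Finset V) (v : V) (A : Finset (V × V)) : Prop where
  nmem : v ∉ Y
  wf : ∀ a b, (a, b) ∈ A → a ∈ insert v Y ∧ b ∈ insert v Y
  emb : ∀ N r, TS N r → ∀ F σ β lo hi e, Adm N F → hi ≤ N → β < lo → β ∉ F → (∀ j, β < j → j < lo → j ∈ F) →
    lo < hi → lo ∉ F → sl F lo hi = Y.card → Y.card ≤ s → e + 2 * m ≤ 2 * D + 12 →
    Inv D H F σ (lo + 300) hi s e → (∀ f ∈ F, lo + 300 ≤ f → f < hi → Y.card ≤ σ f) →
    ∃ φ : V → ℕ, Em r Y A φ (VS r F lo hi) ∧ φ v = tau r F β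

end UT35
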