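import Pool.Agent.UT35.Defs

/-!
# [UT35-EM] gluing embeddings

All elementary. `glue`: `φ x = if x ∈ X1 then φ1 x else φ2 x`.
-/

set_option autoImplicit false

open Finset Classical

namespace UT35

variable {V : Type} {r : ℕ → ℕ → Prop}

theorem glue (X1 X2 : Finset V) (φ1 φ2 : V → ℕ) (h : ∀ x ∈ X1, x ∈ X2 → φ1 x = φ2 x) :
    ∃ φ : V → ℕ, (∀ x ∈ X1, φ x = φ1 x) ∧ ∀ x ∈ X2, φ x = φ2 x := by
  refine ⟨fun x => if x ∈ X1 then φ1 x else φ2 x, fun x hx => if_pos hx, fun x hx => ?_⟩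
  dsimp only
  split_ifs with h1
  · exact h x h1 hx
  · rfl

theorem Em.congr {X W : Finset V} {A : Finset (V × V)} {φ ψ : V → ℕ} {T : Finset ℕ} (h : Em r X A φ T)
    (hw : ∀ a b, (a, b) ∈ A → a ∈ W ∧ b ∈ W) (hX : X ⊆ W) (hφ : ∀ x ∈ W, ψ x = φ x) : Em r X A ψ T := by
  refine ⟨?_, ?_⟩
  · rw [← h.img]
    exact Finset.image_congr fun x hx => hφ x (hX hx)
  · intro a b hab
    rw [hφ a (hw a b hab).1, hφ b (hw a b hab).2]
    exact h.arc a b hab

theorem Em.union {X1 X2 : Finset V} {A1 A2 : Finset (V × V)} {φ : V → ℕ} {T1 T2 : Finset ℕ}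
    (h1 : Em r X1 A1 φ T1) (h2 : Em r X2 A2 φ T2) : Em r (X1 ∪ X2) (A1 ∪ A2) φ (T1 ∪ T2) := by
  refine ⟨?_, ?_⟩
  · rw [image_union, h1.img, h2.img]
  · intro a b hab
    rcases mem_union.mp hab with h | h
    · exact h1.arc a b h
    · exact h2.arc a b h

theorem Em.vertex {X : Finset V} {A : Finset (V × V)} {φ : V → ℕ} {T : Finset ℕ} (h : Em r X A φ T) (u : V) :
    Em r (insert u X) A φ (insert (φ u) T) := by
  refine ⟨?_, h.arc⟩
  rw [image_insert, h.img]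

theorem Em.arcs {X : Finset V} {A : Finset (V × V)} {φ : V → ℕ} {T : Finset ℕ} (h : Em r X A φ T) {a b : V}
    (hr : r (φ a) (φ b)) : Em r X (insert (a, b) A) φ T := by
  refine ⟨h.img, ?_⟩
  intro c d hcd
  rcases mem_insert.mp hcd with h' | h'
  · rw [Prod.mk.injEq] at h'
    rw [h'.1, h'.2]
    exact hr
  · exact h.arc c d h'

theorem Em.empty (φ : V → ℕ) : Em r (∅ : Finset V) (∅ : Finset (V × V)) φ ∅ := by
  refine ⟨rfl, ?_⟩
  intro a b hab
  exact absurd hab (notMem_empty _)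

end UT35
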