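import Pool.Agent.UT35.Defs

/-!
# [UT35-SLOT] counting slots

All proofs are elementary. `exists_mid`: the function `m ↦ sl F lo m` increases by `0` or `1` from `m` to `m + 1`, it is `0` at `lo` and `a + c ≥ a + 1` at `hi`;
let `mid` be the largest `m < hi` with `sl F lo m = a` (then `sl F lo (mid + 1) = a + 1`, so `mid ∉ F`). `next_slot`: at most one of two consecutive
positions is in `F` (`Adm.sep`). `sl_out` : the position `y` is not in the interval.
-/

set_option autoImplicit false

open Finset Classical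

namespace UT35

variable {N : ℕ} {F : Finset ℕ}

theorem mem_slots {k lo hi : ℕ} : k ∈ slots F lo hi ↔ lo ≤ k ∧ k < hi ∧ k ∉ F := by
  unfold slots
  rw [mem_filter, mem_Ico]
  tauto

theorem sl_split {a b c : ℕ} (h1 : a ≤ b) (h2 : b ≤ c) : sl F a c = sl F a b + sl F b c := by
  unfold sl
  rw [← card_union_of_disjoint]
  · congr 1
    ext k
    rw [mem_union, mem_slots, mem_slots, mem_slots]
    constructor
    · rintro ⟨h3, h4, h5⟩
      rcases lt_or_ge k b with h | h
      · exact Or.inl ⟨h3, h, h5⟩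
      · exact Or.inr ⟨h, h4, h5⟩
    · rintro (⟨h3, h4, h5⟩ | ⟨h3, h4, h5⟩)
      · exact ⟨h3, by omega, h5⟩
      · exact ⟨by omega, h4, h5⟩
  · rw [disjoint_left]
    intro k hk hk'
    rw [mem_slots] at hk hk'
    omega

theorem sl_le (lo hi : ℕ) : sl F lo hi ≤ hi - lo := by
  unfold sl slots
  refine (card_filter_le _ _).trans ?_
  rw [Nat.card_Ico]

private lemma sl_succ_in {m : ℕ} (h : m ∈ F) : sl F m (m + 1) = 0 := by
  unfold sl
  rw [card_eq_zero]
  apply eq_empty_of_forall_notMem
  intro k hk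
  rw [mem_slots] at hk
  have : k = m := by omega
  exact hk.2.2 (this ▸ h)

theorem sl_one {lo : ℕ} (h : lo ∉ F) : sl F lo (lo + 1) = 1 := by
  unfold sl
  rw [card_eq_one]
  refine ⟨lo, ?_⟩
  ext k
  rw [mem_slots, mem_singleton]
  constructor
  · rintro ⟨h1, h2, _⟩
    omega
  · rintro rfl
    exact ⟨le_refl _, by omega, h⟩

private lemma sl_self (m : ℕ) : sl F m m = 0 := by
  have := sl_le (F := F) m m
  omega

private lemma sl_zero_of_le {a b : ℕ} (h : b ≤ a) : sl F a b = 0 := by
  have := sl_le (F := F) a b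
  omega

theorem exists_mid {lo hi : ℕ} (a c : ℕ) (hc : 1 ≤ c) (h : sl F lo hi = a + c) :
    ∃ mid, lo ≤ mid ∧ mid < hi ∧ mid ∉ F ∧ sl F lo mid = a ∧ sl F mid hi = c := by
  have hlt : lo < hi := by
    by_contra hcon
    have := sl_zero_of_le (F := F) (a := lo) (b := hi) (by omega)
    omega
  have hex : ∃ m, a < sl F lo (m + 1) := ⟨hi - 1, by
    have : hi - 1 + 1 = hi := by omega
    rw [this]; omega⟩
  obtain ⟨m, hm, hmin⟩ : ∃ m, a < sl F lo (m + 1) ∧ ∀ k, k < m → ¬ a < sl F lo (k + 1) :=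
    ⟨Nat.find hex, Nat.find_spec hex, fun k hk => Nat.find_min hex hk⟩
  have hlom : lo ≤ m := by
    by_contra hcon
    have := sl_zero_of_le (F := F) (a := lo) (b := m + 1) (by omega)
    omega
  have hle : sl F lo m ≤ a := by
    rcases Nat.eq_zero_or_pos m with h0 | h0
    · have := sl_zero_of_le (F := F) (a := lo) (b := m) (by omega)
      omega
    · have := hmin (m - 1) (by omega)
      have e : m - 1 + 1 = m := by omega
      rw [e] at this
      omega
  have hsp := sl_split (F := F) hlom (by omega : m ≤ m + 1)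
  have hmF : m ∉ F := by
    intro hmem
    have := sl_succ_in hmem
    omega
  have h1 := sl_one hmF
  have hmhi : m < hi := by
    by_contra hcon
    have h2 := sl_split (F := F) (by omega : lo ≤ hi) (by omega : hi ≤ m)
    omega
  have h3 := sl_split (F := F) hlom hmhi.le
  exact ⟨m, hlom, hmhi, hmF, by omega, by omega⟩

theorem next_slot (adm : Adm N F) {lo hi : ℕ} (hlo : lo ∉ F) (h : 2 ≤ sl F lo hi) :
    ∃ lo1, lo < lo1 ∧ lo1 ≤ lo + 2 ∧ lo1 < hi ∧ lo1 ∉ F ∧ (∀ j, lo < j → j < lo1 → j ∈ F) ∧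
      sl F lo hi = sl F lo1 hi + 1 := by
  have h0 := sl_le (F := F) lo hi
  have h1 := sl_one hlo
  have h2 := sl_split (F := F) (by omega : lo ≤ lo + 1) (by omega : lo + 1 ≤ hi)
  by_cases h3 : lo + 1 ∈ F
  · have h4 : lo + 2 ∉ F := by
      intro h4
      have := adm.sep _ h3 _ h4 (by omega)
      omega
    have h5 := sl_succ_in h3
    have h6 : lo + 2 < hi := by
      by_contra hcon
      have h7 : hi = lo + 1 + 1 := by omega
      rw [h7] at h2 h
      omega
    have h7 := sl_split (F := F) (by omega : lo + 1 ≤ lo + 1 + 1) (by omega : lo + 1 + 1 ≤ hi)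
    refine ⟨lo + 2, by omega, by omega, h6, h4, ?_, ?_⟩
    · intro j hj1 hj2
      have : j = lo + 1 := by omega
      rw [this]; exact h3
    · have e : lo + 1 + 1 = lo + 2 := rfl
      rw [e] at h7
      rw [e] at h5
      omega
  · refine ⟨lo + 1, by omega, by omega, by omega, h3, ?_, by omega⟩
    intro j hj1 hj2
    omega

theorem prev_slot (adm : Adm N F) {lo β : ℕ} (h : 1 ≤ sl F lo β) :
    ∃ hi, lo < hi ∧ hi ≤ β ∧ β ≤ hi + 1 ∧ hi - 1 ∉ F ∧ (∀ j, hi ≤ j → j < β → j ∈ F) ∧ sl F lo hi = sl F lo β := by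
  have h0 := sl_le (F := F) lo β
  by_cases h3 : β - 1 ∈ F
  · have h20 := adm.lo _ h3
    have h4 : β - 2 ∉ F := by
      intro h4
      have := adm.sep _ h4 _ h3 (by omega)
      omega
    have h5 : sl F (β - 1) β = 0 := by
      have := sl_succ_in h3
      have e : β - 1 + 1 = β := by omega
      rwa [e] at this
    have h6 : lo < β - 1 := by
      by_contra hcon
      have h7 : lo = β - 1 := by omega
      rw [h7] at h
      omega
    have h7 := sl_split (F := F) h6.le (by omega : β - 1 ≤ β)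
    refine ⟨β - 1, h6, by omega, by omega, ?_, ?_, by omega⟩
    · have e : β - 1 - 1 = β - 2 := by omega
      rw [e]; exact h4
    · intro j hj1 hj2
      have : j = β - 1 := by omega
      rw [this]; exact h3
  · refine ⟨β, by omega, le_refl _, by omega, h3, ?_, rfl⟩
    intro j hj1 hj2
    omega

theorem sl_ins {y lo hi : ℕ} (hy : y ∉ F) (h1 : lo ≤ y) (h2 : y < hi) :
    sl F lo hi = sl (insert y F) lo hi + 1 := by
  unfold sl
  rw [← card_insert_of_notMem (a := y)]
  · congr 1
    ext k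
    rw [mem_insert, mem_slots, mem_slots, mem_insert]
    constructor
    · rintro ⟨h3, h4, h5⟩
      by_cases h : k = y
      · exact Or.inl h
      · exact Or.inr ⟨h3, h4, by tauto⟩
    · rintro (h | ⟨h3, h4, h5⟩)
      · subst h
        exact ⟨h1, h2, hy⟩
      · exact ⟨h3, h4, by tauto⟩
  · rw [mem_slots]
    rintro ⟨_, _, h⟩
    exact h (mem_insert_self _ _)

theorem sl_out {y lo hi : ℕ} (h : y < lo ∨ hi ≤ y) : sl (insert y F) lo hi = sl F lo hi := by
  unfold sl
  congr 1
  ext k
  rw [mem_slots, mem_slots, mem_insert]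
  constructor
  · rintro ⟨h3, h4, h5⟩
    exact ⟨h3, h4, by tauto⟩
  · rintro ⟨h3, h4, h5⟩
    refine ⟨h3, h4, ?_⟩
    rintro (h6 | h6)
    · omega
    · exact h5 h6

end UT35
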