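import Pool.Agent.UT35.InvL
import Pool.Agent.UT35.Slot

/-!
# [UT35-FAR] the number of floats in a window

Let `A = 2 D + 12`. By `cnt k` at most `A k + e ≤ A (k + 1)` floats `f` in `[lo, hi)` have `σ f < 2 ^ k * s` (near floats). Claim: at most one float in
`[lo, hi)` is far (`2 ^ k * s ≤ σ f`). Otherwise let `f < f'` be two far floats without a far float in between (for example `f` a far float which is not the
largest one and `f'` the least far float larger than `f`). By `sep` `4 H s ≤ 2 ^ k s ≤ min (σ f) (σ f') ≤ H (f' - f)`, so `4 s ≤ f' - f` (`ok.H1`). But the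
positions strictly between `f` and `f'` are slots of `[lo, hi)` (at most `s`) or near floats (at most `A (k + 1)`), so `f' - f ≤ s + A (k + 1) + 1 < 2 s`
by `ok.cnt` and `L ≤ s`, a contradiction (`s > 0`).
-/

set_option autoImplicit false

open Finset Classical

namespace UT35

theorem far {N D H k L s e lo hi : ℕ} {F : Finset ℕ} {σ : ℕ → ℕ} (ok : Ok D H k L)
    (inv : Inv D H F σ lo hi s e) (he : e ≤ 2 * D + 12) (hs : sl F lo hi ≤ s) (hL : L ≤ s) :
    (F.filter fun f => lo ≤ f ∧ f < hi).card ≤ (2 * D + 12) * (k + 1) + 1 := by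
  have hcnt := inv.cnt k
  set near := F.filter fun f => lo ≤ f ∧ f < hi ∧ σ f < 2 ^ k * s with hnear
  set fr := F.filter fun f => lo ≤ f ∧ f < hi ∧ 2 ^ k * s ≤ σ f with hfr
  have hnc : near.card ≤ (2 * D + 12) * (k + 1) := by
    have : (2 * D + 12) * (k + 1) = (2 * D + 12) * k + (2 * D + 12) := by ring
    omega
  have hsub : (F.filter fun f => lo ≤ f ∧ f < hi) ⊆ near ∪ fr := by
    intro f hf
    rw [mem_filter] at hf
    rw [mem_union, hnear, hfr, mem_filter, mem_filter]
    rcases lt_or_ge (σ f) (2 ^ k * s) with h | h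
    · exact Or.inl ⟨hf.1, hf.2.1, hf.2.2, h⟩
    · exact Or.inr ⟨hf.1, hf.2.1, hf.2.2, h⟩
  have hfar : fr.card ≤ 1 := by
    by_contra hcon
    have hne : fr.Nonempty := by
      rw [← card_pos]
      omega
    set f := fr.min' hne with hf
    have hfm : f ∈ fr := fr.min'_mem hne
    have hne' : (fr.erase f).Nonempty := by
      rw [← card_pos, card_erase_of_mem hfm]
      omega
    set f' := (fr.erase f).min' hne' with hf'
    have hfm' : f' ∈ fr.erase f := (fr.erase f).min'_mem hne'
    have hfm2 : f' ∈ fr := mem_of_mem_erase hfm'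
    have hlt : f < f' := lt_of_le_of_ne (fr.min'_le f' hfm2) (ne_of_mem_erase hfm').symm
    have hbetw : ∀ g ∈ fr, f < g → ¬ g < f' := by
      intro g hg hfg hgf
      have h1 : g ∈ fr.erase f := mem_erase.2 ⟨hfg.ne', hg⟩
      have h2 := (fr.erase f).min'_le g h1
      rw [← hf'] at h2
      omega
    have a1 := hfm
    have a2 := hfm2
    rw [hfr, mem_filter] at a1 a2
    obtain ⟨b1, b2, b3, b4⟩ := a1
    obtain ⟨c1, c2, c3, c4⟩ := a2
    have hsep := inv.sep f b1 f' c1 b2 hlt c3
    have h1 : 2 ^ k * s ≤ H * (f' - f) := le_trans (le_min b4 c4) hsep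
    have h2 : 4 * H * s ≤ 2 ^ k * s := Nat.mul_le_mul_right s ok.pow
    have h3 : H * (4 * s) ≤ H * (f' - f) := by
      have : H * (4 * s) = 4 * H * s := by ring
      omega
    have h4 : 4 * s ≤ f' - f := Nat.le_of_mul_le_mul_left h3 (by have := ok.H1; omega)
    have h5 : Ioo f f' ⊆ slots F lo hi ∪ near := by
      intro g hg
      rw [mem_Ioo] at hg
      rw [mem_union]
      by_cases hgF : g ∈ F
      · right
        rw [hnear, mem_filter]
        refine ⟨hgF, by omega, by omega, ?_⟩
        by_contra hc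
        have hgfr : g ∈ fr := by
          rw [hfr, mem_filter]
          exact ⟨hgF, by omega, by omega, not_lt.1 hc⟩
        exact hbetw g hgfr hg.1 hg.2
      · left
        rw [mem_slots]
        exact ⟨by omega, by omega, hgF⟩
    have h6 := (card_le_card h5).trans (card_union_le _ _)
    rw [Nat.card_Ioo] at h6
    have h7 : (slots F lo hi).card ≤ s := hs
    have h8 := ok.cnt
    omega
  have h9 := (card_le_card hsub).trans (card_union_le _ _)
  omega

end UT35
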