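import Pool.Agent.UT35.RTB

/-!
# [UT35-GR] from an oriented tree to a rooted tree

`tree_par`: `G` a tree, `ρ` a vertex. For `v ≠ ρ` let `par v` be the neighbour of `v` on a shortest walk from `ρ` (`SimpleGraph.Connected.exists_walk_length_eq_dist`, or: some neighbour has smaller distance). Two neighbours `w`, `w'` of `v` with
`dist ρ w = dist ρ w' = dist ρ v - 1` give two paths from `ρ` to `v` of length `dist ρ v` (shortest walks are paths), so they are equal (`IsTree.existsUnique_path`) and `w = w'` (the penultimate vertex). Adjacent vertices have distances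
differing by one (`IsTree.dist_eq_dist_add_one_of_adj`).
`exists_rt`: take for the root a vertex of degree one (`IsTree.exists_vert_degree_one_of_nontrivial`), `par`, `dep = dist root`, `out v = E (par v) v`. Children of `v ≠ root`: the neighbours other than `par v`; of the root: all neighbours. `arc x` is
the arc between `x` and `par x`. `deg`: `ch v ⊆ neighborSet v`. The root has degree one, so it is special. If `v ≠ root` is not special, then it has exactly two neighbours, `par v` and one child `c`, and exactly one of the two arcs enters `v`: so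
`Pass v`. `long`: claim by induction on `j`: if `w` is special, `dist w x ≤ i`, `dep w < dep x`, `i + j ≤ M + 1`, then `LF j x`: for `j + 1`: `x ≠ w` and `dist w x < M + 1`, so `x` is not special, `Pass x`; a child `c` of `x` has
`dist w c ≤ i + 1`. Apply it to `w = par v` (special because `¬ Pass w`: if `w = root` it is special, otherwise by the above), `x = v`, `i = 1`, `j = M`.
-/

set_option autoImplicit false

open Finset Classical

namespace UT35

/-- the vertices which do not have in-degree one and out-degree one -/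
def Spec {V : Type} (E : V → V → Prop) (v : V) : Prop := ¬ ({u | E u v}.ncard = 1 ∧ {u | E v u}.ncard = 1)

private theorem par_unique {V : Type} {G : SimpleGraph V} (hG : G.IsTree) (ρ : V) {v w w' : V} (hw : G.Adj w v)
    (hw' : G.Adj w' v) (h : G.dist ρ v = G.dist ρ w + 1) (h' : G.dist ρ v = G.dist ρ w' + 1) : w = w' := by
  obtain ⟨p, hp, hpl⟩ := hG.connected.exists_path_of_dist ρ w
  obtain ⟨q, hq, hql⟩ := hG.connected.exists_path_of_dist ρ w'
  have hvp : v ∉ p.support := by
    intro hv
    have h1 := SimpleGraph.dist_le (p.takeUntil v hv)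
    have h2 := p.length_takeUntil_le_length hv
    omega
  have hvq : v ∉ q.support := by
    intro hv
    have h1 := SimpleGraph.dist_le (q.takeUntil v hv)
    have h2 := q.length_takeUntil_le_length hv
    omega
  have h1 : p.concat hw = q.concat hw' :=
    (hG.existsUnique_path ρ v).unique (hp.concat hvp hw) (hq.concat hvq hw')
  have h2 := congrArg SimpleGraph.Walk.penultimate h1
  simpa using h2

theorem tree_par {V : Type} {G : SimpleGraph V} (hG : G.IsTree) (ρ : V) :
    ∃ par : V → V, par ρ = ρ ∧ (∀ v, v ≠ ρ → G.Adj (par v) v ∧ G.dist ρ v = G.dist ρ (par v) + 1) ∧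
      ∀ a b, G.Adj a b → (b ≠ ρ ∧ par b = a) ∨ (a ≠ ρ ∧ par a = b) := by
  have hex : ∀ v, v ≠ ρ → ∃ w, G.Adj w v ∧ G.dist ρ v = G.dist ρ w + 1 := by
    intro v hv
    obtain ⟨p, hp⟩ := hG.connected.exists_walk_length_eq_dist v ρ
    cases p with
    | nil => exact absurd rfl hv
    | @cons _ w _ h p' =>
      refine ⟨w, h.symm, ?_⟩
      rw [SimpleGraph.Walk.length_cons] at hp
      have h1 := SimpleGraph.dist_le p'
      have h2 : G.dist ρ v = G.dist v ρ := SimpleGraph.dist_comm
      have h3 : G.dist ρ w = G.dist w ρ := SimpleGraph.dist_comm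
      have h4 : G.dist ρ v ≤ G.dist ρ w + G.dist w v := hG.connected.dist_triangle
      have h5 : G.dist w v = 1 := SimpleGraph.dist_eq_one_iff_adj.mpr h.symm
      omega
  have h0 : G.dist ρ ρ = 0 := SimpleGraph.dist_self
  refine ⟨fun v => if h : v ≠ ρ then (hex v h).choose else ρ, by simp, ?_, ?_⟩
  · intro v hv
    simp only [dif_pos hv]
    exact (hex v hv).choose_spec
  · intro a b hab
    rcases hG.dist_eq_dist_add_one_of_adj ρ hab with h | h
    · right
      have ha : a ≠ ρ := by
        rintro rfl
        omega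
      refine ⟨ha, ?_⟩
      simp only [dif_pos ha]
      exact par_unique hG ρ (hex a ha).choose_spec.1 hab.symm (hex a ha).choose_spec.2 h
    · left
      have hb : b ≠ ρ := by
        rintro rfl
        omega
      refine ⟨hb, ?_⟩
      simp only [dif_pos hb]
      exact par_unique hG ρ (hex b hb).choose_spec.1 hab (hex b hb).choose_spec.2 h

theorem exists_rt {n : ℕ} (hn : 2 ≤ n) (E : Fin n → Fin n → Prop) (hE : ∀ a b, E a b → ¬ E b a)
    (hT : (SimpleGraph.fromRel E).IsTree) {D M : ℕ} (hD : ∀ v, ((SimpleGraph.fromRel E).neighborSet v).ncard ≤ D)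
    (hM : ∀ v w, v ≠ w → Spec E v → Spec E w → M + 1 ≤ (SimpleGraph.fromRel E).dist v w) :
    ∃ t : RT (Fin n), t.Good D M ∧ (∃ c, t.ch t.root = {c}) ∧
      ∀ a b, E a b → ∃ x, x ≠ t.root ∧ t.arc x = (a, b) := by
  set G := SimpleGraph.fromRel E with hG
  have : Nontrivial (Fin n) := Fin.nontrivial_iff_two_le.mpr hn
  obtain ⟨ρ, hρ⟩ := hT.exists_vert_degree_one_of_nontrivial
  obtain ⟨par, hp1, hp2, hp3⟩ := tree_par hT ρ
  have hadj : ∀ a b, G.Adj a b ↔ E a b ∨ E b a := by
    intro a b
    rw [hG, SimpleGraph.fromRel_adj]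
    constructor
    · exact fun h => h.2
    · intro h
      refine ⟨?_, h⟩
      rintro rfl
      rcases h with h | h
      · exact hE _ _ h h
      · exact hE _ _ h h
  let t : RT (Fin n) := ⟨par, ρ, G.dist ρ, fun v => E (par v) v, hp1, fun v hv => (hp2 v hv).2⟩
  have hch : ∀ c v, c ∈ t.ch v ↔ c ≠ ρ ∧ par c = v := fun c v => t.mem_ch
  have hchadj : ∀ c v, c ∈ t.ch v → G.Adj v c := by
    intro c v hc
    obtain ⟨h1, h2⟩ := (hch c v).1 hc
    rw [← h2]
    exact (hp2 c h1).1
  have hpp : ∀ c, c ≠ ρ → par c ≠ ρ → par (par c) ≠ c := by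
    intro c hc hc' h
    have h1 := (hp2 c hc).2
    have h2 := (hp2 (par c) hc').2
    rw [h] at h2
    omega
  -- the root
  obtain ⟨c0, hc0⟩ := SimpleGraph.degree_eq_one_iff_existsUnique_adj.mp hρ
  have hroot : t.ch ρ = {c0} := by
    ext x
    rw [mem_singleton, hch]
    constructor
    · rintro ⟨h1, h2⟩
      exact hc0.2 x (hchadj x ρ ((hch x ρ).2 ⟨h1, h2⟩))
    · rintro rfl
      rcases hp3 ρ x hc0.1 with h | h
      · exact h
      · exact absurd rfl h.1
  have hspecroot : Spec E ρ := by
    rintro ⟨h1, h2⟩
    obtain ⟨a, ha⟩ := Set.ncard_eq_one.1 h1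
    obtain ⟨b, hb⟩ := Set.ncard_eq_one.1 h2
    have ha1 : E a ρ := by
      have : a ∈ {u | E u ρ} := by rw [ha]; rfl
      exact this
    have hb1 : E ρ b := by
      have : b ∈ {u | E ρ u} := by rw [hb]; rfl
      exact this
    have h3 := hc0.2 a ((hadj ρ a).2 (Or.inr ha1))
    have h4 := hc0.2 b ((hadj ρ b).2 (Or.inl hb1))
    rw [h3] at ha1
    rw [h4] at hb1
    exact hE _ _ ha1 hb1
  have hpass : ∀ v, v ≠ ρ → ¬ Spec E v → t.Pass v := by
    intro v hv hs
    unfold Spec at hs
    rw [not_not] at hs
    obtain ⟨h1, h2⟩ := hs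
    obtain ⟨a, ha⟩ := Set.ncard_eq_one.1 h1
    obtain ⟨b, hb⟩ := Set.ncard_eq_one.1 h2
    have ha' : ∀ u, E u v ↔ u = a := by
      intro u
      have : u ∈ {u | E u v} ↔ u ∈ ({a} : Set (Fin n)) := by rw [ha]
      exact this
    have hb' : ∀ u, E v u ↔ u = b := by
      intro u
      have : u ∈ {u | E v u} ↔ u ∈ ({b} : Set (Fin n)) := by rw [hb]
      exact this
    have ha1 : E a v := (ha' a).2 rfl
    have hb1 : E v b := (hb' b).2 rfl
    have hab : a ≠ b := by
      rintro rfl
      exact hE _ _ ha1 hb1
    have hnc : ∀ c, c ∈ t.ch v → c ≠ par v := by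
      intro c hc h
      obtain ⟨h3, h4⟩ := (hch c v).1 hc
      refine hpp v hv ?_ ?_
      · rw [← h]; exact h3
      · rw [← h]; exact h4
    rcases (hadj (par v) v).1 (hp2 v hv).1 with h | h
    · have h3 : par v = a := (ha' _).1 h
      have hbch : b ∈ t.ch v := by
        rw [hch]
        rcases hp3 v b ((hadj v b).2 (Or.inl hb1)) with h4 | h4
        · exact h4
        · exact absurd (h3.symm.trans h4.2) hab
      refine ⟨hv, b, ?_, ?_⟩
      · ext c
        rw [mem_singleton]
        constructor
        · intro hc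
          rcases (hadj v c).1 (hchadj c v hc) with h4 | h4
          · exact (hb' c).1 h4
          · exact absurd (((ha' c).1 h4).trans h3.symm) (hnc c hc)
        · rintro rfl
          exact hbch
      · show E (par b) b ↔ E (par v) v
        rw [((hch b v).1 hbch).2]
        exact ⟨fun _ => h, fun _ => hb1⟩
    · have h3 : par v = b := (hb' _).1 h
      have hach : a ∈ t.ch v := by
        rw [hch]
        rcases hp3 v a ((hadj v a).2 (Or.inr ha1)) with h4 | h4
        · exact h4
        · exact absurd (h4.2.symm.trans h3) hab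
      refine ⟨hv, a, ?_, ?_⟩
      · ext c
        rw [mem_singleton]
        constructor
        · intro hc
          rcases (hadj v c).1 (hchadj c v hc) with h4 | h4
          · exact absurd (((hb' c).1 h4).trans h3.symm) (hnc c hc)
          · exact (ha' c).1 h4
        · rintro rfl
          exact hach
      · show E (par a) a ↔ E (par v) v
        rw [((hch a v).1 hach).2]
        exact ⟨fun h4 => absurd h4 (hE _ _ ha1), fun h4 => absurd h4 (hE _ _ h)⟩
  have hLF : ∀ (j i : ℕ) (w x : Fin n), Spec E w → G.dist w x ≤ i → G.dist ρ w < G.dist ρ x →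
      i + j ≤ M + 1 → t.LF j x := by
    intro j
    induction j with
    | zero => intro i w x _ _ _ _; trivial
    | succ j ih =>
      intro i w x hw hd hlt hij
      have hwx : w ≠ x := by
        rintro rfl
        exact lt_irrefl _ hlt
      have hxρ : x ≠ ρ := by
        rintro rfl
        rw [SimpleGraph.dist_self] at hlt
        exact absurd hlt (Nat.not_lt_zero _)
      refine ⟨hpass x hxρ fun hsx => ?_, fun c hc => ?_⟩
      · have := hM w x hwx hw hsx
        omega
      · have h1 := hchadj c x hc
        have h2 : G.dist w c ≤ G.dist w x + G.dist x c := hT.connected.dist_triangle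
        have h3 : G.dist x c = 1 := SimpleGraph.dist_eq_one_iff_adj.mpr h1
        obtain ⟨h4, h5⟩ := (hch c x).1 hc
        have h6 := (hp2 c h4).2
        rw [h5] at h6
        exact ih (i + 1) w c hw (by omega) (by omega) (by omega)
  refine ⟨t, ⟨?_, ?_⟩, ⟨c0, hroot⟩, ?_⟩
  · intro v
    have h1 : ((t.ch v : Finset (Fin n)) : Set (Fin n)) ⊆ G.neighborSet v := fun c hc =>
      hchadj c v (mem_coe.1 hc)
    have h2 := Set.ncard_le_ncard h1 (Set.toFinite _)
    rw [Set.ncard_coe_finset] at h2
    exact h2.trans (hD v)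
  · intro v hv hnp
    have h1 : G.dist (par v) v = 1 := SimpleGraph.dist_eq_one_iff_adj.mpr (hp2 v hv).1
    have h2 := (hp2 v hv).2
    refine hLF M 1 (par v) v ?_ h1.le (by omega) (by omega)
    by_contra hs
    by_cases hpv : par v = ρ
    · rw [hpv] at hs
      exact hs hspecroot
    · exact hnp (hpass (par v) hpv hs)
  · intro a b hab
    rcases hp3 a b ((hadj a b).2 (Or.inl hab)) with ⟨h1, h2⟩ | ⟨h1, h2⟩
    · refine ⟨b, h1, ?_⟩
      unfold RT.arc
      have h3 : t.out b := by
        show E (par b) b
        rw [h2]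
        exact hab
      rw [if_pos h3]
      show (par b, b) = (a, b)
      rw [h2]
    · refine ⟨a, h1, ?_⟩
      unfold RT.arc
      have h3 : ¬ t.out a := by
        show ¬ E (par a) a
        rw [h2]
        exact hE _ _ hab
      rw [if_neg h3]
      show (a, par a) = (a, b)
      rw [h2]

end UT35
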