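import Pool.Agent.UT35.Defs

/-!
# [UT35-MED] existence of a median order

Proof. For an injective function `κ : Fin n → ℕ` let `fw κ` be the number of pairs `(u, v)` with `R u v` and `κ u < κ v`;
`fw κ ≤ n ^ 2`, so there is an injective `κ` with `fw κ` maximal (`Nat.findGreatest` or a bounded set of naturals).
Let `x` be the numbering of `Fin n` by increasing `κ` (for example `Finset.orderIsoOfFin` of the image of `κ`, composed
with the inverse of `κ`; or `Fintype.orderIsoFinOfCardEq`): `κ (x i)` is increasing in `i`.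
`asym` and `tot` are clear. `med`: let `q ≤ n` and `A` be given (if `q < p` there is nothing to show). Let `pos v = (x⁻¹ v : ℕ)` and
`κ' v = pos v` if `pos v < p`, `κ' v = 2 n + pos v` if `q ≤ pos v`, and for `p ≤ pos v < q`: `κ' v = n + pos v` if `pos v ∈ A`, `κ' v = pos v` otherwise.
`κ'` is injective, and the pairs `(u, v)` which are in different order for `κ'` and `pos` are those with both positions in `[p, q)`, one
in `A`, the other one not in `A`, the one in `A` first. So `fw κ' = fw pos - #{R first second} + #{R second first}`, where the two sets are those of the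
statement, and `fw κ' ≤ fw κ = fw pos`.
-/

set_option autoImplicit false

open Finset Classical

namespace UT35

/-- the order type of an injective function is given by a permutation -/
private theorem exists_perm {n : ℕ} (κ : Fin n → ℕ) (h : Function.Injective κ) :
    ∃ σ : Equiv.Perm (Fin n), ∀ u v, (σ u : ℕ) < σ v ↔ κ u < κ v := by
  have hc : (univ.image κ).card = n := by
    rw [card_image_of_injective _ h, card_univ, Fintype.card_fin]
  have hb : Function.Bijective (fun v : Fin n => (⟨κ v, mem_image_of_mem κ (mem_univ v)⟩ :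
      (univ.image κ : Finset ℕ))) := by
    refine ⟨fun u v huv => h (congrArg Subtype.val huv), fun ⟨y, hy⟩ => ?_⟩
    obtain ⟨v, -, rfl⟩ := mem_image.1 hy
    exact ⟨v, rfl⟩
  refine ⟨(Equiv.ofBijective _ hb).trans ((univ.image κ).orderIsoOfFin hc).symm.toEquiv,
    fun u v => ?_⟩
  show ((univ.image κ).orderIsoOfFin hc).symm _ < ((univ.image κ).orderIsoOfFin hc).symm _ ↔ _
  rw [OrderIso.lt_iff_lt]
  rfl

/-- the number of forward arcs -/
private noncomputable def fw {n : ℕ} (R : Fin n → Fin n → Prop) (κ : Fin n → ℕ) : ℕ :=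
  ((univ : Finset (Fin n × Fin n)).filter fun x => R x.1 x.2 ∧ κ x.1 < κ x.2).card

/-- a permutation with the greatest number of forward arcs -/
private theorem exists_max_fw {n : ℕ} (R : Fin n → Fin n → Prop) :
    ∃ σ : Equiv.Perm (Fin n), ∀ κ : Fin n → ℕ, Function.Injective κ →
      fw R κ ≤ fw R fun v => (σ v : ℕ) := by
  obtain ⟨σ, hσ⟩ := Finite.exists_max fun σ : Equiv.Perm (Fin n) => fw R fun v => (σ v : ℕ)
  refine ⟨σ, fun κ hκ => ?_⟩
  obtain ⟨τ, hτ⟩ := exists_perm κ hκ
  refine le_trans (le_of_eq ?_) (hσ τ)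
  unfold fw
  congr 1
  refine filter_congr fun x _ => ?_
  rw [hτ]

/-- the numbering after the exchange -/
private noncomputable def kp (n p q : ℕ) (A : Finset ℕ) (i : ℕ) : ℕ :=
  if i < p then i else if q ≤ i then 2 * n + i else if i ∈ A then n + i else i

private theorem kp_inj {n p q : ℕ} {A : Finset ℕ} {i j : ℕ} (hi : i < n) (hj : j < n)
    (h : kp n p q A i = kp n p q A j) : i = j := by
  unfold kp at h
  split_ifs at h <;> omega

private theorem kp_lt {n p q : ℕ} (hq : q ≤ n) {A : Finset ℕ} {i j : ℕ} (hi : i < n) (hj : j < n) :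
    (i < j ∨ (j < i ∧ p ≤ j ∧ i < q ∧ j ∈ A ∧ i ∉ A)) ↔
      (kp n p q A i < kp n p q A j ∨ (i < j ∧ p ≤ i ∧ j < q ∧ i ∈ A ∧ j ∉ A)) := by
  rcases eq_or_ne i j with rfl | hij
  · simp
  unfold kp
  by_cases h1 : i ∈ A <;> by_cases h2 : j ∈ A <;> simp only [h1, h2, not_true, not_false_iff,
    and_true, and_false, or_false, if_true, if_false] <;>
    by_cases h3 : i < p <;> by_cases h4 : j < p <;> by_cases h5 : q ≤ i <;> by_cases h6 : q ≤ j <;>
    simp only [h3, h4, h5, h6, if_true, if_false] <;> omega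

private theorem kp_not {n p q : ℕ} {A : Finset ℕ} {i j : ℕ} (hi : i < n) (hj : j < n)
    (h : i < j ∧ p ≤ i ∧ j < q ∧ i ∈ A ∧ j ∉ A) : ¬ kp n p q A i < kp n p q A j := by
  obtain ⟨h1, h2, h3, h4, h5⟩ := h
  unfold kp
  simp only [h4, h5, if_true, if_false]
  split_ifs <;> omega

theorem exists_median (n : ℕ) (R : Fin n → Fin n → Prop) (h1 : ∀ a b, R a b → ¬ R b a)
    (h2 : ∀ a b, a ≠ b → R a b ∨ R b a) :
    ∃ x : Equiv.Perm (Fin n), TS n (fun i j => ∃ (hi : i < n) (hj : j < n), R (x ⟨i, hi⟩) (x ⟨j, hj⟩)) := by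
  obtain ⟨σ, hσ⟩ := exists_max_fw R
  have hx : ∀ (i : ℕ) (hi : i < n), ((σ (σ.symm ⟨i, hi⟩) : Fin n) : ℕ) = i := fun i hi => by
    rw [Equiv.apply_symm_apply]
  refine ⟨σ.symm, ⟨?_, ?_, ?_⟩⟩
  · rintro i j ⟨hi, hj, h⟩ ⟨_, _, h'⟩
    exact h1 _ _ h h'
  · intro i j hi hj hij
    have hne : σ.symm ⟨i, hi⟩ ≠ σ.symm ⟨j, hj⟩ := by
      intro h
      have := σ.symm.injective h
      rw [Fin.mk.injEq] at this
      exact hij this
    rcases h2 _ _ hne with h | h
    · exact Or.inl ⟨hi, hj, h⟩
    · exact Or.inr ⟨hj, hi, h⟩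
  · intro p q hq A
    let pos : Fin n → ℕ := fun v => (σ v : ℕ)
    have hposlt : ∀ v, pos v < n := fun v => (σ v).2
    have hposinj : Function.Injective pos := fun u v huv => σ.injective (Fin.ext huv)
    let κ : Fin n → ℕ := fun v => kp n p q A (pos v)
    have hκ : Function.Injective κ := fun u v huv =>
      hposinj (kp_inj (hposlt u) (hposlt v) huv)
    let S1 := (univ : Finset (Fin n × Fin n)).filter fun x => R x.1 x.2 ∧ pos x.1 < pos x.2
    let S2 := (univ : Finset (Fin n × Fin n)).filter fun x => R x.1 x.2 ∧ κ x.1 < κ x.2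
    let B1 := (univ : Finset (Fin n × Fin n)).filter fun x => R x.1 x.2 ∧
      (pos x.1 < pos x.2 ∧ p ≤ pos x.1 ∧ pos x.2 < q ∧ pos x.1 ∈ A ∧ pos x.2 ∉ A)
    let B2 := (univ : Finset (Fin n × Fin n)).filter fun x => R x.1 x.2 ∧
      (pos x.2 < pos x.1 ∧ p ≤ pos x.2 ∧ pos x.1 < q ∧ pos x.2 ∈ A ∧ pos x.1 ∉ A)
    have hS : S2.card ≤ S1.card := hσ κ hκ
    have hU : S1 ∪ B2 = S2 ∪ B1 := by
      ext x
      simp only [S1, S2, B1, B2, mem_union, mem_filter, mem_univ, true_and]
      rw [← and_or_left, ← and_or_left]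
      exact and_congr_right fun _ => kp_lt hq (hposlt _) (hposlt _)
    have hd1 : Disjoint S1 B2 := by
      rw [Finset.disjoint_left]
      intro x hx1 hx2
      simp only [S1, B2, mem_filter, mem_univ, true_and] at hx1 hx2
      omega
    have hd2 : Disjoint S2 B1 := by
      rw [Finset.disjoint_left]
      intro x hx1 hx2
      simp only [S2, B1, mem_filter, mem_univ, true_and] at hx1 hx2
      exact kp_not (hposlt _) (hposlt _) hx2.2 hx1.2
    have hcard := congrArg Finset.card hU
    rw [card_union_of_disjoint hd1, card_union_of_disjoint hd2] at hcard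
    have hB : B2.card ≤ B1.card := by omega
    refine le_trans ?_ (hB.trans ?_)
    · refine le_trans (card_le_card ?_) (card_image_le (s := B2) (f := fun x => (pos x.2, pos x.1)))
      rintro ⟨i, j⟩ hij
      simp only [mem_filter, mem_product, mem_Ico] at hij
      obtain ⟨⟨⟨hi1, hi2⟩, hj1, hj2⟩, hlt, hA, hA', hj, hi, hR⟩ := hij
      rw [mem_image]
      refine ⟨(σ.symm ⟨j, hj⟩, σ.symm ⟨i, hi⟩), ?_, ?_⟩
      · simp only [B2, mem_filter, mem_univ, true_and, pos, hx]
        exact ⟨hR, hlt, hi1, hj2, hA, hA'⟩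
      · simp only [pos, hx]
    · refine card_le_card_of_injOn (fun x => (pos x.1, pos x.2)) ?_ ?_
      · rintro ⟨u, v⟩ huv
        simp only [B1, coe_filter, mem_univ, true_and, Set.mem_ofPred_eq] at huv
        obtain ⟨hR, h3, h4, h5, h6, h7⟩ := huv
        simp only [coe_filter, mem_product, mem_Ico, Set.mem_ofPred_eq]
        refine ⟨⟨⟨h4, h3.trans h5⟩, h4.trans h3.le, h5⟩, h3, h6, h7, hposlt u, hposlt v, ?_⟩
        have hu : σ.symm ⟨pos u, hposlt u⟩ = u := by
          rw [Equiv.symm_apply_eq]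
        have hv : σ.symm ⟨pos v, hposlt v⟩ = v := by
          rw [Equiv.symm_apply_eq]
        rw [hu, hv]
        exact hR
      · rintro ⟨u, v⟩ - ⟨u', v'⟩ - h
        simp only [Prod.mk.injEq] at h
        rw [hposinj h.1, hposinj h.2]

end UT35
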