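import Pool.Agent.UT35.LFin
import Pool.Agent.UT35.Gr
import Pool.Agent.UT35.Med
import Pool.Agent.UT35.Cst

/-!
# UT35: the theorem

`exists_ok` for `D = Δ` gives `H, k, L`; `M = L + 401`. For `n = 1` there is nothing to prove. Otherwise `exists_rt`. If the only child `c` of the root satisfies `out c`: `exists_median` for `R` gives the numbering `x` and `embed_rt`
gives `φ`; take `f v = x (φ v)`. Otherwise apply the same to `t.op` and the reversed tournament.
-/

set_option autoImplicit false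

open Finset Classical

namespace UT35

private lemma op_pass {V : Type} [Fintype V] (t : RT V) (v : V) : t.op.Pass v ↔ t.Pass v := by
  unfold RT.Pass
  constructor
  · rintro ⟨h1, c, h2, h3⟩
    exact ⟨h1, c, h2, not_iff_not.1 h3⟩
  · rintro ⟨h1, c, h2, h3⟩
    exact ⟨h1, c, h2, not_iff_not.2 h3⟩

private lemma op_LF {V : Type} [Fintype V] (t : RT V) (n : ℕ) : ∀ v : V, t.LF n v → t.op.LF n v := by
  induction n with
  | zero => intro v _; trivial
  | succ n ih =>
    intro v h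
    exact ⟨(op_pass t v).2 h.1, fun c hc => ih c (h.2 c hc)⟩

private lemma op_good {V : Type} [Fintype V] {D M : ℕ} (t : RT V) (g : t.Good D M) : t.op.Good D M where
  deg v := g.deg v
  long v hv hp := op_LF t M v (g.long v hv fun h => hp ((op_pass t _).2 h))

private lemma op_arc {V : Type} (t : RT V) {x a b : V} (h : t.arc x = (a, b)) : t.op.arc x = (b, a) := by
  unfold RT.arc at h ⊢
  by_cases hx : t.out x
  · rw [if_pos hx] at h
    have h' : ¬ t.op.out x := fun h0 => h0 hx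
    rw [if_neg h']
    rw [Prod.mk.injEq] at h
    rw [Prod.mk.injEq]
    exact ⟨h.2, h.1⟩
  · rw [if_neg hx] at h
    have h' : t.op.out x := hx
    rw [if_pos h']
    rw [Prod.mk.injEq] at h
    rw [Prod.mk.injEq]
    exact ⟨h.2, h.1⟩

/-- the case that the first arc goes away from the root -/
private lemma final_aux {Δ H l L k : ℕ} (ok : Ok Δ H l L) (t : RT (Fin (k + 1))) (g : t.Good Δ (L + 400))
    {c : Fin (k + 1)} (hc : t.ch t.root = {c}) (ho : t.out c) (R : Fin (k + 1) → Fin (k + 1) → Prop)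
    (h1 : ∀ a b, R a b → ¬ R b a) (h2 : ∀ a b, a ≠ b → R a b ∨ R b a) :
    ∃ f : Fin (k + 1) → Fin (k + 1), Function.Injective f ∧
      ∀ x a b, x ≠ t.root → t.arc x = (a, b) → R (f a) (f b) := by
  obtain ⟨σ, ts⟩ := exists_median (k + 1) R h1 h2
  have hcard : Fintype.card (Fin (k + 1)) = k + 1 := Fintype.card_fin _
  have ts' : TS (Fintype.card (Fin (k + 1)))
      (fun i j => ∃ (hi : i < k + 1) (hj : j < k + 1), R (σ ⟨i, hi⟩) (σ ⟨j, hj⟩)) := by
    rw [hcard]
    exact ts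
  obtain ⟨φ, hφ1, hφ2, hφ3⟩ := embed_rt ok le_rfl t g hc ho ts'
  rw [hcard] at hφ1
  refine ⟨fun v => σ ⟨φ v, hφ1 v⟩, ?_, ?_⟩
  · intro a b hab
    have h := σ.injective hab
    exact hφ2 (Fin.mk.inj_iff.1 h)
  · intro x a b hx hab
    obtain ⟨hi, hj, h⟩ := hφ3 x hx
    simp only [hab] at h
    exact h

theorem final (Δ : ℕ) : ∃ M : ℕ, ∀ k : ℕ, ∀ R : Fin (k + 1) → Fin (k + 1) → Prop, (∀ a, ¬ R a a) →
    (∀ a b, a ≠ b → R a b ∨ R b a) → (∀ a b, R a b → ¬ R b a) → ∀ E : Fin (k + 1) → Fin (k + 1) → Prop,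
    (∀ a b, E a b → ¬ E b a) → (SimpleGraph.fromRel E).IsTree →
    (∀ v, ((SimpleGraph.fromRel E).neighborSet v).ncard ≤ Δ) →
    (∀ v w, v ≠ w → Spec E v → Spec E w → M ≤ (SimpleGraph.fromRel E).dist v w) →
    ∃ f : Fin (k + 1) → Fin (k + 1), Function.Injective f ∧ ∀ a b, E a b → R (f a) (f b) := by
  obtain ⟨H, l, L, ok⟩ := exists_ok Δ
  refine ⟨L + 400 + 1, fun k R hR1 hR2 hR3 E hE hT hD hM => ?_⟩
  rcases Nat.eq_zero_or_pos k with rfl | hk
  · refine ⟨id, Function.injective_id, fun a b hab => ?_⟩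
    have hsub : a = b := by ext; omega
    subst hsub
    exact absurd hab (hE a a hab)
  · obtain ⟨t, g, ⟨c, hc⟩, harc⟩ := exists_rt (by omega) E hE hT hD hM
    by_cases ho : t.out c
    · obtain ⟨f, hf1, hf2⟩ := final_aux ok t g hc ho R hR3 hR2
      refine ⟨f, hf1, fun a b hab => ?_⟩
      obtain ⟨x, hx, hxa⟩ := harc a b hab
      exact hf2 x a b hx hxa
    · obtain ⟨f, hf1, hf2⟩ := final_aux ok t.op (op_good t g) (c := c) hc ho (fun a b => R b a)
        (fun a b h => hR3 b a h) (fun a b h => (hR2 a b h).symm)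
      refine ⟨f, hf1, fun a b hab => ?_⟩
      obtain ⟨x, hx, hxa⟩ := harc a b hab
      exact hf2 x b a hx (op_arc t hxa)

end UT35
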