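import Pool.Agent.UT35.Defs

/-!
# [UT35-HALF] local properties of a median order

`out_half`: apply `med i (j + 1)` with `A = {i}`: the pairs are `(i, k)`, `i < k ≤ j`; so at least half of the `j - i` arcs between `i` and
`k ∈ (i, j]` go from `i` to `k` (use `tot`, `asym`). `in_half`: `A = Ico i j` (the second vertex is `j`).
`consec`: `out_half` for `j = i + 1`.
`fix`: `y + 1` is dominated by at least two of `y - 2, y - 1, y` (`in_half` for `i = y - 2`, `j = y + 1`), but not by `y - 1`, so by `y - 2`. Similarly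
`y - 1` dominates at least two of `y, y + 1, y + 2`, but not `y + 1`, so `y + 2`.
-/

set_option autoImplicit false

open Finset Classical

namespace UT35

variable {N : ℕ} {r : ℕ → ℕ → Prop}

theorem out_half (ts : TS N r) {i j : ℕ} (hij : i < j) (hj : j < N) :
    j - i ≤ 2 * ((Ioc i j).filter fun k => r i k).card := by
  have hm := ts.med i (j + 1) (by omega) {i}
  have h1 : ((Ioc i j).filter fun k => r k i).card ≤
      ((Ico i (j + 1) ×ˢ Ico i (j + 1)).filter fun x => x.1 < x.2 ∧ x.1 ∈ ({i} : Finset ℕ) ∧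
        x.2 ∉ ({i} : Finset ℕ) ∧ r x.2 x.1).card := by
    apply card_le_card_of_injOn (fun k => (i, k))
    · intro k hk
      rw [mem_coe, mem_filter, mem_Ioc] at hk
      rw [mem_coe, mem_filter, mem_product, mem_Ico, mem_Ico, mem_singleton, mem_singleton]
      refine ⟨⟨⟨?_, ?_⟩, ?_, ?_⟩, ?_, ?_, ?_, hk.2⟩ <;> dsimp only <;> omega
    · intro a _ b _ hab
      exact (Prod.mk.inj hab).2
  have h2 : ((Ico i (j + 1) ×ˢ Ico i (j + 1)).filter fun x => x.1 < x.2 ∧ x.1 ∈ ({i} : Finset ℕ) ∧
        x.2 ∉ ({i} : Finset ℕ) ∧ r x.1 x.2).card ≤ ((Ioc i j).filter fun k => r i k).card := by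
    apply card_le_card_of_injOn (fun x => x.2)
    · intro x hx
      rw [mem_coe, mem_filter, mem_product, mem_Ico, mem_Ico, mem_singleton, mem_singleton] at hx
      rw [mem_coe, mem_filter, mem_Ioc]
      obtain ⟨⟨⟨a1, a2⟩, a3, a4⟩, a5, a6, a7, a8⟩ := hx
      rw [a6] at a8 a5
      exact ⟨⟨a5, Nat.lt_succ_iff.mp a4⟩, a8⟩
    · intro a ha b hb hab
      rw [mem_coe, mem_filter, mem_singleton] at ha hb
      exact Prod.ext (ha.2.2.1.trans hb.2.2.1.symm) hab
  have h3 : (Ioc i j) ⊆ ((Ioc i j).filter fun k => r i k) ∪ ((Ioc i j).filter fun k => r k i) := by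
    intro k hk
    rw [mem_union, mem_filter, mem_filter]
    have hk' := mem_Ioc.mp hk
    rcases ts.tot i k (by omega) (by omega) (by omega) with h | h
    · exact Or.inl ⟨hk, h⟩
    · exact Or.inr ⟨hk, h⟩
  have h4 := (card_le_card h3).trans (card_union_le _ _)
  rw [Nat.card_Ioc] at h4
  omega

theorem in_half (ts : TS N r) {i j : ℕ} (hij : i < j) (hj : j < N) :
    j - i ≤ 2 * ((Ico i j).filter fun k => r k j).card := by
  have hm := ts.med i (j + 1) (by omega) (Ico i j)
  have h1 : ((Ico i j).filter fun k => r j k).card ≤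
      ((Ico i (j + 1) ×ˢ Ico i (j + 1)).filter fun x => x.1 < x.2 ∧ x.1 ∈ Ico i j ∧
        x.2 ∉ Ico i j ∧ r x.2 x.1).card := by
    apply card_le_card_of_injOn (fun k => (k, j))
    · intro k hk
      rw [mem_coe, mem_filter, mem_Ico] at hk
      rw [mem_coe, mem_filter, mem_product, mem_Ico, mem_Ico, mem_Ico, mem_Ico]
      refine ⟨⟨⟨?_, ?_⟩, ?_, ?_⟩, ?_, ⟨?_, ?_⟩, ?_, hk.2⟩ <;> dsimp only <;> omega
    · intro a _ b _ hab
      exact (Prod.mk.inj hab).1
  have h2 : ((Ico i (j + 1) ×ˢ Ico i (j + 1)).filter fun x => x.1 < x.2 ∧ x.1 ∈ Ico i j ∧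
        x.2 ∉ Ico i j ∧ r x.1 x.2).card ≤ ((Ico i j).filter fun k => r k j).card := by
    apply card_le_card_of_injOn (fun x => x.1)
    · intro x hx
      rw [mem_coe, mem_filter, mem_product, mem_Ico, mem_Ico, mem_Ico, mem_Ico] at hx
      rw [mem_coe, mem_filter, mem_Ico]
      obtain ⟨⟨⟨a1, a2⟩, a3, a4⟩, a5, a6, a7, a8⟩ := hx
      have e : x.2 = j := by omega
      rw [e] at a8
      exact ⟨a6, a8⟩
    · intro a ha b hb hab
      rw [mem_coe, mem_filter, mem_product, mem_Ico, mem_Ico, mem_Ico, mem_Ico] at ha hb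
      obtain ⟨⟨_, a3, a4⟩, _, _, a7, _⟩ := ha
      obtain ⟨⟨_, b3, b4⟩, _, _, b7, _⟩ := hb
      exact Prod.ext hab (by omega)
  have h3 : (Ico i j) ⊆ ((Ico i j).filter fun k => r k j) ∪ ((Ico i j).filter fun k => r j k) := by
    intro k hk
    rw [mem_union, mem_filter, mem_filter]
    have hk' := mem_Ico.mp hk
    rcases ts.tot k j (by omega) (by omega) (by omega) with h | h
    · exact Or.inl ⟨hk, h⟩
    · exact Or.inr ⟨hk, h⟩
  have h4 := (card_le_card h3).trans (card_union_le _ _)
  rw [Nat.card_Ico] at h4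
  omega

theorem consec (ts : TS N r) {i : ℕ} (h : i + 1 < N) : r i (i + 1) := by
  have h1 := out_half ts (show i < i + 1 by omega) h
  have h2 : 0 < ((Ioc i (i + 1)).filter fun k => r i k).card := by
    have : i + 1 - i = 1 := by omega
    omega
  obtain ⟨k, hk⟩ := card_pos.mp h2
  rw [mem_filter, mem_Ioc] at hk
  have e : k = i + 1 := by omega
  rw [e] at hk
  exact hk.2

theorem fix (ts : TS N r) {y : ℕ} (h2 : 2 ≤ y) (hN : y + 2 < N) (h : r (y + 1) (y - 1)) :
    r (y - 2) (y + 1) ∧ r (y - 1) (y + 2) := by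
  have hn : ¬ r (y - 1) (y + 1) := ts.asym _ _ h
  constructor
  · have h1 := in_half ts (show y - 2 < y + 1 by omega) (by omega)
    by_contra hc
    have hs : ((Ico (y - 2) (y + 1)).filter fun k => r k (y + 1)) ⊆ {y} := by
      intro k hk
      rw [mem_filter, mem_Ico] at hk
      rw [mem_singleton]
      have a1 : k ≠ y - 2 := fun e => hc (e ▸ hk.2)
      have a2 : k ≠ y - 1 := fun e => hn (e ▸ hk.2)
      omega
    have := card_le_card hs
    rw [card_singleton] at this
    omega
  · have h1 := out_half ts (show y - 1 < y + 2 by omega) (by omega)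
    by_contra hc
    have hs : ((Ioc (y - 1) (y + 2)).filter fun k => r (y - 1) k) ⊆ {y} := by
      intro k hk
      rw [mem_filter, mem_Ioc] at hk
      rw [mem_singleton]
      have a1 : k ≠ y + 2 := fun e => hc (e ▸ hk.2)
      have a2 : k ≠ y + 1 := fun e => hn (e ▸ hk.2)
      omega
    have := card_le_card hs
    rw [card_singleton] at this
    omega

end UT35
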