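import Pool.Agent.UT35.Defs

/-!
# [UT35-INV] lemmas on the sparsity condition

`ins`: new pairs `(f, y)`: `min (σ f) l ≤ l ≤ H * |f - y|` by `Apart`; the count increases by at most one (`Function.update σ y l` agrees with `σ` on
`F` since `y ∉ F`). `out`: `y` is not in the interval. `light`: for `k = 0` no float has `σ f < t`; for `k + 1` use the bound for `k`:
`2 ^ (k + 1) * t ≤ 2 ^ k * s`, and `(2 D + 12) k + e ≤ (2 D + 12) (k + 1)`. `ge`: the bound for `k = 0`, `e = 0`.
`Adm.ins`, `Fl.far`: clear (for `f < lo`: `f + 20 ≤ y`; for `hi ≤ f`: `y + 20 ≤ f`).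
-/

set_option autoImplicit false

open Finset Classical

namespace UT35

variable {N D H s e lo hi : ℕ} {F : Finset ℕ} {σ : ℕ → ℕ}

theorem Inv.mono_s {s' : ℕ} (h : Inv D H F σ lo hi s e) (hs : s' ≤ s) : Inv D H F σ lo hi s' e := by
  refine ⟨h.sep, fun k => le_trans (card_le_card ?_) (h.cnt k)⟩
  intro f hf
  rw [mem_filter] at hf ⊢
  exact ⟨hf.1, hf.2.1, hf.2.2.1, lt_of_lt_of_le hf.2.2.2 (Nat.mul_le_mul_left _ hs)⟩

theorem Inv.mono_e {e' : ℕ} (h : Inv D H F σ lo hi s e) (he : e ≤ e') : Inv D H F σ lo hi s e' :=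
  ⟨h.sep, fun k => le_trans (h.cnt k) (Nat.add_le_add_left he _)⟩

theorem Inv.mono_int {lo' hi' : ℕ} (h : Inv D H F σ lo hi s e) (h1 : lo ≤ lo') (h2 : hi' ≤ hi) :
    Inv D H F σ lo' hi' s e := by
  refine ⟨fun f hf f' hf' a b c => h.sep f hf f' hf' (le_trans h1 a) b (lt_of_lt_of_le c h2),
    fun k => le_trans (card_le_card ?_) (h.cnt k)⟩
  intro f hf
  rw [mem_filter] at hf ⊢
  exact ⟨hf.1, le_trans h1 hf.2.1, lt_of_lt_of_le hf.2.2.1 h2, hf.2.2.2⟩

private theorem upd_eq {y l : ℕ} (hy : y ∉ F) {f : ℕ} (hf : f ∈ F) : Function.update σ y l f = σ f := by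
  have h : f ≠ y := by
    intro h
    rw [h] at hf
    exact hy hf
  exact Function.update_of_ne h _ _

theorem Inv.ins {y l : ℕ} (hy : y ∉ F) (h : Inv D H F σ lo hi s e)
    (hap : ∀ f ∈ F, lo ≤ f → f < hi → Apart H l f y) :
    Inv D H (insert y F) (Function.update σ y l) lo hi s (e + 1) := by
  refine ⟨?_, ?_⟩
  · intro f hf f' hf' a b c
    rw [mem_insert] at hf hf'
    rcases hf with rfl | hf
    · rcases hf' with rfl | hf'
      · exact absurd b (lt_irrefl _)
      · refine le_trans (min_le_left _ _) ?_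
        rw [Function.update_self]
        rcases hap f' hf' (by omega) c with h1 | h1
        · omega
        · exact h1.2
    · rcases hf' with rfl | hf'
      · refine le_trans (min_le_right _ _) ?_
        rw [Function.update_self]
        rcases hap f hf a (by omega) with h1 | h1
        · exact h1.2
        · omega
      · rw [upd_eq hy hf, upd_eq hy hf']
        exact h.sep f hf f' hf' a b c
  · intro k
    have h1 : ((insert y F).filter fun f => lo ≤ f ∧ f < hi ∧ Function.update σ y l f < 2 ^ k * s) ⊆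
        insert y (F.filter fun f => lo ≤ f ∧ f < hi ∧ σ f < 2 ^ k * s) := by
      intro f hf
      rw [mem_filter, mem_insert] at hf
      rw [mem_insert, mem_filter]
      rcases hf.1 with h2 | h2
      · exact Or.inl h2
      · right
        rw [upd_eq hy h2] at hf
        exact ⟨h2, hf.2⟩
    have h2 := h.cnt k
    have h3 := card_le_card h1
    have h4 := card_insert_le y (F.filter fun f => lo ≤ f ∧ f < hi ∧ σ f < 2 ^ k * s)
    omega

theorem Inv.out {y l : ℕ} (hy : y ∉ F) (h : Inv D H F σ lo hi s e) (ho : y < lo ∨ hi ≤ y) :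
    Inv D H (insert y F) (Function.update σ y l) lo hi s e := by
  refine ⟨?_, ?_⟩
  · intro f hf f' hf' a b c
    rw [mem_insert] at hf hf'
    have hf1 : f ∈ F := by
      rcases hf with rfl | hf
      · omega
      · exact hf
    have hf2 : f' ∈ F := by
      rcases hf' with rfl | hf'
      · omega
      · exact hf'
    rw [upd_eq hy hf1, upd_eq hy hf2]
    exact h.sep f hf1 f' hf2 a b c
  · intro k
    refine le_trans (card_le_card ?_) (h.cnt k)
    intro f hf
    rw [mem_filter, mem_insert] at hf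
    rw [mem_filter]
    rcases hf.1 with h2 | h2
    · exfalso
      have := hf.2.1
      have := hf.2.2.1
      omega
    · rw [upd_eq hy h2] at hf
      exact ⟨h2, hf.2⟩

theorem Inv.light {t : ℕ} (h : Inv D H F σ lo hi s e) (he : e ≤ 2 * D + 12) (hts : 2 * t ≤ s)
    (hσ : ∀ f ∈ F, lo ≤ f → f < hi → t ≤ σ f) : Inv D H F σ lo hi t 0 := by
  refine ⟨h.sep, fun k => ?_⟩
  cases k with
  | zero =>
    have h1 : (F.filter fun f => lo ≤ f ∧ f < hi ∧ σ f < 2 ^ 0 * t) = ∅ := by
      rw [filter_eq_empty_iff]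
      intro f hf h2
      have := hσ f hf h2.1 h2.2.1
      have := h2.2.2
      rw [pow_zero, one_mul] at this
      omega
    rw [h1, card_empty]
    exact Nat.zero_le _
  | succ k =>
    have h1 : (F.filter fun f => lo ≤ f ∧ f < hi ∧ σ f < 2 ^ (k + 1) * t) ⊆
        (F.filter fun f => lo ≤ f ∧ f < hi ∧ σ f < 2 ^ k * s) := by
      intro f hf
      rw [mem_filter] at hf ⊢
      refine ⟨hf.1, hf.2.1, hf.2.2.1, lt_of_lt_of_le hf.2.2.2 ?_⟩
      rw [pow_succ, mul_assoc]
      exact Nat.mul_le_mul_left _ hts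
    have h2 := h.cnt k
    have h3 := card_le_card h1
    have h4 : (2 * D + 12) * (k + 1) = (2 * D + 12) * k + (2 * D + 12) := by ring
    omega

theorem Inv.ge (h : Inv D H F σ lo hi s 0) {f : ℕ} (hf : f ∈ F) (h1 : lo ≤ f) (h2 : f < hi) : s ≤ σ f := by
  by_contra h3
  have h4 := h.cnt 0
  have h5 : f ∈ (F.filter fun f => lo ≤ f ∧ f < hi ∧ σ f < 2 ^ 0 * s) := by
    rw [mem_filter, pow_zero, one_mul]
    exact ⟨hf, h1, h2, by omega⟩
  have h6 := card_pos.mpr ⟨f, h5⟩
  omega

theorem Adm.ins (adm : Adm N F) {y : ℕ} (h1 : 20 ≤ y) (h2 : y + 21 ≤ N)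
    (h : ∀ f ∈ F, y + 20 ≤ f ∨ f + 20 ≤ y) : Adm N (insert y F) := by
  refine ⟨?_, ?_, ?_⟩
  · intro f hf
    rcases mem_insert.mp hf with rfl | hf
    · exact h1
    · exact adm.lo f hf
  · intro f hf
    rcases mem_insert.mp hf with rfl | hf
    · exact h2
    · exact adm.hi f hf
  · intro f hf f' hf' hlt
    rcases mem_insert.mp hf with rfl | hf
    · rcases mem_insert.mp hf' with rfl | hf'
      · omega
      · rcases h f' hf' with h3 | h3 <;> omega
    · rcases mem_insert.mp hf' with h4 | hf'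
      · rw [h4] at hlt ⊢
        rcases h f hf with h3 | h3 <;> omega
      · exact adm.sep f hf f' hf' hlt

theorem Fl.far {l y : ℕ} (fl : Fl F H l lo hi y) : ∀ f ∈ F, y + 20 ≤ f ∨ f + 20 ≤ y := by
  intro f hf
  have h1 := fl.ge
  have h2 := fl.lt
  by_cases h3 : lo ≤ f
  · by_cases h4 : f < hi
    · rcases fl.apart f hf h3 h4 with h5 | h5
      · exact Or.inr h5.1
      · exact Or.inl h5.1
    · left; omega
  · right; omega

theorem Apart.symm {l a b : ℕ} (h : Apart H l a b) : Apart H l b a := by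
  rcases h with h | h
  · exact Or.inr h
  · exact Or.inl h

end UT35
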