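import Pool.Agent.UT35.LCtx

/-!
# [UT35-LCT] simple facts on the situation of a turn

`WW_sub`: `De_eq`, `ic_sub`, `De_trans`. `WW_De`: if `v = e` then `c ∈ ic e`; otherwise `v ∈ De c'` with `c' ∈ ic e`, and `De c ⊆ De v ⊆ De c'`. `light`: `c`, `c'` are different children of `v`, so `De c`, `De c'` are disjoint subsets of
`De u` (`v ∈ WW t e ⊆ De u`), and `s = (De u).card < 2 * (De c).card`.
`card_lt`: `De c ⊆ De v ⊆ De u`, `v ∉ De c`.
-/

set_option autoImplicit false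

open Finset Classical

namespace UT35

variable {V : Type} [Fintype V] {t : RT V} {D H k L M s : ℕ} {u e : V}

private lemma mem_WW {t : RT V} {e x : V} :
    x ∈ WW t e ↔ x = e ∨ ∃ c, c ∈ t.ic e ∧ x ∈ t.De c := by
  unfold WW
  rw [mem_insert, mem_biUnion]

theorem WW_sub_De (t : RT V) (e : V) : WW t e ⊆ t.De e := by
  intro x hx
  rcases mem_WW.1 hx with rfl | ⟨c, hc, hx⟩
  · exact t.De_self _
  · exact t.De_ch (t.ic_sub e hc) hx

theorem WW_sub (c : Ctx t D H k L M s u e) : WW t e ⊆ t.De u :=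
  (WW_sub_De t e).trans (t.De_trans c.eu)

theorem WW_De (t : RT V) {e v c : V} (hv : v ∈ WW t e) (hc : c ∈ t.ch v) (h : v = e → c ∈ t.ic e) : t.De c ⊆ WW t e := by
  intro x hx
  rcases mem_WW.1 hv with hve | ⟨c', hc', hv'⟩
  · exact mem_WW.2 (Or.inr ⟨c, h hve, hx⟩)
  · exact mem_WW.2 (Or.inr ⟨c', hc', t.De_trans hv' (t.De_ch hc hx)⟩)

theorem WW_ne_root (c : Ctx t D H k L M s u e) {x : V} (hx : x ∈ WW t e) : x ≠ t.root :=
  t.ne_root (WW_sub c hx) c.ur

theorem light (c : Ctx t D H k L M s u e) {v x x' : V} (hv : v ∈ WW t e) (hx : x ∈ t.ch v) (hx' : x' ∈ t.ch v)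
    (hn : x ≠ x') (hh : s < 2 * (t.De x).card) : 2 * (t.De x').card ≤ s := by
  have hvu : t.De v ⊆ t.De u := t.De_trans (WW_sub c hv)
  have h1 : t.De x ∪ t.De x' ⊆ t.De u :=
    union_subset ((t.De_ch hx).trans hvu) ((t.De_ch hx').trans hvu)
  have h2 := card_le_card h1
  rw [card_union_of_disjoint (t.De_disj hx hx' hn), c.card] at h2
  omega

theorem card_lt (c : Ctx t D H k L M s u e) {v x : V} (hv : v ∈ WW t e) (hx : x ∈ t.ch v) : (t.De x).card < s := by
  have h1 := t.card_De_lt hx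
  have h2 := card_le_card (t.De_trans (WW_sub c hv))
  rw [c.card] at h2
  omega

/-- `x` a vertex of `WW t e`, not `e`: `e` is not below `x` -/
theorem e_not (t : RT V) {e x : V} (hx : x ∈ WW t e) (hn : x ≠ e) : e ∉ t.De x := by
  rcases mem_WW.1 hx with hxe | ⟨c, hc, hx'⟩
  · exact absurd hxe hn
  · intro h
    exact t.not_mem_De (t.ic_sub e hc) (t.De_trans hx' h)

end UT35
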