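import Pool.Agent.UT35.LNo

/-!
# UT35: the situation of a turn (definitions)

`u` is the top vertex of the subtree which is laid out, `s` the number of its vertices, `e` the first vertex below `u`
which is not passed. `WW t e` is `e` with the subtrees of its in-children.
`Sx`, `Sv`: everything of `WW t e` except the part strictly below `x` (the subtrees of the in-children of `v`) is a spine
piece with left end `x` (`v`) and right end `e`.
-/

set_option autoImplicit false

open Finset Classical

namespace UT35

variable {V : Type} [Fintype V]

structure Ctx (t : RT V) (D H k L M s : ℕ) (u e : V) : Prop where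
  ok : Ok D H k L
  good : t.Good D M
  hM : L + 400 ≤ M
  ih : IHZ t D H s
  ih' : IHZ t.op D H s
  card : (t.De u).card = s
  ur : u ≠ t.root
  eu : e ∈ t.De u
  ne : e ≠ u
  sp : ¬ t.Pass e

noncomputable def WW (t : RT V) (e : V) : Finset V := insert e ((t.ic e).biUnion t.De)

/-- what is placed when the spine has arrived at `x` -/
noncomputable def Px (t : RT V) (e x : V) : Finset V := WW t e \ (t.De x).erase x

/-- what is placed when the spine has arrived at `v` and the subtrees of the children in `S` are missing -/
noncomputable def Pv (t : RT V) (e v : V) (S : Finset V) : Finset V := WW t e \ S.biUnion t.De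

def Sx (t : RT V) (D H s : ℕ) (e x : V) : Prop := ZSP D H s (Px t e x) x e (t.AR ((Px t e x).erase e))

def Sv (t : RT V) (D H s : ℕ) (e v : V) (S : Finset V) : Prop :=
  ZSP D H s (Pv t e v S) v e (t.AR ((Pv t e v S).erase e))

/-- the spine is complete, with left end `g`, and at least `b` vertices; either everything is placed, except a nest on the left side
of `g`, or there is one more big subtree of an out-child `c` of `g` -/
def Res (t : RT V) (D H M s : ℕ) (e : V) (b : ℕ) : Prop :=
  ∃ (g : V) (Z Y : Finset V), ZSP D H s Z g e (t.AR (Z.erase e)) ∧ NestI D H s Y g (t.AR Y) ∧ Disjoint Y Z ∧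
    b ≤ Z.card ∧ (Y ∪ Z = WW t e ∨
      ∃ c, c ∈ t.oc g ∧ t.LF M c ∧ Disjoint (Y ∪ Z) (t.De c) ∧ Y ∪ Z ∪ t.De c = WW t e)

end UT35
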