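import Pool.Agent.UT35.Sel
import Pool.Agent.UT35.Far

/-!
# [UT35-WIN] selection of two floats in a window

Let `l = sl F lo hi`, `h = l / H + 1`, so `l ≤ H * h`, and `1000 ≤ h` (`ok.big`: `1000 * H ≤ L ≤ l`). Let `G` be the set of floats in `[lo + 300, hi)`; by `far` (applied to the interval
`[lo + 300, hi)`, `sl F (lo + 300) hi ≤ sl F lo hi ≤ s`, `L ≤ s`) `|G| ≤ (2 D + 12) (k + 1) + 1`. Let `B` be the union of the intervals `Icc (f - h) (f + h)`, `f ∈ G`, of
`Icc (lo - 10) (lo + 320 + h)` and of `Icc (hi - h - 21) (hi + 300)`. Then `|B| ≤ ((2 D + 12) (k + 1) + 1) (2 h + 1) + 2 h + 1000`, and `q - p - 1 ≥ l - 400` as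
`l ≤ hi - lo` (`sl_le`; `p ≤ lo + 300`, `hi ≤ q + 10`). So `sel` applies by `ok.win l` (`2 h + 1 = 2 (l / H) + 3`). The elements `y`, `y'` are in `(p, q)`, not in `B`, so
`lo + 320 + h < y < hi - h - 21`, and they have distance more than `h` from all `f ∈ G`, and from the floats in `[lo, lo + 300)` too.
`Apart H l a b` follows from `20 ≤ h ≤ |a - b|` and `l ≤ H * h`.
-/

set_option autoImplicit false

open Finset Classical

namespace UT35

private theorem apart_of {H l h a b : ℕ} (hl : l ≤ H * h) (h20 : 20 ≤ h)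
    (hab : a + h ≤ b ∨ b + h ≤ a) : Apart H l a b := by
  rcases hab with hab | hab
  · exact Or.inl ⟨by omega, hl.trans (Nat.mul_le_mul_left H (by omega))⟩
  · exact Or.inr ⟨by omega, hl.trans (Nat.mul_le_mul_left H (by omega))⟩

theorem win {N D H k L s e lo hi p q : ℕ} {r : ℕ → ℕ → Prop} {F : Finset ℕ} {σ : ℕ → ℕ} (ok : Ok D H k L)
    (ts : TS N r) (hL : L ≤ sl F lo hi) (hs : sl F lo hi ≤ s)
    (he : e ≤ 2 * D + 12) (inv : Inv D H F σ (lo + 300) hi s e) (hp1 : lo ≤ p + 10) (hp2 : p ≤ lo + 300)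
    (hq1 : hi ≤ q + 10) (hq2 : q ≤ hi + 300) (hqN : q < N) :
    ∃ y y', Fl F H (sl F lo hi) lo hi y ∧ Fl F H (sl F lo hi) lo hi y' ∧ Apart H (sl F lo hi) y y' ∧
      r p y ∧ r y y' ∧ r y' q := by
  have hH := ok.H1
  have hbig := ok.big
  have hcard : sl F lo hi ≤ hi - lo := by
    have h1 : (slots F lo hi).card ≤ (Ico lo hi).card := card_filter_le _ _
    rwa [Nat.card_Ico] at h1
  have hmono : sl F (lo + 300) hi ≤ sl F lo hi := by
    apply card_le_card
    intro x hx
    rw [slots, mem_filter, mem_Ico] at hx ⊢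
    exact ⟨⟨by omega, hx.1.2⟩, hx.2⟩
  have hG := far (N := N) ok inv he (hmono.trans hs) (hL.trans hs)
  generalize sl F lo hi = l at hL hs hcard ⊢
  have hwin := ok.win l hL
  have h1000 : 1000 ≤ l / H := by
    rw [Nat.le_div_iff_mul_le (by omega)]
    exact hbig.trans hL
  obtain ⟨h, hh⟩ : ∃ h, h = l / H + 1 := ⟨_, rfl⟩
  have hlH : l ≤ H * h := by
    rw [hh]
    exact (Nat.lt_mul_div_succ l (by omega)).le
  set G := F.filter fun f => lo + 300 ≤ f ∧ f < hi with hGd
  set B := (G.biUnion fun f => Icc (f - h) (f + h)) ∪ Icc (lo - 10) (lo + 320 + h) ∪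
    Icc (hi - h - 21) (hi + 300) with hB
  have hB1 : (G.biUnion fun f => Icc (f - h) (f + h)).card ≤ G.card * (2 * h + 1) := by
    apply card_biUnion_le_card_mul
    intro f _
    rw [Nat.card_Icc]
    omega
  have hB2 : B.card ≤ G.card * (2 * h + 1) + (h + 331) + (h + 322) := by
    refine (card_union_le _ _).trans (Nat.add_le_add ((card_union_le _ _).trans
      (Nat.add_le_add hB1 ?_)) ?_)
    · rw [Nat.card_Icc]
      omega
    · rw [Nat.card_Icc]
      omega
  have hB3 : B.card ≤ ((2 * D + 12) * (k + 1) + 20) * (2 * (l / H) + 3) + 1000 := by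
    have h1 : G.card * (2 * h + 1) ≤ ((2 * D + 12) * (k + 1) + 1) * (2 * h + 1) :=
      Nat.mul_le_mul_right _ hG
    have h2 : 2 * (l / H) + 3 = 2 * h + 1 := by omega
    rw [h2]
    generalize (2 * D + 12) * (k + 1) = A at *
    nlinarith
  have hpq : p < q := by omega
  have hsel : 20000 * (2 * B.card + 2 * h + 1) < q - p - 1 := by
    have h1 : 20000 * (2 * B.card + 2 * h + 1) ≤
      20000 * (2 * (((2 * D + 12) * (k + 1) + 20) * (2 * (l / H) + 3) + 1000) + 2 * (l / H) + 3) := by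
      apply Nat.mul_le_mul_left
      omega
    omega
  obtain ⟨y, y', hy1, hy2, hy3, hy4, hyB, hyB', hyy, hr1, hr2, hr3⟩ := sel ts hpq hqN B h hsel
  have key : ∀ y, p < y → y < q → y ∉ B → Fl F H l lo hi y := by
    intro y h1 h2 h3
    rw [hB, mem_union, mem_union, not_or, not_or, mem_biUnion, mem_Icc, mem_Icc] at h3
    obtain ⟨⟨h3, h4⟩, h5⟩ := h3
    refine ⟨by omega, by omega, fun f hf hf1 hf2 => apart_of hlH (by omega) ?_⟩
    by_cases hf3 : lo + 300 ≤ f
    · have h6 : ¬ (f - h ≤ y ∧ y ≤ f + h) := by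
        intro h7
        apply h3
        exact ⟨f, by rw [hGd, mem_filter]; exact ⟨hf, hf3, hf2⟩, mem_Icc.2 h7⟩
      omega
    · omega
  exact ⟨y, y', key y hy1 hy2 hyB, key y' hy3 hy4 hyB', apart_of hlH (by omega) hyy, hr1, hr2, hr3⟩

end UT35
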