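import Pool.Agent.UT35.LNo
import Pool.Agent.UT35.ZOut

/-!
# [UT35-LFAN] a vertex together with the subtrees of its out-children

`(De c).card < (De v).card ≤ n` for all children `c` (`card_De_lt`); `LF M c` for all children (`Good.long`). If `oc v = ∅`: `zle_leaf`. If `oc v = {c}`: `zle_step` with `ih` for `c`. Otherwise let `c` be an element of
`oc v` with `(De c).card` maximal (`exists_max_image`), `S = (oc v).erase c` (nonempty), `Y = S.biUnion De`; `c1` the child of `c`, `c2` the child of `c1`: `De c = insert c (insert c1 (De c2))` (`LF_succ`).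
Let `s = Y.card + (De c2).card + 3`. `yno` for `S` and this `s`: for `o ∈ S` we have `2 * (De o).card ≤ (De o).card + (De c).card ≤ Y.card + (De c2).card + 2 ≤ s`. `zle_wout` with `u = v`, `f1 = c`, `f2 = c1`, `u3 = c2`,
`X3 = De c2` (`ih` for `c2`), `m = S.card ≤ (ch v).card ≤ D`, `L ≤ Y.card` by `LF_card`. Then `ZLE.mono`: the sets are equal, and the arcs of `(oc v).biUnion De` are those of `Y`, `arc c = (v, c)`, `arc c1 = (c, c1)`,
`arc c2 = (c1, c2)`, and those of `(De c2).erase c2`.
-/

set_option autoImplicit false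

open Finset Classical

namespace UT35

variable {V : Type} [Fintype V] {t : RT V} {D H k L M n : ℕ}

omit [Fintype V] in
private theorem fan_AR_insert (t : RT V) (x : V) (S : Finset V) :
    t.AR (insert x S) = insert (t.arc x) (t.AR S) := by
  unfold RT.AR
  rw [image_insert]

omit [Fintype V] in
private theorem fan_AR_union (t : RT V) (S S' : Finset V) :
    t.AR (S ∪ S') = t.AR S ∪ t.AR S' := by
  unfold RT.AR
  rw [image_union]

private theorem fan_AR_De (t : RT V) (c : V) :
    t.AR (t.De c) = insert (t.arc c) (t.AR ((t.De c).erase c)) := by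
  rw [← fan_AR_insert, insert_erase (t.De_self c)]

theorem fan (ok : Ok D H k L) (g : t.Good D M) (hM : L + 400 ≤ M) (ih : IHZ t D H n) {v : V} (hv : ¬ t.Pass v)
    (hn : (t.De v).card ≤ n) :
    ZLE D H (insert v ((t.oc v).biUnion t.De)) v (t.AR ((t.oc v).biUnion t.De)) := by
  have hoc : ∀ c ∈ t.oc v, c ∈ t.ch v ∧ c ≠ t.root ∧ t.par c = v ∧ t.out c ∧ t.LF M c ∧
      (t.De c).card < n ∧ t.arc c = (v, c) := by
    intro c hc
    have h1 : c ∈ t.ch v := t.oc_sub v hc
    have h2 := (t.mem_ch.1 h1)
    have h3 : t.out c := by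
      unfold RT.oc at hc
      exact (mem_filter.1 hc).2
    refine ⟨h1, h2.1, h2.2, h3, g.long c h2.1 (by rw [h2.2]; exact hv), ?_, ?_⟩
    · exact lt_of_lt_of_le (t.card_De_lt h1) hn
    · unfold RT.arc
      rw [if_pos h3, h2.2]
  rcases (t.oc v).eq_empty_or_nonempty with h0 | hne
  · rw [h0, biUnion_empty]
    refine (zle_leaf v).mono rfl ?_
    unfold RT.AR
    rw [image_empty]
  obtain ⟨c, hc, hmax⟩ := exists_max_image (t.oc v) (fun c => (t.De c).card) hne
  obtain ⟨a1, a2, a3, a4, a5, a6, a7⟩ := hoc c hc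
  obtain ⟨M1, rfl⟩ : ∃ M1, M = M1 + 5 := ⟨M - 5, by omega⟩
  rcases ((t.oc v).erase c).eq_empty_or_nonempty with hS0 | hSne
  · have h1 : t.oc v = {c} := by
      rw [← insert_erase hc, hS0, insert_empty_eq]
    have h2 : (t.oc v).biUnion t.De = t.De c := by
      rw [h1, singleton_biUnion]
    rw [h2]
    refine (zle_step (ih c a2 a6 a4 (t.LF_mono a5 (by omega))) (t.not_mem_De a1)).mono rfl ?_
    rw [fan_AR_De, a7]
  · obtain ⟨c1, b1, b2, b3, b4, b5, b6, b7, b8, b9⟩ := t.LF_succ (n := M1 + 4) a5
    obtain ⟨c2, d1, d2, d3, d4, d5, d6, d7, d8, d9⟩ := t.LF_succ (n := M1 + 3) b3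
    set S := (t.oc v).erase c with hS
    set Y := S.biUnion t.De with hY
    have hSoc : S ⊆ t.oc v := erase_subset _ _
    have hcD : (t.De c).card = (t.De c2).card + 2 := by
      rw [b4, card_insert_of_notMem b5, d4, card_insert_of_notMem d5]
    have hoY : ∀ o ∈ S, (t.De o).card ≤ Y.card := fun o ho =>
      card_le_card (subset_biUnion_of_mem t.De ho)
    have hSc : ∀ o ∈ S, (t.De o).card ≤ (t.De c).card := fun o ho => hmax o (hSoc ho)
    have hN := yno (s := Y.card + (t.De c2).card + 3) ok g hM ih hv hSoc hSne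
      (fun o ho => (hoc o (hSoc ho)).2.2.2.2.2.1) (by
        intro o ho
        have h1 := hoY o ho
        have h2 := hSc o ho
        omega)
    have o1 : t.out c1 := b2.2 a4
    have o2 : t.out c2 := d2.2 o1
    have hX := ih c2 d6 (by omega) o2 (t.LF_mono d3 (by omega))
    have hm : S.card ≤ D :=
      le_trans (card_le_card (hSoc.trans (t.oc_sub v))) (g.deg v)
    have hL : L ≤ Y.card + 2 := by
      obtain ⟨o, ho⟩ := hSne
      have h1 := hoY o ho
      have h2 := t.LF_card (hoc o (hSoc ho)).2.2.2.2.1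
      omega
    have hvc : v ∉ t.De c := t.not_mem_De a1
    have hvY : v ∉ Y := t.not_mem_bi (hSoc.trans (t.oc_sub v))
    have hd : Disjoint Y (t.De c) := by
      have h1 := t.bi_disj (v := v) (S := S) (S' := {c}) (hSoc.trans (t.oc_sub v))
        (singleton_subset_iff.2 a1) (by
          rw [disjoint_singleton_right, hS]
          exact notMem_erase _ _)
      rwa [singleton_biUnion] at h1
    have hc1c : c1 ∈ t.De c := by
      rw [b4]
      exact mem_insert_of_mem (t.De_self c1)
    have hcc : c ∈ t.De c := t.De_self c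
    have hcY : c ∉ Y := fun h => (disjoint_left.1 hd h) hcc
    have hc1Y : c1 ∉ Y := fun h => (disjoint_left.1 hd h) hc1c
    have hsub2 : t.De c2 ⊆ t.De c := by
      rw [b4, d4]
      exact (subset_insert _ _).trans (subset_insert _ _)
    have hcc1 : c ∉ insert c1 (t.De c2) := by
      rw [← d4]
      exact b5
    rw [mem_insert, not_or] at hcc1
    have hnd : [v, c, c1].Nodup := by
      have e1 : v ≠ c := fun h => hvc (h ▸ hcc)
      have e2 : v ≠ c1 := fun h => hvc (h ▸ hc1c)
      simp [e1, e2, hcc1.1]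
    have hx : ∀ x ∈ [v, c, c1], x ∉ Y ∪ t.De c2 := by
      intro x hx
      simp only [List.mem_cons, List.not_mem_nil, or_false] at hx
      rw [mem_union, not_or]
      rcases hx with rfl | rfl | rfl
      · exact ⟨hvY, fun h => hvc (hsub2 h)⟩
      · exact ⟨hcY, hcc1.2⟩
      · exact ⟨hc1Y, d5⟩
    have hmain := zle_wout ok hN hX rfl hm hL hnd hx (disjoint_of_subset_right hsub2 hd)
    have hbi : (t.oc v).biUnion t.De = insert c (insert c1 (Y ∪ t.De c2)) := by
      have h1 : t.oc v = insert c S := (insert_erase hc).symm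
      rw [h1, biUnion_insert, b4, d4]
      ext x
      simp only [mem_insert, mem_union]
      tauto
    rw [hbi]
    refine hmain.mono rfl ?_
    rw [fan_AR_insert, fan_AR_insert, fan_AR_union, fan_AR_De t c2, a7]
    have e1 : t.arc c1 = (c, c1) := by
      unfold RT.arc
      rw [if_pos o1, b7]
    have e2 : t.arc c2 = (c1, c2) := by
      unfold RT.arc
      rw [if_pos o2, d7]
    rw [e1, e2]
    intro x
    simp only [mem_insert, mem_union]
    rintro (h | h | h | h | h)
    · exact Or.inl h
    · exact Or.inr (Or.inl h)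
    · exact Or.inr (Or.inr (Or.inr (Or.inl h)))
    · exact Or.inr (Or.inr (Or.inl h))
    · exact Or.inr (Or.inr (Or.inr (Or.inr h)))

end UT35
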