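import Pool.Agent.UT35.LMain

/-!
# [UT35-LFIN] embedding of a rooted tree

`c` satisfies `LF M c` (`Good.long`: `par c = root`, `¬ Pass root`), so `yle` for `n = Fintype.card V` gives the piece `De c`; `zle_step` gives the piece `insert root (De c) = De root = univ` (`De_eq`, `De_root`) with the arcs `insert (root, c) (AR ((De c).erase c))`.
Apply it with `F = ∅`, `σ = 0`, `lo = 0`, `hi = Fintype.card V` (`Adm`, `Inv` are trivial for `F = ∅`; `sl ∅ 0 N = N`). `VS r ∅ 0 N = range N` (`tau_far`). `φ` is injective since `(univ.image φ).card = N` (`card_image_iff`).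
-/

set_option autoImplicit false

open Finset Classical

namespace UT35

variable {V : Type} [Fintype V] {D H k L M : ℕ}

theorem embed_rt (ok : Ok D H k L) (hM : L + 400 ≤ M) (t : RT V) (g : t.Good D M) {c : V} (hc : t.ch t.root = {c})
    (ho : t.out c) {r : ℕ → ℕ → Prop} (ts : TS (Fintype.card V) r) :
    ∃ φ : V → ℕ, (∀ x, φ x < Fintype.card V) ∧ Function.Injective φ ∧
      ∀ x, x ≠ t.root → r (φ (t.arc x).1) (φ (t.arc x).2) := by
  have hcc : c ∈ t.ch t.root := by rw [hc]; exact mem_singleton_self _
  have hc1 := (t.mem_ch).1 hcc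
  have hLF : t.LF M c := by
    apply g.long c hc1.1
    rw [hc1.2]
    exact fun h => h.1 rfl
  have hcard : (t.De c).card < Fintype.card V := by
    have h1 := t.card_De_lt hcc
    rw [t.De_root, card_univ] at h1
    exact h1
  have hz := yle ok hM (Fintype.card V) t g c hc1.1 hcard ho (t.LF_mono hLF (by omega))
  have hroot : t.root ∉ t.De c := t.not_mem_De hcc
  have hz2 := zle_step hz hroot
  have huniv : insert t.root (t.De c) = univ := by
    have h1 := t.De_eq t.root
    rw [hc, singleton_biUnion, t.De_root] at h1
    rw [h1]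
  have hsl : sl ∅ 0 (Fintype.card V) = (insert t.root (t.De c)).card := by
    rw [huniv, card_univ]
    unfold sl slots
    rw [filter_true_of_mem (fun x _ => notMem_empty x), Nat.card_Ico, Nat.sub_zero]
  have hpos : 0 < Fintype.card V := Fintype.card_pos_iff.2 ⟨t.root⟩
  obtain ⟨φ, hφ, hφr⟩ := hz2.emb (Fintype.card V) r ts ∅ (fun _ => 0) 0 (Fintype.card V)
    ⟨fun f hf => absurd hf (notMem_empty f), fun f hf => absurd hf (notMem_empty f),
      fun f hf => absurd hf (notMem_empty f)⟩ (le_refl _) hpos (notMem_empty _) hsl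
    ⟨fun f hf => absurd hf (notMem_empty f), fun j => by
      rw [filter_empty, card_empty]; exact Nat.zero_le _⟩
  have hVS : VS r ∅ 0 (Fintype.card V) = range (Fintype.card V) := by
    unfold VS slots
    rw [filter_true_of_mem (fun x _ => notMem_empty x)]
    ext a
    rw [mem_image, mem_range]
    constructor
    · rintro ⟨b, hb, rfl⟩
      rw [tau_far (notMem_empty _) (notMem_empty _)]
      exact (mem_Ico.1 hb).2
    · intro ha
      exact ⟨a, mem_Ico.2 ⟨Nat.zero_le _, ha⟩, tau_far (notMem_empty _) (notMem_empty _)⟩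
  have himg := hφ.img
  rw [hVS, huniv] at himg
  refine ⟨φ, ?_, ?_, ?_⟩
  · intro x
    have h1 : φ x ∈ univ.image φ := mem_image_of_mem _ (mem_univ x)
    rw [himg, mem_range] at h1
    exact h1
  · have h1 : (univ.image φ).card = (univ : Finset V).card := by
      rw [himg, card_range, card_univ]
    have h2 := card_image_iff.1 h1
    intro a b hab
    exact h2 (by simp) (by simp) hab
  · intro x hx
    apply hφ.arc
    by_cases hxc : x = c
    · subst hxc
      rw [mem_insert]
      left
      unfold RT.arc
      rw [if_pos ho, hc1.2]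
    · rw [mem_insert]
      right
      unfold RT.AR
      rw [mem_image]
      have h1 : x ∈ insert t.root (t.De c) := by rw [huniv]; exact mem_univ x
      rw [mem_insert] at h1
      exact ⟨x, mem_erase.2 ⟨hxc, h1.resolve_left hx⟩, rfl⟩

end UT35
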