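import Pool.Agent.UT35.LTurn

/-!
# [UT35-LMAIN] layout of all subtrees

Induction on `n` (for all trees). Let `w` be given with `(De w).card < n + 1`; if `(De w).card < n` use the induction hypothesis; so let `s = n = (De w).card`; the induction hypothesis holds for `t` and `t.op` (`Good_op`).
* `LF 4 w`: `zle_step` with the child (`LF_succ`).
* `¬ LF 4 w`: `chain3`: `w, f1, f2, e`, `¬ Pass e`, `De w = insert w (insert f1 (insert f2 (De e)))`, `out` for all of them. If some `c0 ∈ ic e` is heavy (`n < 2 * (De c0).card`): `turn`. Otherwise: if `ic e = ∅`: `De e = insert e ((oc e).biUnion De)`, `fan`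
  and `zle_step` three times. If `ic e ≠ ∅`: `nesti` with `S = ic e` gives `ZNO` (the set is not empty); `fan` gives `X3 = insert e ((oc e).biUnion De)`; `zle_win` with `u = w`, `v = e`, `Y = (ic e).biUnion De`, `s = n = Y.card + X3.card + 3`; `L ≤ Y.card` by `LF_card`.
-/

set_option autoImplicit false

open Finset Classical

namespace UT35

variable {V : Type} [Fintype V] {D H k L M : ℕ}

private theorem mem_AR_lm {t : RT V} {S : Finset V} {p : V × V} : p ∈ t.AR S ↔ ∃ x ∈ S, t.arc x = p := by
  unfold RT.AR
  rw [mem_image]

private theorem disj_ic_oc_lm (t : RT V) (v : V) : Disjoint (t.ic v) (t.oc v) := by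
  rw [Finset.disjoint_left]
  intro x hx hx'
  unfold RT.ic at hx
  unfold RT.oc at hx'
  exact (mem_filter.mp hx).2 (mem_filter.mp hx').2

private theorem yle_step_lm (ok : Ok D H k L) (hM : L + 400 ≤ M) {n : ℕ} {t : RT V} (g : t.Good D M)
    (ih : IHZ t D H n) (ih' : IHZ t.op D H n) {w : V} (hw : w ≠ t.root) (hc : (t.De w).card = n)
    (ho : t.out w) (h3 : t.LF 3 w) : ZLE D H (t.De w) w (t.AR ((t.De w).erase w)) := by
  by_cases h4 : t.LF 4 w
  · obtain ⟨c, -, hoc, hLc, hDe, hwc, hcr, hpc, -, -⟩ := t.LF_succ h4
    have hcard : (t.De c).card < n := by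
      rw [← hc, hDe, card_insert_of_notMem hwc]
      omega
    have h := zle_step (ih c hcr hcard (hoc.mpr ho) hLc) hwc
    refine h.mono hDe ?_
    intro p hp
    rw [mem_AR_lm] at hp
    obtain ⟨x, hx, hxp⟩ := hp
    rw [mem_erase, hDe, mem_insert] at hx
    have hx' : x ∈ t.De c := hx.2.resolve_left hx.1
    rw [mem_insert]
    by_cases hxc : x = c
    · left
      rw [← hxp, hxc]
      unfold RT.arc
      rw [if_pos (hoc.mpr ho), hpc]
    · right
      rw [mem_AR_lm]
      exact ⟨x, mem_erase.mpr ⟨hxc, hx'⟩, hxp⟩
  · obtain ⟨f1, f2, e, hr1, hr2, hr3, hp1, hp2, hp3, ho1, ho2, ho3, hDe, hnd, hx, hLF⟩ := t.chain3 h3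
    have ho1' : t.out f1 := ho1.mpr ho
    have ho2' : t.out f2 := ho2.mpr ho
    have ho3' : t.out e := ho3.mpr ho
    have hPe : ¬ t.Pass e := by
      intro hP
      apply h4
      rw [hLF 1]
      exact ⟨hP, fun _ _ => trivial⟩
    have hwe : w ∉ t.De e := hx w (by simp)
    have h1e : f1 ∉ t.De e := hx f1 (by simp)
    have h2e : f2 ∉ t.De e := hx f2 (by simp)
    have hnd' := hnd
    simp only [List.nodup_cons, List.mem_cons, List.not_mem_nil, or_false, not_or, List.nodup_nil,
      and_true, not_false_eq_true] at hnd'
    obtain ⟨⟨hw1, hw2⟩, h12⟩ := hnd'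
    have hcardw : (t.De w).card = (t.De e).card + 3 := by
      rw [hDe, card_insert_of_notMem, card_insert_of_notMem, card_insert_of_notMem h2e]
      · rw [mem_insert]; push Not; exact ⟨h12, h1e⟩
      · rw [mem_insert, mem_insert]; push Not; exact ⟨hw1, hw2, hwe⟩
    have heself := t.De_self e
    have ctx : Ctx t D H k L M n w e :=
      { ok := ok
        good := g
        hM := hM
        ih := ih
        ih' := ih'
        card := hc
        ur := hw
        eu := by rw [hDe]; simp [heself]
        ne := fun h => hwe (h ▸ heself)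
        sp := hPe }
    -- arcs
    have harc1 : t.arc f1 = (w, f1) := by unfold RT.arc; rw [if_pos ho1', hp1]
    have harc2 : t.arc f2 = (f1, f2) := by unfold RT.arc; rw [if_pos ho2', hp2]
    have harc3 : t.arc e = (f2, e) := by unfold RT.arc; rw [if_pos ho3', hp3]
    by_cases hheavy : ∃ c0 ∈ t.ic e, n < 2 * (t.De c0).card
    · obtain ⟨c0, hc0, hh⟩ := hheavy
      exact turn ctx hp1 hp2 hp3 ho1' ho2' ho3' hDe hnd hx hc0 hh
    · push Not at hheavy
      have hDee := t.De_split e (t.ch_eq e)
      have hfan := fan ok g hM ih hPe (by omega)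
      by_cases hic : t.ic e = ∅
      · have hDe2 : t.De e = insert e ((t.oc e).biUnion t.De) := by
          rw [hDee, hic]
          simp
        have hz2 := zle_step hfan (u := f2) (by rw [← hDe2]; exact h2e)
        have hz1 := zle_step hz2 (u := f1) (by rw [mem_insert, ← hDe2]; push Not; exact ⟨h12, h1e⟩)
        have hz0 := zle_step hz1 (u := w)
          (by rw [mem_insert, mem_insert, ← hDe2]; push Not; exact ⟨hw1, hw2, hwe⟩)
        refine hz0.mono (by rw [hDe, hDe2]) ?_
        intro p hp
        rw [mem_AR_lm] at hp
        obtain ⟨x, hx, hxp⟩ := hp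
        rw [mem_erase, hDe, mem_insert, mem_insert, mem_insert, hDe2, mem_insert] at hx
        rw [mem_insert, mem_insert, mem_insert, mem_AR_lm]
        obtain ⟨hxw, h | h | h | h | h⟩ := hx
        · exact absurd h hxw
        · left; rw [← hxp, h, harc1]
        · right; left; rw [← hxp, h, harc2]
        · right; right; left; rw [← hxp, h, harc3]
        · right; right; right; exact ⟨x, h, hxp⟩
      · obtain ⟨o, ho'⟩ := Finset.nonempty_iff_ne_empty.mpr hic
        have hoch := t.ic_sub e ho'
        have hnest := nesti ok g hM ih' hPe (Subset.refl (t.ic e))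
          (fun o ho => by
            have := t.card_De_lt (t.ic_sub e ho)
            omega) hheavy
        have hYne : o ∈ (t.ic e).biUnion t.De := mem_biUnion.mpr ⟨o, ho', t.De_self o⟩
        rcases hnest with ⟨hY, -⟩ | ⟨m, hm, hN⟩
        · rw [hY] at hYne
          exact absurd hYne (notMem_empty _)
        · have heY : e ∉ (t.ic e).biUnion t.De := t.not_mem_bi (t.ic_sub e)
          have heO : e ∉ (t.oc e).biUnion t.De := t.not_mem_bi (t.oc_sub e)
          have hdYO := t.bi_disj (t.ic_sub e) (t.oc_sub e) (disj_ic_oc_lm t e)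
          have hd : Disjoint ((t.ic e).biUnion t.De) (insert e ((t.oc e).biUnion t.De)) := by
            rw [disjoint_insert_right]
            exact ⟨heY, hdYO⟩
          have hU : (t.ic e).biUnion t.De ∪ insert e ((t.oc e).biUnion t.De) = t.De e := by
            rw [hDee, union_insert]
          have hcU : (t.De e).card
              = ((t.ic e).biUnion t.De).card + (insert e ((t.oc e).biUnion t.De)).card := by
            rw [← hU, card_union_of_disjoint hd]
          have hMo : M ≤ (t.De o).card := by
            apply t.LF_card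
            apply g.long o (t.mem_ch.mp hoch).1
            rw [(t.mem_ch.mp hoch).2]
            exact hPe
          have hoY : (t.De o).card ≤ ((t.ic e).biUnion t.De).card :=
            card_le_card (subset_biUnion_of_mem t.De ho')
          have hz := zle_win ok hN hfan (u := w) (f1 := f1) (f2 := f2) (by omega) hm.1 (by omega) hnd
            (by rw [hU]; exact hx) hd
          refine hz.mono (by rw [hU, hDe]) ?_
          intro p hp
          rw [mem_AR_lm] at hp
          obtain ⟨x, hx, hxp⟩ := hp
          rw [mem_erase, hDe, mem_insert, mem_insert, mem_insert, ← hU, mem_union, mem_insert] at hx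
          rw [mem_insert, mem_insert, mem_insert, mem_union, mem_AR_lm, mem_AR_lm]
          obtain ⟨hxw, h | h | h | h | h | h⟩ := hx
          · exact absurd h hxw
          · left; rw [← hxp, h, harc1]
          · right; left; rw [← hxp, h, harc2]
          · right; right; right; left; exact ⟨x, h, hxp⟩
          · right; right; left; rw [← hxp, h, harc3]
          · right; right; right; right; exact ⟨x, h, hxp⟩

theorem yle (ok : Ok D H k L) (hM : L + 400 ≤ M) (n : ℕ) : ∀ t : RT V, t.Good D M → IHZ t D H n := by
  induction n with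
  | zero =>
    intro t _ w _ hc
    exact absurd hc (Nat.not_lt_zero _)
  | succ n ih =>
    intro t g w hw hc ho h3
    rcases Nat.lt_or_ge (t.De w).card n with h | h
    · exact ih t g w hw h ho h3
    · exact yle_step_lm ok hM g (ih t g) (ih t.op (t.Good_op g)) hw (by omega) ho h3

end UT35
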