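import Pool.Agent.UT35.ZNI

/-!
# [UT35-TDEFS] pieces of a turn, and nests on the left side (with `[lo, β)` as region)

`zni_opt`: if `Y = ∅`: `sl F lo β = 0` and `lo ∉ F`, so `β = lo`; take `φ` constant. Otherwise `prev_slot` for `[lo, β)` gives `hi'` with `lo < hi' ≤ β`, the positions of
`[hi', β)` in `F`, `hi' - 1 ∉ F`, `sl F lo hi' = Y.card`; apply `zni` to `[lo, hi')` (`Inv.mono_int`, `e + 2 * m ≤ 2 * D + 12`) and `VS_last`.
-/

set_option autoImplicit false

open Finset Classical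

namespace UT35

variable {V : Type}

/-- an optional nest on the left side of `v`: `Y` is empty, or `Y` is a (nonempty) nest for the reversed arcs -/
def NestI (D H s : ℕ) (Y : Finset V) (v : V) (A : Finset (V × V)) : Prop :=
  (Y = ∅ ∧ A = ∅) ∨ ∃ m, (m ≤ D ∧ Y.Nonempty) ∧ ZNO D H s m Y v (A.image Prod.swap)

theorem zni_opt {D H s : ℕ} {Y : Finset V} {v : V} {A : Finset (V × V)} (h : NestI D H s Y v A) {N : ℕ}
    {r : ℕ → ℕ → Prop} (ts : TS N r) {F : Finset ℕ} {σ : ℕ → ℕ} {β lo e : ℕ} (adm : Adm N F) (hβN : β < N)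
    (hlo : lo ≤ β) (hloF : lo ∉ F) (hβF : β ∉ F) (hsl : sl F lo β = Y.card) (hYs : Y.card ≤ s) (he : e ≤ 12)
    (inv : Inv D H F σ lo β s e) (hσ : ∀ f ∈ F, lo ≤ f → f < β → Y.card ≤ σ f) :
    ∃ φ : V → ℕ, Em r Y A φ (VS r F lo β) ∧ φ v = tau r F β := by
  rcases h with ⟨rfl, rfl⟩ | ⟨m, ⟨hm, hne⟩, hz⟩
  · have hβ : β = lo := by
      by_contra hcon
      have h1 : (slots F lo β).card = 0 := by
        unfold sl at hsl
        rw [hsl, card_empty]
      rw [card_eq_zero] at h1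
      have h2 : lo ∈ slots F lo β := by
        rw [mem_slots]
        exact ⟨le_refl _, by omega, hloF⟩
      rw [h1] at h2
      exact absurd h2 (notMem_empty _)
    subst hβ
    refine ⟨fun _ => tau r F β, ⟨?_, ?_⟩, rfl⟩
    · have h1 : slots F β β = ∅ := by
        apply eq_empty_of_forall_notMem
        intro k hk
        rw [mem_slots] at hk
        omega
      unfold VS
      rw [h1, image_empty, image_empty]
    · intro a b hab
      exact absurd hab (notMem_empty _)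
  · obtain ⟨hi, h1, h2, h3, h4, h5, h6⟩ := prev_slot (F := F) adm (lo := lo) (β := β)
      (by rw [hsl]; exact hne.card_pos)
    obtain ⟨φ, hφ, hv⟩ := zni hz ts (F := F) (σ := σ) (β := β) (lo := lo) (hi := hi) (e := e) adm hβN h2 hβF h5 h1 h4
      (by rw [h6]; exact hsl) hYs (by omega) (inv.mono_int (le_refl _) (by omega))
      (fun f hf h7 h8 => hσ f hf h7 (by omega))
    refine ⟨φ, ?_, hv⟩
    rw [VS_last h2 h5]
    exact hφ

/-- left part of a turn without exit: `u` on the first slot, `e` on the last slot -/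
structure ZTL (D H s : ℕ) (X : Finset V) (u e : V) (A : Finset (V × V)) : Prop where
  memu : u ∈ X
  meme : e ∈ X
  wf : ∀ a b, (a, b) ∈ A → a ∈ X ∧ b ∈ X
  emb : ∀ N r, TS N r → ∀ F σ lo hi, Adm N F → hi ≤ N → lo < hi → lo ∉ F → hi - 1 ∉ F → sl F lo hi = X.card →
    X.card ≤ s → Inv D H F σ lo hi s 0 →
    ∃ φ : V → ℕ, Em r X A φ (VS r F lo hi) ∧ φ u = tau r F lo ∧ φ e = tau r F (hi - 1)

/-- left part of a turn with an exit: `u` on the first slot, `e` on the last slot, and an arc from `c` to a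
prescribed vertex `q` a bit to the right of the region -/
structure ZTX (D H s : ℕ) (X : Finset V) (u e c : V) (A : Finset (V × V)) : Prop where
  memu : u ∈ X
  meme : e ∈ X
  memc : c ∈ X
  wf : ∀ a b, (a, b) ∈ A → a ∈ X ∧ b ∈ X
  emb : ∀ N r, TS N r → ∀ F σ lo hi q, Adm N F → hi ≤ N → lo < hi → lo ∉ F → hi - 1 ∉ F → sl F lo hi = X.card →
    X.card ≤ s → Inv D H F σ lo hi s 0 → hi ≤ q + 11 → q ≤ hi + 299 → q < N →
    ∃ φ : V → ℕ, Em r X A φ (VS r F lo hi) ∧ φ u = tau r F lo ∧ φ e = tau r F (hi - 1) ∧ r (φ c) q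

/-- right part of a turn with an exit: `e` on the first slot, `c` not far from it (there is no arc into `c` yet) -/
structure ZRI (D H s : ℕ) (X : Finset V) (e c : V) (A : Finset (V × V)) : Prop where
  meme : e ∈ X
  memc : c ∈ X
  wf : ∀ a b, (a, b) ∈ A → a ∈ X ∧ b ∈ X
  emb : ∀ N r, TS N r → ∀ F σ lo hi, Adm N F → hi ≤ N → lo < hi → lo ∉ F → sl F lo hi = X.card → X.card ≤ s →
    Inv D H F σ lo hi s 0 →
    ∃ φ : V → ℕ, Em r X A φ (VS r F lo hi) ∧ φ e = tau r F lo ∧ lo ≤ φ c + 10 ∧ φ c ≤ lo + 300 ∧ φ c < N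

end UT35
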