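import Pool.Agent.UT35.Two
import Pool.Agent.UT35.EmL

/-!
# [UT35-ZBAS] single vertices and plain steps

`zle_leaf`, `zsp_leaf`: the region has one slot, `lo` (as `lo ∉ F`); `VS r F lo hi = {tau r F lo}` (`VS_first`-type argument: all other positions of `[lo, hi)` are floats; for
`zsp_leaf` also `hi - 1 = lo`); take `φ` constant.
`zle_step`: `next_slot` gives `lo1` (`X` is not empty, so there are at least two slots). Apply `h.emb` to `[lo1, hi)` (`Inv.mono_int`, `Inv.mono_s`), change `φ` at `u ∉ X` to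
`tau r F lo` (`glue`, `Em.congr`, `Em.vertex`, `Em.arcs`), and use `VS_first`, `tau_arc` for the new arc (`lo1 < hi ≤ N`).
`zsp_step`, `zlk_step`: the same (for `zlk_step`: `a ≤ lo + (n + 1) ≤ lo1 + n`; `zlk_zero`: `a ≤ lo`, `Inv.mono_int`).
-/

set_option autoImplicit false

open Finset Classical

namespace UT35

variable {V : Type} {D H s n : ℕ}

private theorem one_slot {N : ℕ} {r : ℕ → ℕ → Prop} {F : Finset ℕ} (adm : Adm N F) {lo hi : ℕ} (hlt : lo < hi)
    (hlo : lo ∉ F) (hsl : sl F lo hi = 1) : VS r F lo hi = {tau r F lo} := by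
  have h1 : tau r F lo ∈ VS r F lo hi := by
    unfold VS
    exact mem_image_of_mem _ (mem_slots.2 ⟨le_rfl, hlt, hlo⟩)
  have h2 : (VS r F lo hi).card = 1 := by rw [card_VS adm, hsl]
  obtain ⟨a, ha⟩ := card_eq_one.1 h2
  rw [ha, mem_singleton] at h1
  rw [ha, h1]

theorem zle_leaf (u : V) : ZLE D H {u} u ∅ := by
  refine ⟨mem_singleton_self u, fun a b h => absurd h (notMem_empty _), ?_⟩
  intro N r ts F σ lo hi adm hiN hlt hlo hsl inv
  rw [card_singleton] at hsl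
  refine ⟨fun _ => tau r F lo, ⟨?_, fun a b h => absurd h (notMem_empty _)⟩, rfl⟩
  rw [one_slot adm hlt hlo hsl, image_singleton]

theorem zsp_leaf (u : V) : ZSP D H s {u} u u ∅ := by
  refine ⟨mem_singleton_self u, mem_singleton_self u, fun a b h => absurd h (notMem_empty _), ?_⟩
  intro N r ts F σ lo hi adm hiN hlt hlo hhi hsl hs inv hσ
  rw [card_singleton] at hsl
  have h1 : hi - 1 = lo := by
    by_contra hne
    have h2 : ({lo, hi - 1} : Finset ℕ) ⊆ slots F lo hi := by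
      intro k hk
      rw [mem_insert, mem_singleton] at hk
      rw [mem_slots]
      rcases hk with rfl | rfl
      · exact ⟨le_rfl, hlt, hlo⟩
      · exact ⟨by omega, by omega, hhi⟩
    have h3 := card_le_card h2
    rw [card_pair (Ne.symm hne)] at h3
    unfold sl at hsl
    omega
  refine ⟨fun _ => tau r F lo, ⟨?_, fun a b h => absurd h (notMem_empty _)⟩, rfl, ?_⟩
  · rw [one_slot adm hlt hlo hsl, image_singleton]
  · rw [h1]

private theorem step_wf {X : Finset V} {u u' : V} {A : Finset (V × V)} (hm : u' ∈ X)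
    (hw : ∀ a b, (a, b) ∈ A → a ∈ X ∧ b ∈ X) :
    ∀ a b, (a, b) ∈ insert (u, u') A → a ∈ insert u X ∧ b ∈ insert u X := by
  intro a b hab
  rcases mem_insert.1 hab with h | h
  · rw [Prod.mk.injEq] at h
    rw [h.1, h.2]
    exact ⟨mem_insert_self _ _, mem_insert_of_mem hm⟩
  · exact ⟨mem_insert_of_mem (hw a b h).1, mem_insert_of_mem (hw a b h).2⟩

private theorem step_emb {X : Finset V} {u u' : V} {A : Finset (V × V)} (hm : u' ∈ X) (hu : u ∉ X)
    (hw : ∀ a b, (a, b) ∈ A → a ∈ X ∧ b ∈ X) {N : ℕ} {r : ℕ → ℕ → Prop} (ts : TS N r) {F : Finset ℕ}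
    (adm : Adm N F) {lo lo1 hi : ℕ} (hiN : hi ≤ N) (hlo : lo ∉ F) (h1 : lo < lo1) (h3 : lo1 < hi)
    (h4 : lo1 ∉ F) (h5 : ∀ j, lo < j → j < lo1 → j ∈ F) {φ : V → ℕ}
    (e : Em r X A φ (VS r F lo1 hi)) (he : φ u' = tau r F lo1) :
    ∃ ψ : V → ℕ, Em r (insert u X) (insert (u, u') A) ψ (VS r F lo hi) ∧ ψ u = tau r F lo ∧
      ∀ x ∈ X, ψ x = φ x := by
  set ψ : V → ℕ := Function.update φ u (tau r F lo) with hψ
  have a1 : ψ u = tau r F lo := by rw [hψ, Function.update_self]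
  have a2 : ∀ x ∈ X, ψ x = φ x := by
    intro x hx
    have hne : x ≠ u := fun h => hu (h ▸ hx)
    rw [hψ, Function.update_of_ne hne]
  have e1 := e.congr (ψ := ψ) hw (Subset.refl _) a2
  have e2 := (e1.vertex u).arcs (a := u) (b := u') (by
    rw [a1, a2 u' hm, he]
    exact tau_arc ts adm hlo h4 h1 (by omega) h5)
  rw [a1, ← VS_first hlo h1 h5 h3.le] at e2
  exact ⟨ψ, e2, a1, a2⟩

theorem zle_step {X : Finset V} {u u' : V} {A : Finset (V × V)} (h : ZLE D H X u' A) (hu : u ∉ X) :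
    ZLE D H (insert u X) u (insert (u, u') A) := by
  refine ⟨mem_insert_self _ _, step_wf h.mem h.wf, ?_⟩
  intro N r ts F σ lo hi adm hiN hlt hlo hsl inv
  have hX : 1 ≤ X.card := card_pos.2 ⟨u', h.mem⟩
  rw [card_insert_of_notMem hu] at hsl inv
  obtain ⟨lo1, h1, h2, h3, h4, h5, h6⟩ := next_slot adm hlo (hi := hi) (by omega)
  obtain ⟨φ, e, he⟩ := h.emb N r ts F σ lo1 hi adm hiN h3 h4 (by omega)
    ((inv.mono_int (by omega) le_rfl).mono_s (by omega))
  obtain ⟨ψ, p1, p2, _⟩ := step_emb h.mem hu h.wf ts adm hiN hlo h1 h3 h4 h5 e he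
  exact ⟨ψ, p1, p2⟩

theorem zsp_step {X : Finset V} {u u' z : V} {A : Finset (V × V)} (h : ZSP D H s X u' z A) (hu : u ∉ X) :
    ZSP D H s (insert u X) u z (insert (u, u') A) := by
  refine ⟨mem_insert_self _ _, mem_insert_of_mem h.memz, step_wf h.memu h.wf, ?_⟩
  intro N r ts F σ lo hi adm hiN hlt hlo hhi hsl hs inv hσ
  have hX : 1 ≤ X.card := card_pos.2 ⟨u', h.memu⟩
  rw [card_insert_of_notMem hu] at hsl hs hσ
  obtain ⟨lo1, h1, h2, h3, h4, h5, h6⟩ := next_slot adm hlo (hi := hi) (by omega)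
  obtain ⟨φ, e, he, hz⟩ := h.emb N r ts F σ lo1 hi adm hiN h3 h4 hhi (by omega) (by omega)
    (inv.mono_int (by omega) le_rfl) (fun f hf ha hb => by
      have := hσ f hf (by omega) hb
      omega)
  obtain ⟨ψ, p1, p2, p3⟩ := step_emb h.memu hu h.wf ts adm hiN hlo h1 h3 h4 h5 e he
  exact ⟨ψ, p1, p2, by rw [p3 z h.memz, hz]⟩

theorem zlk_zero {X : Finset V} {u : V} {A : Finset (V × V)} (h : ZLE D H X u A) : ZLK D H 0 X u A := by
  refine ⟨h.mem, h.wf, ?_⟩
  intro N r ts F σ lo hi a adm hiN hlt hlo hsl ha inv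
  exact h.emb N r ts F σ lo hi adm hiN hlt hlo hsl (inv.mono_int (by omega) le_rfl)

theorem zlk_step {X : Finset V} {u u' : V} {A : Finset (V × V)} (h : ZLK D H n X u' A) (hu : u ∉ X) :
    ZLK D H (n + 1) (insert u X) u (insert (u, u') A) := by
  refine ⟨mem_insert_self _ _, step_wf h.mem h.wf, ?_⟩
  intro N r ts F σ lo hi a adm hiN hlt hlo hsl ha inv
  have hX : 1 ≤ X.card := card_pos.2 ⟨u', h.mem⟩
  rw [card_insert_of_notMem hu] at hsl inv
  obtain ⟨lo1, h1, h2, h3, h4, h5, h6⟩ := next_slot adm hlo (hi := hi) (by omega)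
  obtain ⟨φ, e, he⟩ := h.emb N r ts F σ lo1 hi a adm hiN h3 h4 (by omega) (by omega)
    (inv.mono_s (by omega))
  obtain ⟨ψ, p1, p2, _⟩ := step_emb h.mem hu h.wf ts adm hiN hlo h1 h3 h4 h5 e he
  exact ⟨ψ, p1, p2⟩

end UT35
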