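import Pool.Agent.UT35.Defs

/-!
# [UT35-ZMONO] fewer arcs, equal sets

Immediate from the definitions (`wf` for a subset, `Em` with fewer arcs).
-/

set_option autoImplicit false

open Finset Classical

namespace UT35

variable {V : Type} {D H s n m : ℕ}

theorem Em.mono {r : ℕ → ℕ → Prop} {X X' : Finset V} {A A' : Finset (V × V)} {φ : V → ℕ} {T T' : Finset ℕ}
    (h : Em r X A φ T) (hX : X' = X) (hA : A' ⊆ A) (hT : T' = T) : Em r X' A' φ T' := by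
  subst hX hT
  exact ⟨h.img, fun a b hab => h.arc a b (hA hab)⟩

theorem ZLE.mono {X X' : Finset V} {u : V} {A A' : Finset (V × V)} (h : ZLE D H X u A) (hX : X' = X)
    (hA : A' ⊆ A) : ZLE D H X' u A' := by
  subst hX
  refine ⟨h.mem, fun a b hab => h.wf a b (hA hab), ?_⟩
  intro N r ts F σ lo hi h1 h2 h3 h4 h5 h6
  obtain ⟨φ, h7, h8⟩ := h.emb N r ts F σ lo hi h1 h2 h3 h4 h5 h6
  exact ⟨φ, h7.mono rfl hA rfl, h8⟩

theorem ZSP.mono {X X' : Finset V} {u z : V} {A A' : Finset (V × V)} (h : ZSP D H s X u z A) (hX : X' = X)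
    (hA : A' ⊆ A) : ZSP D H s X' u z A' := by
  subst hX
  refine ⟨h.memu, h.memz, fun a b hab => h.wf a b (hA hab), ?_⟩
  intro N r ts F σ lo hi h1 h2 h3 h4 h5 h6 h7 h8 h9
  obtain ⟨φ, h10, h11⟩ := h.emb N r ts F σ lo hi h1 h2 h3 h4 h5 h6 h7 h8 h9
  exact ⟨φ, h10.mono rfl hA rfl, h11⟩

theorem ZNO.mono {Y Y' : Finset V} {v : V} {A A' : Finset (V × V)} (h : ZNO D H s m Y v A) (hY : Y' = Y)
    (hA : A' ⊆ A) : ZNO D H s m Y' v A' := by
  subst hY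
  refine ⟨h.nmem, fun a b hab => h.wf a b (hA hab), ?_⟩
  intro N r ts F σ β lo hi e h1 h2 h3 h4 h5 h6 h7 h8 h9 h10 h11 h12
  obtain ⟨φ, h13, h14⟩ := h.emb N r ts F σ β lo hi e h1 h2 h3 h4 h5 h6 h7 h8 h9 h10 h11 h12
  exact ⟨φ, h13.mono rfl hA rfl, h14⟩

end UT35
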