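import Pool.Agent.UT35.Two
import Pool.Agent.UT35.EmL
import Pool.Agent.UT35.Win

/-!
# [UT35-ZNEST] nests attached to the vertex on the left

`zno_one`: the region of the nest is the region of the piece. Apply `h.emb` with `a = lo + 300`; the sparsity at scale `X.card` follows from `Inv.light` (`t = X.card`,
the last hypothesis of `ZNO.emb`, `e ≤ 2 D + 12`). The arc `(v, u)` : `tau_arc` from `β` to `lo`. Change `φ` at `v ∉ X` to `tau r F β`.

`zno_more`: let `Y' = insert f1 (insert f2 (Y ∪ X))`, `Y'.card = Y.card + X.card + 2`. By `exists_mid` there is `mid` with `sl F lo mid = Y.card + 2`, `sl F mid hi = X.card`. Apply `win` to the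
window `[lo, mid)` with `p = tau r F β`, `q = tau r F mid` (`tau_le`, `le_tau`; `β + 2 ≥ lo` by `Adm.sep`; `L ≤ Y.card + 2 ≤ s`; sparsity by `Inv.mono_int`), and `two`.
This gives `F2`, `σ2`. Apply `hN.emb` with `F2`, `σ2` to `[lo, mid)` and `e + 2` (`Two.invin`; `slin`; floats have `σ2 ≥ Y.card`: old ones by hypothesis, new
ones `σ2 = Y.card + 2`), and `hX.emb` with `F2`, `σ2` to `[mid, hi)` : sparsity from `Inv.light` for `F` and `Two.invout`.
`tau r F2` agrees with `tau r F` at `β` and `mid`, and the vertices: `VS r F lo hi = VS r F lo mid ∪ VS r F mid hi = {y, y'} ∪ VS r F2 lo mid ∪ VS r F2 mid hi`.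
Put `φ f1 = y`, `φ f2 = y'`, the two embeddings on `insert v Y` and `X` (`glue` repeatedly). Arcs `(v, f1)`, `(f1, f2)`, `(f2, u)` from `win`.
-/

set_option autoImplicit false

open Finset Classical

namespace UT35

variable {V : Type} {D H k L s m : ℕ}

theorem zno_one {X : Finset V} {u v : V} {A : Finset (V × V)} (h : ZLK D H 300 X u A) (hs : 2 * X.card ≤ s)
    (hv : v ∉ X) : ZNO D H s 1 X v (insert (v, u) A) := by
  refine ⟨hv, ?_, ?_⟩
  · intro a b hab
    rcases mem_insert.mp hab with hab | hab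
    · have e1 : a = v := congrArg Prod.fst hab
      have e2 : b = u := congrArg Prod.snd hab
      rw [e1, e2]
      exact ⟨mem_insert_self _ _, mem_insert_of_mem h.mem⟩
    · exact ⟨mem_insert_of_mem (h.wf a b hab).1, mem_insert_of_mem (h.wf a b hab).2⟩
  · intro N r ts F σ β lo hi e adm hhi hβ hβF hb hlh hlo hsl hYs he inv hσ
    have inv' : Inv D H F σ (lo + 300) hi X.card 0 := inv.light (by omega) hs hσ
    obtain ⟨φ, hem, hφu⟩ := h.emb N r ts F σ lo hi (lo + 300) adm hhi hlh hlo hsl le_rfl inv'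
    have hψ : ∀ x ∈ X, Function.update φ v (tau r F β) x = φ x := by
      intro x hx
      have : x ≠ v := fun hxv => hv (hxv ▸ hx)
      exact Function.update_of_ne this _ _
    have hem' := hem.congr h.wf (Subset.refl _) hψ
    have hv' : Function.update φ v (tau r F β) v = tau r F β := Function.update_self _ _ _
    refine ⟨Function.update φ v (tau r F β), hem'.arcs ?_, hv'⟩
    rw [hv', hψ u h.mem, hφu]
    exact tau_arc ts adm hβF hlo hβ (by omega) hb

theorem zno_more (ok : Ok D H k L) {Y X : Finset V} {v u f1 f2 : V} {AY A : Finset (V × V)}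
    (hN : ZNO D H s m Y v AY) (hX : ZLE D H X u A) (hs : 2 * X.card ≤ s) (hL : L ≤ Y.card + 2) (hv : v ∉ X)
    (hn : [v, f1, f2].Nodup) (h1 : f1 ∉ Y ∪ X) (h2 : f2 ∉ Y ∪ X) (hd : Disjoint Y X) :
    ZNO D H s (m + 1) (insert f1 (insert f2 (Y ∪ X))) v
      (insert (v, f1) (insert (f1, f2) (insert (f2, u) (AY ∪ A)))) := by
  have hvY : v ∉ Y := hN.nmem
  have hn' : v ≠ f1 ∧ v ≠ f2 ∧ f1 ≠ f2 := by
    simp only [List.nodup_cons, List.mem_cons, List.not_mem_nil, or_false, not_or] at hn
    exact ⟨hn.1.1, hn.1.2, hn.2.1⟩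
  obtain ⟨hv1, hv2, h12⟩ := hn'
  have h1' : f1 ∉ Y ∧ f1 ∉ X := by
    rw [mem_union, not_or] at h1
    exact h1
  have h2' : f2 ∉ Y ∧ f2 ∉ X := by
    rw [mem_union, not_or] at h2
    exact h2
  have hcard : (insert f1 (insert f2 (Y ∪ X))).card = Y.card + X.card + 2 := by
    rw [card_insert_of_notMem, card_insert_of_notMem h2, card_union_of_disjoint hd]
    rw [mem_insert, not_or]
    exact ⟨h12, h1⟩
  have hXpos : 1 ≤ X.card := card_pos.mpr ⟨u, hX.mem⟩
  refine ⟨?_, ?_, ?_⟩
  · rw [mem_insert, mem_insert, mem_union]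
    rintro (h | h | h | h)
    · exact hv1 h
    · exact hv2 h
    · exact hvY h
    · exact hv h
  · have key : ∀ x, x = v ∨ x = f1 ∨ x = f2 ∨ x ∈ Y ∨ x ∈ X → x ∈ insert v (insert f1 (insert f2 (Y ∪ X))) := by
      intro x hx
      simp only [mem_insert, mem_union]
      exact hx
    intro a b hab
    simp only [mem_insert, mem_union, Prod.mk.injEq] at hab
    rcases hab with ⟨ha, hb⟩ | ⟨ha, hb⟩ | ⟨ha, hb⟩ | hab | hab
    · exact ⟨key a (Or.inl ha), key b (Or.inr (Or.inl hb))⟩
    · exact ⟨key a (Or.inr (Or.inl ha)), key b (Or.inr (Or.inr (Or.inl hb)))⟩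
    · refine ⟨key a (Or.inr (Or.inr (Or.inl ha))), key b ?_⟩
      rw [hb]
      exact Or.inr (Or.inr (Or.inr (Or.inr hX.mem)))
    · have hh := hN.wf a b hab
      simp only [mem_insert] at hh
      exact ⟨key a (by tauto), key b (by tauto)⟩
    · have hh := hX.wf a b hab
      exact ⟨key a (by tauto), key b (by tauto)⟩
  · intro N r ts F σ β lo hi e adm hhi hβ hβF hb hlh hloF hsl hYs he inv hσ
    rw [hcard] at hsl hYs hσ
    obtain ⟨mid, hm1, hm2, hmF, hslm, hslr⟩ :=
      exists_mid (F := F) (lo := lo) (hi := hi) (Y.card + 2) X.card hXpos (by omega)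
    have hlen := sl_le (F := F) lo mid
    have hb1 := ok.big
    have hb2 := ok.H1
    have hlm : lo + 300 ≤ mid := by omega
    have hβ2 : lo ≤ β + 2 := by
      by_contra hc
      have g1 : β + 1 ∈ F := hb (β + 1) (by omega) (by omega)
      have g2 : β + 2 ∈ F := hb (β + 2) (by omega) (by omega)
      have := adm.sep _ g1 _ g2 (by omega)
      omega
    have inv1 : Inv D H F σ (lo + 300) mid s e := inv.mono_int le_rfl hm2.le
    have tb1 := tau_le (r := r) (F := F) β
    have tb2 := le_tau (r := r) (F := F) β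
    have tm1 := tau_le (r := r) (F := F) mid
    have tm2 := le_tau (r := r) (F := F) mid
    have tmN : tau r F mid < N := tau_lt adm (by omega)
    obtain ⟨y, y', fl1, fl2, ap, r1, r2, r3⟩ :=
      win (p := tau r F β) (q := tau r F mid) ok ts (by omega : L ≤ sl F lo mid) (by omega : sl F lo mid ≤ s)
        (by omega : e ≤ 2 * D + 12) inv1 (by omega) (by omega) (by omega) (by omega) tmN
    obtain ⟨F2, σ2, T⟩ := two (D := D) (σ := σ) (r := r) adm (hm2.le.trans hhi) fl1 fl2 ap
    have tβ := T.tau β (Or.inl (by omega))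
    have tlo := T.tau lo (Or.inl (by omega))
    have tmid := T.tau mid (Or.inr (by omega))
    have toutr := T.out mid hi (Or.inr (by omega))
    have hslin := T.slin
    obtain ⟨φ1, em1, e1v⟩ := hN.emb N r ts F2 σ2 β lo mid (e + 2) T.adm (hm2.le.trans hhi) hβ
      (fun hh => hβF (tβ.1.mp hh)) (fun j hj1 hj2 => T.sub (hb j hj1 hj2)) (by omega)
      (fun hh => hloF (tlo.1.mp hh)) (by omega) (by omega) (by omega)
      (T.invin (lo + 300) mid s e (fun f _ h3 h4 => ⟨by omega, h4⟩) inv1) (by
        intro f hf h3 h4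
        rcases T.mem f hf with hf' | hf' | hf'
        · rw [T.old f hf']
          have := hσ f hf' h3 (by omega)
          omega
        · rw [hf', T.new.1]
          omega
        · rw [hf', T.new.2]
          omega)
    obtain ⟨φ2, em2, e2u⟩ := hX.emb N r ts F2 σ2 mid hi T.adm hhi hm2
      (fun hh => hmF (tmid.1.mp hh)) (by rw [toutr.1, hslr])
      (T.invout mid hi X.card 0 (Or.inr (by omega)) ((inv.mono_int hlm le_rfl).light (by omega) hs (by
        intro f hf h3 h4
        have := hσ f hf (by omega) h4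
        omega)))
    -- the combined map
    obtain ⟨ψ, hψ⟩ : ∃ ψ : V → ℕ, ψ = fun x => if x = f1 then y else if x = f2 then y' else if x ∈ X then φ2 x
        else φ1 x := ⟨_, rfl⟩
    have p1 : ψ f1 = y := by rw [hψ]; simp
    have p2 : ψ f2 = y' := by
      rw [hψ]
      simp only [if_neg (Ne.symm h12), if_true]
    have pX : ∀ x ∈ X, ψ x = φ2 x := by
      intro x hx
      have g1 : x ≠ f1 := fun hh => h1'.2 (hh ▸ hx)
      have g2 : x ≠ f2 := fun hh => h2'.2 (hh ▸ hx)
      rw [hψ]
      simp only [if_neg g1, if_neg g2, if_pos hx]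
    have pY : ∀ x ∈ insert v Y, ψ x = φ1 x := by
      intro x hx
      have g1 : x ≠ f1 := by
        rintro rfl
        rcases mem_insert.mp hx with hx | hx
        · exact hv1 hx.symm
        · exact h1'.1 hx
      have g2 : x ≠ f2 := by
        rintro rfl
        rcases mem_insert.mp hx with hx | hx
        · exact hv2 hx.symm
        · exact h2'.1 hx
      have g3 : x ∉ X := by
        intro hxX
        rcases mem_insert.mp hx with hx | hx
        · exact hv (hx ▸ hxX)
        · exact (disjoint_left.mp hd hx) hxX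
      rw [hψ]
      simp only [if_neg g1, if_neg g2, if_neg g3]
    have pv : ψ v = tau r F β := by
      rw [pY v (mem_insert_self _ _), e1v, tβ.2]
    have pu : ψ u = tau r F mid := by
      rw [pX u hX.mem, e2u, tmid.2]
    have em1' : Em r Y AY ψ (VS r F2 lo mid) := em1.congr hN.wf (subset_insert _ _) pY
    have em2' : Em r X A ψ (VS r F2 mid hi) := em2.congr hX.wf (Subset.refl _) pX
    have em3 := ((em1'.union em2').vertex f2).vertex f1
    have em4 := ((em3.arcs (a := f2) (b := u) (by rw [p2, pu]; exact r3)).arcs (a := f1) (b := f2)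
      (by rw [p1, p2]; exact r2)).arcs (a := v) (b := f1) (by rw [pv, p1]; exact r1)
    refine ⟨ψ, ?_, pv⟩
    have hT : VS r F lo hi = insert (ψ f1) (insert (ψ f2) (VS r F2 lo mid ∪ VS r F2 mid hi)) := by
      rw [VS_split (by omega : lo ≤ mid) hm2.le, T.VSin, toutr.2, p1, p2, insert_union, insert_union]
    rw [hT]
    exact em4

end UT35
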