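import Pool.Agent.UT35.RTB
import Pool.Agent.UT35.ZMono
import Pool.Agent.UT35.ZBas
import Pool.Agent.UT35.ZNest
import Pool.Agent.UT35.TDefs

/-!
# [UT35-LNO] nests of subtrees

`zlk_run`: induction on `j`. `j = 0`: `ih` and `zlk_zero`. `j + 1`: `LF_succ` gives the child `c` of `w`; `zlk_step` for the piece `De c`; arcs: `AR ((De w).erase w) ⊆ insert (w, c) (AR ((De c).erase c))` as
`arc c = (par c, c) = (w, c)` (`out c`).
`yno`: induction on `S` (`Finset.Nonempty` induction, `Finset.Nonempty.cons_induction` or `Finset.induction_on`). All `o ∈ S` satisfy `LF M o` (`Good.long`, `par o = v`, `o ≠ root`), `out o`.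
`S = {o}`: `zlk_run` for `j = 300`, `zno_one`; `v ∉ De o`; `AR (De o) ⊆ insert (v, o) (AR ((De o).erase o))`.
`insert o S`: in the notation of `zno_more` take `f1 = o`, `f2 = c1`, `u = c2`, `X = De c2`, where `c1` is the child of `o` and `c2` the child of `c1`
(`De o = insert o (insert c1 (De c2))` by `LF_succ` twice; `ih` for `c2` : `LF 3 c2`, `out c2`, `(De c2).card ≤ (De o).card < n`). `zno_more` with `Y = S.biUnion De`, `L ≤ M ≤ Y.card` by `LF_card` for an
element of `S`; `2 * (De c2).card ≤ 2 * (De o).card ≤ s`; disjointness by `bi_disj`, `not_mem_bi`, `not_mem_De`. Then `ZNO.mono`.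
`nesti`: `S = ∅`: left alternative. Otherwise `yno` for `t.op` (`op` lemmas of RTB: `oc_op`, `De_op` is `rfl`, `AR_op`), `m = S.card ≤ (ch v).card ≤ D`.
-/

set_option autoImplicit false

open Finset Classical

namespace UT35

/-- all subtrees with less than `n` vertices whose top vertex is entered from the parent and is followed by passed
vertices can be laid out -/
def IHZ {V : Type} [Fintype V] (t : RT V) (D H n : ℕ) : Prop :=
  ∀ w, w ≠ t.root → (t.De w).card < n → t.out w → t.LF 3 w → ZLE D H (t.De w) w (t.AR ((t.De w).erase w))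

variable {V : Type} [Fintype V] {t : RT V} {D H k L M n s : ℕ}

omit [Fintype V] in
private theorem lno_AR_insert (t : RT V) (x : V) (S : Finset V) :
    t.AR (insert x S) = insert (t.arc x) (t.AR S) := by
  unfold RT.AR
  rw [image_insert]

omit [Fintype V] in
private theorem lno_AR_union (t : RT V) (S S' : Finset V) : t.AR (S ∪ S') = t.AR S ∪ t.AR S' := by
  unfold RT.AR
  rw [image_union]

private theorem lno_AR_De (t : RT V) (c : V) :
    t.AR (t.De c) = insert (t.arc c) (t.AR ((t.De c).erase c)) := by
  rw [← lno_AR_insert, insert_erase (t.De_self c)]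

theorem zlk_run (ih : IHZ t D H n) (j : ℕ) {w : V} (hw : w ≠ t.root) (hc : (t.De w).card < n) (ho : t.out w)
    (h : t.LF (j + 3) w) : ZLK D H j (t.De w) w (t.AR ((t.De w).erase w)) := by
  induction j generalizing w with
  | zero => exact zlk_zero (ih w hw hc ho h)
  | succ j ihj =>
    obtain ⟨c, b1, b2, b3, b4, b5, b6, b7, b8, b9⟩ := t.LF_succ (n := j + 3) (by
      have e : j + 1 + 3 = j + 3 + 1 := by omega
      rwa [e] at h)
    have hco : t.out c := b2.2 ho
    have hcc : (t.De c).card < n := by
      have h1 := card_le_card (show t.De c ⊆ t.De w by rw [b4]; exact subset_insert _ _)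
      omega
    have hz := zlk_step (ihj b6 hcc hco b3) b5
    have e1 : t.AR ((t.De w).erase w) = insert (w, c) (t.AR ((t.De c).erase c)) := by
      rw [b4, erase_insert b5, lno_AR_De]
      congr 1
      unfold RT.arc
      rw [if_pos hco, b7]
    rw [e1, b4]
    exact hz

theorem yno (ok : Ok D H k L) (g : t.Good D M) (hM : L + 400 ≤ M) (ih : IHZ t D H n) {v : V} (hv : ¬ t.Pass v)
    {S : Finset V} (hS : S ⊆ t.oc v) (hne : S.Nonempty) (hn : ∀ o ∈ S, (t.De o).card < n)
    (hs : ∀ o ∈ S, 2 * (t.De o).card ≤ s) :
    ZNO D H s S.card (S.biUnion t.De) v (t.AR (S.biUnion t.De)) := by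
  induction S using Finset.induction_on with
  | empty => exact absurd hne not_nonempty_empty
  | insert o S hoS ihS =>
    have hoo : o ∈ t.oc v := hS (mem_insert_self _ _)
    have hSS : S ⊆ t.oc v := fun x hx => hS (mem_insert_of_mem hx)
    have hoch : o ∈ t.ch v := t.oc_sub v hoo
    have hSch : S ⊆ t.ch v := hSS.trans (t.oc_sub v)
    obtain ⟨hor, hop⟩ := t.mem_ch.1 hoch
    have hout : t.out o := by
      unfold RT.oc at hoo
      exact (mem_filter.1 hoo).2
    have hlf : t.LF M o := g.long o hor (by rw [hop]; exact hv)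
    have hvo : v ∉ t.De o := t.not_mem_De hoch
    have harco : t.arc o = (v, o) := by
      unfold RT.arc
      rw [if_pos hout, hop]
    have hno := hn o (mem_insert_self _ _)
    have hso := hs o (mem_insert_self _ _)
    rcases S.eq_empty_or_nonempty with rfl | hSne
    · rw [insert_empty_eq, singleton_biUnion, card_singleton, lno_AR_De, harco]
      exact zno_one (zlk_run ih 300 hor hno hout (t.LF_mono hlf (by omega))) hso hvo
    · obtain ⟨M1, rfl⟩ : ∃ M1, M = M1 + 5 := ⟨M - 5, by omega⟩
      obtain ⟨c1, b1, b2, b3, b4, b5, b6, b7, b8, b9⟩ := t.LF_succ (n := M1 + 4) hlf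
      obtain ⟨c2, d1, d2, d3, d4, d5, d6, d7, d8, d9⟩ := t.LF_succ (n := M1 + 3) b3
      have o1 : t.out c1 := b2.2 hout
      have o2 : t.out c2 := d2.2 o1
      have hsub2 : t.De c2 ⊆ t.De o := by
        rw [b4, d4]
        exact (subset_insert _ _).trans (subset_insert _ _)
      have hle2 := card_le_card hsub2
      have hN := ihS hSS hSne (fun o ho => hn o (mem_insert_of_mem ho))
        (fun o ho => hs o (mem_insert_of_mem ho))
      have hX := ih c2 d6 (by omega) o2 (t.LF_mono d3 (by omega))
      set Y := S.biUnion t.De with hY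
      have hL : L ≤ Y.card + 2 := by
        obtain ⟨o', ho'⟩ := hSne
        obtain ⟨hor', hop'⟩ := t.mem_ch.1 (hSch ho')
        have h1 := t.LF_card (g.long o' hor' (by rw [hop']; exact hv))
        have h2 : (t.De o').card ≤ Y.card := card_le_card (subset_biUnion_of_mem t.De ho')
        omega
      have hvY : v ∉ Y := t.not_mem_bi hSch
      have hd : Disjoint Y (t.De o) := by
        have h1 := t.bi_disj (v := v) (S := S) (S' := {o}) hSch
          (singleton_subset_iff.2 hoch) (by rwa [disjoint_singleton_right])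
        rwa [singleton_biUnion] at h1
      have hc1c : c1 ∈ t.De o := by
        rw [b4]
        exact mem_insert_of_mem (t.De_self c1)
      have hcc : o ∈ t.De o := t.De_self o
      have hcY : o ∉ Y := fun h => (disjoint_left.1 hd h) hcc
      have hc1Y : c1 ∉ Y := fun h => (disjoint_left.1 hd h) hc1c
      have hcc1 : o ∉ insert c1 (t.De c2) := by
        rw [← d4]
        exact b5
      rw [mem_insert, not_or] at hcc1
      have hnd : [v, o, c1].Nodup := by
        have e1 : v ≠ o := fun h => hvo (h ▸ hcc)
        have e2 : v ≠ c1 := fun h => hvo (h ▸ hc1c)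
        simp [e1, e2, hcc1.1]
      have hmain := zno_more ok hN hX (by omega) hL (fun h => hvo (hsub2 h)) hnd
        (by rw [mem_union, not_or]; exact ⟨hcY, hcc1.2⟩)
        (by rw [mem_union, not_or]; exact ⟨hc1Y, d5⟩)
        (disjoint_of_subset_right hsub2 hd)
      have hbi : (insert o S).biUnion t.De = insert o (insert c1 (Y ∪ t.De c2)) := by
        rw [biUnion_insert, b4, d4]
        ext x
        simp only [mem_insert, mem_union]
        constructor
        · rintro ((h | h | h) | h)
          · exact Or.inl h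
          · exact Or.inr (Or.inl h)
          · exact Or.inr (Or.inr (Or.inr h))
          · exact Or.inr (Or.inr (Or.inl h))
        · rintro (h | h | h | h)
          · exact Or.inl (Or.inl h)
          · exact Or.inl (Or.inr (Or.inl h))
          · exact Or.inr h
          · exact Or.inl (Or.inr (Or.inr h))
      rw [hbi, card_insert_of_notMem hoS]
      refine hmain.mono rfl ?_
      rw [lno_AR_insert, lno_AR_insert, lno_AR_union, lno_AR_De t c2, harco]
      have e1 : t.arc c1 = (o, c1) := by
        unfold RT.arc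
        rw [if_pos o1, b7]
      have e2 : t.arc c2 = (c1, c2) := by
        unfold RT.arc
        rw [if_pos o2, d7]
      rw [e1, e2]
      intro x
      simp only [mem_insert, mem_union]
      rintro (h | h | h | h | h)
      · exact Or.inl h
      · exact Or.inr (Or.inl h)
      · exact Or.inr (Or.inr (Or.inr (Or.inl h)))
      · exact Or.inr (Or.inr (Or.inl h))
      · exact Or.inr (Or.inr (Or.inr (Or.inr h)))

theorem nesti (ok : Ok D H k L) (g : t.Good D M) (hM : L + 400 ≤ M) (ih : IHZ t.op D H n) {v : V}
    (hv : ¬ t.Pass v) {S : Finset V} (hS : S ⊆ t.ic v) (hn : ∀ o ∈ S, (t.De o).card < n)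
    (hs : ∀ o ∈ S, 2 * (t.De o).card ≤ s) :
    NestI D H s (S.biUnion t.De) v (t.AR (S.biUnion t.De)) := by
  rcases S.eq_empty_or_nonempty with rfl | hne
  · left
    rw [biUnion_empty]
    refine ⟨rfl, ?_⟩
    unfold RT.AR
    rw [image_empty]
  · right
    refine ⟨S.card, ⟨?_, ?_⟩, ?_⟩
    · exact (card_le_card (hS.trans (t.ic_sub v))).trans (g.deg v)
    · obtain ⟨o, ho⟩ := hne
      exact ⟨o, mem_biUnion.2 ⟨o, ho, t.De_self o⟩⟩
    · have h := yno (t := t.op) ok (t.Good_op g) hM ih (v := v) (S := S)
        (fun hq => hv (t.Pass_op.1 hq)) (by rw [t.oc_op]; exact hS) hne hn hs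
      rw [t.AR_op] at h
      exact h

end UT35
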