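import Pool.Agent.UT35.LCt
import Pool.Agent.UT35.ZOut

/-!
# [UT35-LP] the spine arrives at the next vertex `v` which is not passed

`chain3` for `x` : `x, c1, c2, v = c3`; `¬ Pass v` as `¬ LF 4 x` (`LF (1 + 3) x ↔ LF 1 v`, and `LF 1 v ↔ Pass v`). All of `c1, c2, v` satisfy `¬ out`. `De x = insert x (insert c1 (insert c2 (De v)))`.
Let `Y = S.biUnion De`. `Pv t e v (ch v \ S) = Px t e x ∪ {c1, c2, v} ∪ Y` (`De_split` for `ch v = (ch v \ S) ∪ S`, `bi_disj`, `De x ⊆ WW t e` by `WW_De`; for `x ∈ WW t e`, `x ≠ e`, `De x ⊆ WW t e`).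
If `S = ∅`: `zsp_step` three times: arcs `(c1, x) = arc c1`, `(c2, c1) = arc c2`, `(v, c2) = arc v` (`par c1 = x`, `¬ out c1`, ...).
If `S ≠ ∅`: `zsp_wout` with `Y`, `X3 = Px t e x`, `u = v`, `f1 = c2`, `f2 = c1`, `u3 = x`, `z = e`, `hN` from `yno` (`card_lt`, `v ∈ WW t e`), `m = S.card ≤ D`, `L ≤ Y.card` by `LF_card`. Then `ZSP.mono`.
The last statement (number of vertices): `Pv` contains `Px` and the three vertices `c1, c2, v`.
-/

set_option autoImplicit false

open Finset Classical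

namespace UT35

variable {V : Type} [Fintype V] {t : RT V} {D H k L M s : ℕ} {u e : V}

private lemma De_sub_WW (t : RT V) {e x : V} (hx : x ∈ WW t e) (hxe : x ≠ e) : t.De x ⊆ WW t e := by
  unfold WW at hx ⊢
  rw [mem_insert, mem_biUnion] at hx
  rcases hx with h | ⟨c', hc', hx⟩
  · exact absurd h hxe
  · intro y hy
    rw [mem_insert, mem_biUnion]
    exact Or.inr ⟨c', hc', t.De_trans hx hy⟩

theorem run_p (c : Ctx t D H k L M s u e) {x : V} (hx : x ∈ WW t e) (hxe : x ≠ e) (ho : ¬ t.out x) (h3 : t.LF 3 x)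
    (h4 : ¬ t.LF 4 x) (hS : Sx t D H s e x) :
    ∃ v ∈ t.De x, v ≠ x ∧ v ∈ WW t e ∧ v ≠ e ∧ ¬ t.Pass v ∧ ¬ t.out v ∧
      ∀ S ⊆ t.oc v, (∀ o ∈ S, 2 * (t.De o).card ≤ s) →
        Sv t D H s e v (t.ch v \ S) ∧ (Px t e x).card + 3 ≤ (Pv t e v (t.ch v \ S)).card := by
  obtain ⟨c1, c2, v, hr1, hr2, hr3, hp1, hp2, hp3, ho1, ho2, ho3, hDe, hnd, hnot, hLF⟩ := t.chain3 h3
  have hDW := De_sub_WW t hx hxe
  have heDe := e_not t hx hxe
  have hvv := t.De_self v
  have hx_v : x ∉ t.De v := hnot x (by simp)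
  have hc1_v : c1 ∉ t.De v := hnot c1 (by simp)
  have hc2_v : c2 ∉ t.De v := hnot c2 (by simp)
  simp only [List.nodup_cons, List.mem_cons, List.not_mem_nil, or_false, not_or,
    List.nodup_nil, and_true, not_false_eq_true] at hnd
  obtain ⟨⟨hxc1, hxc2⟩, hc12⟩ := hnd
  have hvDx : t.De v ⊆ t.De x := by
    intro y hy
    rw [hDe]
    simp [hy]
  have hvx : v ∈ t.De x := hvDx hvv
  have hc1x : c1 ∈ t.De x := by rw [hDe]; simp
  have hc2x : c2 ∈ t.De x := by rw [hDe]; simp
  have hv_ne_x : v ≠ x := fun h => hx_v (h ▸ hvv)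
  have hv_ne_c1 : v ≠ c1 := fun h => hc1_v (h ▸ hvv)
  have hv_ne_c2 : v ≠ c2 := fun h => hc2_v (h ▸ hvv)
  have hov : ¬ t.out v := fun h => ho (ho3.1 h)
  have hoc1 : ¬ t.out c1 := fun h => ho (ho1.1 h)
  have hoc2 : ¬ t.out c2 := fun h => ho (ho2.1 h)
  have hpass : ¬ t.Pass v := by
    intro h
    apply h4
    exact (hLF 1).2 ⟨h, fun _ _ => trivial⟩
  have hvW : v ∈ WW t e := hDW hvx
  refine ⟨v, hvx, hv_ne_x, hvW, fun h => heDe (h ▸ hvx), hpass, hov, ?_⟩
  intro S hSo hs2
  have hSch : S ⊆ t.ch v := hSo.trans (t.oc_sub v)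
  set R : Finset V := (t.ch v \ S).biUnion t.De with hR
  set Y : Finset V := S.biUnion t.De with hY
  have hsplit : t.De v = insert v (R ∪ Y) := t.De_split v (by rw [sdiff_union_of_subset hSch])
  have hRv : R ⊆ t.De v := by rw [hsplit]; intro y hy; simp [hy]
  have hYv : Y ⊆ t.De v := by rw [hsplit]; intro y hy; simp [hy]
  have hRY : Disjoint R Y := t.bi_disj sdiff_subset hSch sdiff_disjoint
  have hvR : v ∉ R := t.not_mem_bi sdiff_subset
  have hvY : v ∉ Y := t.not_mem_bi hSch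
  have hmemPx : ∀ y, y ∈ Px t e x ↔ y ∈ WW t e ∧ ¬ (y ≠ x ∧ y ∈ t.De x) := by
    intro y
    unfold Px
    rw [mem_sdiff, mem_erase]
  have hset : insert v (insert c2 (insert c1 (Y ∪ Px t e x))) = Pv t e v (t.ch v \ S) := by
    ext y
    simp only [mem_insert, mem_union, hmemPx, Pv, mem_sdiff, ← hR]
    constructor
    · rintro (rfl | rfl | rfl | h | ⟨h, h'⟩)
      · exact ⟨hvW, hvR⟩
      · exact ⟨hDW hc2x, fun h => hc2_v (hRv h)⟩
      · exact ⟨hDW hc1x, fun h => hc1_v (hRv h)⟩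
      · exact ⟨hDW (hvDx (hYv h)), fun h2 => disjoint_left.1 hRY h2 h⟩
      · refine ⟨h, fun h2 => h' ⟨fun h3 => hx_v (h3 ▸ hRv h2), hvDx (hRv h2)⟩⟩
    · rintro ⟨h, h'⟩
      by_cases h2 : y ≠ x ∧ y ∈ t.De x
      · obtain ⟨h3, h4⟩ := h2
        rw [hDe] at h4
        simp only [mem_insert] at h4
        rcases h4 with h4 | h4 | h4 | h4
        · exact absurd h4 h3
        · exact Or.inr (Or.inr (Or.inl h4))
        · exact Or.inr (Or.inl h4)
        · rw [hsplit, mem_insert, mem_union] at h4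
          rcases h4 with h4 | h4 | h4
          · exact Or.inl h4
          · exact absurd h4 h'
          · exact Or.inr (Or.inr (Or.inr (Or.inl h4)))
      · exact Or.inr (Or.inr (Or.inr (Or.inr ⟨h, h2⟩)))
  have hc1P : c1 ∉ Px t e x := fun h => ((hmemPx c1).1 h).2 ⟨fun h => hxc1 h.symm, hc1x⟩
  have hc2P : c2 ∉ Px t e x := fun h => ((hmemPx c2).1 h).2 ⟨fun h => hxc2 h.symm, hc2x⟩
  have hvP : v ∉ Px t e x := fun h => ((hmemPx v).1 h).2 ⟨hv_ne_x, hvx⟩
  have hYP : Disjoint Y (Px t e x) := by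
    rw [disjoint_left]
    intro y hy h
    exact ((hmemPx y).1 h).2 ⟨fun h3 => hx_v (h3 ▸ hYv hy), hvDx (hYv hy)⟩
  have harcv : t.arc v = (v, c2) := by simp [RT.arc, hov, hp3]
  have harc2 : t.arc c2 = (c2, c1) := by simp [RT.arc, hoc2, hp2]
  have harc1 : t.arc c1 = (c1, x) := by simp [RT.arc, hoc1, hp1]
  have harcs : t.AR ((Pv t e v (t.ch v \ S)).erase e) ⊆
      insert (v, c2) (insert (c2, c1) (insert (c1, x) (t.AR Y ∪ t.AR ((Px t e x).erase e)))) := by
    intro a ha
    unfold RT.AR at ha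
    obtain ⟨y, hy, rfl⟩ := mem_image.1 ha
    rw [mem_erase, ← hset] at hy
    obtain ⟨hye, hy⟩ := hy
    simp only [mem_insert, mem_union] at hy
    rcases hy with rfl | rfl | rfl | hy | hy
    · rw [harcv]; simp
    · rw [harc2]; simp
    · rw [harc1]; simp
    · have : t.arc y ∈ t.AR Y := mem_image_of_mem _ hy
      simp [this]
    · have : t.arc y ∈ t.AR ((Px t e x).erase e) := mem_image_of_mem _ (mem_erase.2 ⟨hye, hy⟩)
      simp [this]
  refine ⟨?_, ?_⟩
  · unfold Sv
    unfold Sx at hS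
    rcases S.eq_empty_or_nonempty with rfl | hne
    · have hYe : Y = ∅ := by rw [hY]; simp
      have z1 := zsp_step hS hc1P
      have z2 := zsp_step z1 (u := c2) (by
        rw [mem_insert, not_or]
        exact ⟨fun h => hc12 h.symm, hc2P⟩)
      have z3 := zsp_step z2 (u := v) (by
        rw [mem_insert, mem_insert, not_or, not_or]
        exact ⟨hv_ne_c2, hv_ne_c1, hvP⟩)
      refine z3.mono ?_ ?_
      · rw [← hset, hYe, empty_union]
      · refine harcs.trans ?_
        rw [hYe]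
        have : t.AR ∅ = ∅ := by simp [RT.AR]
        rw [this, empty_union]
    · obtain ⟨o, ho'⟩ := hne
      have hN := yno c.ok c.good c.hM c.ih hpass hSo ⟨o, ho'⟩
        (fun o ho => card_lt c hvW (hSch ho)) hs2
      have hm : S.card ≤ D := (card_le_card hSch).trans (c.good.deg v)
      have hLo : L ≤ Y.card + 2 := by
        obtain ⟨hor, hop⟩ := t.mem_ch.1 (hSch ho')
        have h5 : t.LF M o := c.good.long o hor (by rw [hop]; exact hpass)
        have h6 := t.LF_card h5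
        have h7 : (t.De o).card ≤ Y.card := card_le_card (subset_biUnion_of_mem t.De ho')
        have h8 := c.hM
        omega
      have hz := zsp_wout (f1 := c2) (f2 := c1) c.ok hN hS hm hLo
        (by
          simp only [List.nodup_cons, List.mem_cons, List.not_mem_nil, or_false, not_or,
            List.nodup_nil, and_true, not_false_eq_true]
          exact ⟨⟨hv_ne_c2, hv_ne_c1⟩, fun h => hc12 h.symm⟩)
        (by
          intro y hy
          simp only [List.mem_cons, List.not_mem_nil, or_false] at hy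
          rw [mem_union, not_or]
          rcases hy with rfl | rfl | rfl
          · exact ⟨hvY, hvP⟩
          · exact ⟨fun h => hc2_v (hYv h), hc2P⟩
          · exact ⟨fun h => hc1_v (hYv h), hc1P⟩)
        hYP
      exact hz.mono hset.symm harcs
  · have hsub : insert v (insert c2 (insert c1 (Px t e x))) ⊆ Pv t e v (t.ch v \ S) := by
      rw [← hset]
      intro y hy
      simp only [mem_insert, mem_union] at hy ⊢
      tauto
    have hcard := card_le_card hsub
    rw [card_insert_of_notMem, card_insert_of_notMem, card_insert_of_notMem hc1P] at hcard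
    · omega
    · rw [mem_insert, not_or]
      exact ⟨fun h => hc12 h.symm, hc2P⟩
    · rw [mem_insert, mem_insert, not_or, not_or]
      exact ⟨hv_ne_c2, hv_ne_c1, hvP⟩

end UT35
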