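import Pool.Agent.UT35.MirB
import Pool.Agent.UT35.EmL

/-!
# [UT35-ZNI] nests attached to the vertex on the right

Apply `h.emb` to `rev N r`, `mir N F`, `fun k => σ (N - 1 - k)`, `β' = N - 1 - β`, `lo' = N - hi`, `hi' = N - lo`: the hypotheses are translated by `TS.rev`, `Adm.mir`, `mem_mir`, `sl_mir`,
`Inv.mir` (for `300 ≤ hi` with the interval `[lo, hi - 300)`, `N - (hi - 300) = N - hi + 300`; for `hi < 300` the interval `[lo' + 300, hi')` is empty and the sparsity is
trivial). The embedding `φ'` obtained is turned into `φ x = N - 1 - φ' x` (all values on `Y` and at `v` are `< N`, `tau_lt`). For `(a, b) ∈ A` we have `(b, a) ∈ A.image Prod.swap`, so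
`rev N r (φ' b) (φ' a)`, that is `r (N - 1 - φ' a) (N - 1 - φ' b)`. Image: `VS_mir`, and `N - 1 - (N - 1 - k) = k` for `k < N`. `φ v`: `tau_mir`.
-/

set_option autoImplicit false

open Finset Classical

namespace UT35

theorem zni {V : Type} {D H s m : ℕ} {Y : Finset V} {v : V} {A : Finset (V × V)}
    (h : ZNO D H s m Y v (A.image Prod.swap)) {N : ℕ} {r : ℕ → ℕ → Prop} (ts : TS N r) {F : Finset ℕ} {σ : ℕ → ℕ}
    {β lo hi e : ℕ} (adm : Adm N F) (hβN : β < N) (hβ : hi ≤ β) (hβF : β ∉ F) (hb : ∀ j, hi ≤ j → j < β → j ∈ F)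
    (hlh : lo < hi) (hhi : hi - 1 ∉ F) (hsl : sl F lo hi = Y.card) (hYs : Y.card ≤ s)
    (he : e + 2 * m ≤ 2 * D + 12) (inv : Inv D H F σ lo (hi - 300) s e)
    (hσ : ∀ f ∈ F, lo ≤ f → f < hi - 300 → Y.card ≤ σ f) :
    ∃ φ : V → ℕ, Em r Y A φ (VS r F lo hi) ∧ φ v = tau r F β := by
  have hinv : Inv D H (mir N F) (fun k => σ (N - 1 - k)) (N - hi + 300) (N - lo) s e :=
    (inv.mir adm (by omega)).mono_int (by omega) (le_refl _)
  obtain ⟨φ', hφ, hφv⟩ := h.emb N (rev N r) ts.rev (mir N F) (fun k => σ (N - 1 - k)) (N - 1 - β) (N - hi) (N - lo) e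
    adm.mir (by omega) (by omega) (fun hm => hβF ((mem_mir adm hβN).1 hm)) (by
      intro j hj1 hj2
      have h1 := hb (N - 1 - j) (by omega) (by omega)
      have h2 := (mem_mir adm (k := N - 1 - j) (by omega)).2 h1
      have h3 : N - 1 - (N - 1 - j) = j := by omega
      rwa [h3] at h2) (by omega) (by
      intro hm
      have h3 : N - hi = N - 1 - (hi - 1) := by omega
      rw [h3] at hm
      exact hhi ((mem_mir adm (by omega)).1 hm)) (by rw [sl_mir adm (by omega)]; exact hsl) hYs he hinv (by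
      intro f hf h1 h2
      unfold mir at hf
      rw [mem_image] at hf
      obtain ⟨g, hg, rfl⟩ := hf
      have hg1 := adm.hi g hg
      have h3 : N - 1 - (N - 1 - g) = g := by omega
      show Y.card ≤ σ (N - 1 - (N - 1 - g))
      rw [h3]
      exact hσ g hg (by omega) (by omega))
  refine ⟨fun x => N - 1 - φ' x, ⟨?_, ?_⟩, ?_⟩
  · have h1 := hφ.img
    rw [VS_mir adm (by omega)] at h1
    have h2 : Y.image (fun x => N - 1 - φ' x) = (Y.image φ').image (fun k => N - 1 - k) := by
      rw [image_image]; rfl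
    rw [h2, h1, image_image]
    ext a
    rw [mem_image]
    constructor
    · rintro ⟨b, hb1, rfl⟩
      have hb2 := hb1
      unfold VS at hb1
      rw [mem_image] at hb1
      obtain ⟨k, hk, rfl⟩ := hb1
      rw [mem_slots] at hk
      have h4 : tau r F k < N := tau_lt adm (by omega)
      have h5 : (( fun k => N - 1 - k) ∘ fun k => N - 1 - k) (tau r F k) = tau r F k := by
        show N - 1 - (N - 1 - tau r F k) = tau r F k
        omega
      rw [h5]
      exact hb2
    · intro ha
      have ha2 := ha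
      unfold VS at ha
      rw [mem_image] at ha
      obtain ⟨k, hk, rfl⟩ := ha
      rw [mem_slots] at hk
      have h4 : tau r F k < N := tau_lt adm (by omega)
      refine ⟨tau r F k, ha2, ?_⟩
      show N - 1 - (N - 1 - tau r F k) = tau r F k
      omega
  · intro a b hab
    have h1 : (b, a) ∈ A.image Prod.swap := by
      rw [mem_image]
      exact ⟨(a, b), hab, rfl⟩
    exact hφ.arc b a h1
  · show N - 1 - φ' v = tau r F β
    rw [hφv, tau_mir adm hβN]
    have := tau_lt (r := r) adm hβN
    omega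

end UT35
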