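import Pool.Agent.UT35.Two
import Pool.Agent.UT35.Win
import Pool.Agent.UT35.ZNI

/-!
# [UT35-ZIN] a vertex `v` with a nest on its left side, reached by a jump from `u`

Both theorems have the same proof. Let `X = insert u (insert f1 (insert f2 (Y ∪ X3)))`, `X.card = Y.card + X3.card + 3`. `lo1` = next slot after `lo` (`next_slot`), `ζ` with
`sl F lo1 ζ = Y.card + 2`, `sl F ζ hi = X3.card` (`exists_mid`). `win` for the window `[lo1, ζ)`, `p = tau r F lo`, `q = tau r F ζ`, then `two` : `F2`, `σ2`.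
`prev_slot` for `F2` gives `hi'` with `hi' ≤ ζ`, `hi' - 1 ∉ F2`, the positions of `[hi', ζ)` in `F2`, `sl F2 lo1 hi' = Y.card`. `zni` for `F2`, `β = ζ`, `[lo1, hi')`, `e = 2` (`zle`) resp. `e = 10`
(`zsp`), `2 * m ≤ 2 * D`, sparsity by `Two.invin` and `Inv.mono_int`; the floats of the window have `σ2 ≥ Y.card`. `hX.emb` for `F2`, `[ζ, hi)` (`Two.invout`) :
`φ v = tau r F2 ζ` in both embeddings, so they can be glued (`glue`, on `insert v Y` and `X3`, where `v ∈ X3` by `hX.mem`).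
Vertices: `VS_first`, `VS_split`, `Two.VSin`, `VS_last`, `Two.out`. `φ f1 = y`, `φ f2 = y'`, `φ u = tau r F lo`. `hv`: `v ∉ Y` is `hN.nmem`.
-/

set_option autoImplicit false

open Finset Classical

namespace UT35

variable {V : Type} {D H k L s m : ℕ}

private theorem zin_pre (ok : Ok D H k L) {Y : Finset V} {v : V} {AY : Finset (V × V)}
    (hN : ZNO D H s m Y v (AY.image Prod.swap)) (hm : m ≤ D) (hL : L ≤ Y.card + 2) {c e0 : ℕ} (hc : 1 ≤ c)
    (he0 : e0 ≤ 10) {N : ℕ} {r : ℕ → ℕ → Prop} (ts : TS N r) {F : Finset ℕ} {σ : ℕ → ℕ} {lo hi : ℕ}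
    (adm : Adm N F) (hiN : hi ≤ N) (hlo : lo ∉ F) (hsl : sl F lo hi = Y.card + c + 3)
    (hs : Y.card + c + 3 ≤ s) (inv : Inv D H F σ lo hi s e0)
    (hσ : ∀ f ∈ F, lo ≤ f → f < hi → Y.card ≤ σ f) :
    ∃ lo1 mid y y' F2 σ2, ∃ φ1 : V → ℕ, lo < lo1 ∧ lo1 ≤ mid ∧ mid < hi ∧ mid ∉ F ∧
      (∀ j, lo < j → j < lo1 → j ∈ F) ∧ sl F mid hi = c ∧
      Two N r F σ D H (Y.card + 2) lo1 mid y y' F2 σ2 ∧ Em r Y AY φ1 (VS r F2 lo1 mid) ∧
      φ1 v = tau r F mid ∧ r (tau r F lo) y ∧ r y y' ∧ r y' (tau r F mid) := by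
  have hH1 := ok.H1
  have hbig := ok.big
  obtain ⟨lo1, h1, h2, h3, h4, h5, h6⟩ := next_slot adm hlo (hi := hi) (by omega)
  obtain ⟨mid, g1, g2, g3, g4, g5⟩ := exists_mid (F := F) (lo := lo1) (hi := hi) (Y.card + 2) c hc
    (by omega)
  have t1 := tau_le (r := r) (F := F) lo
  have t2 := le_tau (r := r) (F := F) lo
  have t3 := tau_le (r := r) (F := F) mid
  have t4 := le_tau (r := r) (F := F) mid
  have t5 := tau_lt (r := r) adm (k := mid) (by omega)
  have hle := sl_le (F := F) lo1 mid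
  obtain ⟨y, y', w1, w2, w3, w4, w5, w6⟩ := win (N := N) (lo := lo1) (hi := mid) (s := s) (e := e0)
    (p := tau r F lo) (q := tau r F mid) ok ts (by rw [g4]; exact hL) (by rw [g4]; omega) (by omega)
    (inv.mono_int (by omega) g2.le) (by omega) (by omega) (by omega) (by omega) t5
  rw [g4] at w1 w2 w3
  obtain ⟨F2, σ2, tw⟩ := two (r := r) (σ := σ) (D := D) adm (by omega : mid ≤ N) w1 w2 w3
  have hsl2 := tw.slin
  have hmid2 := tw.tau mid (Or.inr (by omega))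
  obtain ⟨hi', b1, b2, b3, b4, b5, b6⟩ := prev_slot tw.adm (lo := lo1) (β := mid) (by omega)
  obtain ⟨φ1, p1, p2⟩ := zni hN ts (F := F2) (σ := σ2) (β := mid) (lo := lo1) (hi := hi') (e := e0 + 2)
    tw.adm (by omega) b2 (fun h => g3 (hmid2.1.1 h)) b5 b1 b4 (by omega) (by omega) (by omega)
    (tw.invin _ _ _ _ (fun f _ ha hb => ⟨ha, by omega⟩) (inv.mono_int (by omega) (by omega)))
    (by
      intro f hf ha hb
      rcases tw.mem f hf with h | h | h
      · rw [tw.old f h]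
        exact hσ f h (by omega) (by omega)
      · rw [h, tw.new.1]
        omega
      · rw [h, tw.new.2]
        omega)
  rw [← VS_last b2 b5] at p1
  exact ⟨lo1, mid, y, y', F2, σ2, φ1, h1, g1, g2, g3, h5, g5, tw, p1, by rw [p2, hmid2.2], w4, w5, w6⟩

private theorem zin_post {Y X3 : Finset V} {u f1 f2 v : V} {AY A3 : Finset (V × V)}
    (hwfY : ∀ a b, (a, b) ∈ AY → a ∈ insert v Y ∧ b ∈ insert v Y)
    (hwfX : ∀ a b, (a, b) ∈ A3 → a ∈ X3 ∧ b ∈ X3) (hv3 : v ∈ X3)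
    (hn : [u, f1, f2].Nodup) (hx : ∀ x ∈ [u, f1, f2], x ∉ Y ∪ X3) (hd : Disjoint Y X3)
    {N l : ℕ} {r : ℕ → ℕ → Prop} {F : Finset ℕ} {σ : ℕ → ℕ} {lo lo1 mid hi y y' : ℕ} {F2 : Finset ℕ}
    {σ2 : ℕ → ℕ} (hlo : lo ∉ F) (h1 : lo < lo1) (g1 : lo1 ≤ mid) (g2 : mid < hi)
    (h5 : ∀ j, lo < j → j < lo1 → j ∈ F) (tw : Two N r F σ D H l lo1 mid y y' F2 σ2)
    {φ1 φ2 : V → ℕ} (e1 : Em r Y AY φ1 (VS r F2 lo1 mid)) (p1 : φ1 v = tau r F mid)
    (e2 : Em r X3 A3 φ2 (VS r F2 mid hi)) (p2 : φ2 v = tau r F mid)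
    (w4 : r (tau r F lo) y) (w5 : r y y') (w6 : r y' (tau r F mid)) :
    ∃ φ : V → ℕ, Em r (insert u (insert f1 (insert f2 (Y ∪ X3))))
      (insert (u, f1) (insert (f1, f2) (insert (f2, v) (AY ∪ A3)))) φ (VS r F lo hi) ∧
      φ u = tau r F lo ∧ ∀ x ∈ X3, φ x = φ2 x := by
  have hxu := hx u (by simp)
  have hxf1 := hx f1 (by simp)
  have hxf2 := hx f2 (by simp)
  rw [mem_union, not_or] at hxu hxf1 hxf2
  have hn1 : u ≠ f1 := by
    rintro rfl
    simp at hn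
  have hn2 : u ≠ f2 := by
    rintro rfl
    simp at hn
  have hn3 : f1 ≠ f2 := by
    rintro rfl
    simp at hn
  obtain ⟨φ0, q1, q2⟩ := glue (insert v Y) X3 φ1 φ2 (by
    intro x hx1 hx2
    rcases mem_insert.1 hx1 with h | h
    · rw [h, p1, p2]
    · exact absurd hx2 (disjoint_left.1 hd h))
  set φ : V → ℕ := Function.update (Function.update (Function.update φ0 u (tau r F lo)) f1 y) f2 y' with hφ
  have a1 : φ f2 = y' := by rw [hφ, Function.update_self]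
  have a2 : φ f1 = y := by rw [hφ, Function.update_of_ne hn3, Function.update_self]
  have a0 : φ u = tau r F lo := by
    rw [hφ, Function.update_of_ne hn2, Function.update_of_ne hn1, Function.update_self]
  have a3 : ∀ x, x ≠ u → x ≠ f1 → x ≠ f2 → φ x = φ0 x := by
    intro x hx0 hx1 hx2
    rw [hφ, Function.update_of_ne hx2, Function.update_of_ne hx1, Function.update_of_ne hx0]
  have a5 : ∀ x ∈ X3, φ x = φ2 x := by
    intro x hx'
    rw [← q2 x hx']
    exact a3 _ (fun h' => hxu.2 (h' ▸ hx')) (fun h' => hxf1.2 (h' ▸ hx')) (fun h' => hxf2.2 (h' ▸ hx'))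
  have a4 : ∀ x ∈ insert v Y, φ x = φ1 x := by
    intro x hx'
    rcases mem_insert.1 hx' with h | h
    · rw [h, a5 v hv3, p1, p2]
    · rw [← q1 x hx']
      exact a3 _ (fun h' => hxu.1 (h' ▸ h)) (fun h' => hxf1.1 (h' ▸ h)) (fun h' => hxf2.1 (h' ▸ h))
  have a7 : φ v = tau r F mid := by rw [a5 v hv3, p2]
  have e1' := e1.congr (ψ := φ) hwfY (subset_insert _ _) a4
  have e2' := e2.congr (ψ := φ) hwfX (Subset.refl _) a5
  have e3 := (((e1'.union e2').vertex f2).vertex f1).vertex u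
  have e4 := ((e3.arcs (a := f2) (b := v) (by rw [a1, a7]; exact w6)).arcs (a := f1) (b := f2)
    (by rw [a2, a1]; exact w5)).arcs (a := u) (b := f1) (by rw [a0, a2]; exact w4)
  have hVS : insert (φ u) (insert (φ f1) (insert (φ f2) (VS r F2 lo1 mid ∪ VS r F2 mid hi))) =
      VS r F lo hi := by
    rw [VS_first hlo h1 h5 (by omega), VS_split g1 g2.le, tw.VSin,
      (tw.out mid hi (Or.inr (by omega))).2, a1, a2, a0, insert_union, insert_union]
  rw [hVS] at e4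
  exact ⟨φ, e4, a0, a5⟩

private theorem zin_card {Y X3 : Finset V} {u f1 f2 : V}
    (hn : [u, f1, f2].Nodup) (hx : ∀ x ∈ [u, f1, f2], x ∉ Y ∪ X3) (hd : Disjoint Y X3) :
    (insert u (insert f1 (insert f2 (Y ∪ X3)))).card = Y.card + X3.card + 3 := by
  have hxu := hx u (by simp)
  have hxf1 := hx f1 (by simp)
  have hxf2 := hx f2 (by simp)
  have hn1 : u ≠ f1 := by
    rintro rfl
    simp at hn
  have hn2 : u ≠ f2 := by
    rintro rfl
    simp at hn
  have hn3 : f1 ≠ f2 := by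
    rintro rfl
    simp at hn
  rw [card_insert_of_notMem, card_insert_of_notMem, card_insert_of_notMem hxf2,
    card_union_of_disjoint hd]
  · rw [mem_insert, not_or]
    exact ⟨hn3, hxf1⟩
  · rw [mem_insert, mem_insert, not_or, not_or]
    exact ⟨hn1, hn2, hxu⟩

private theorem zin_wfY {Y : Finset V} {v : V} {AY : Finset (V × V)}
    (hwf : ∀ a b, (a, b) ∈ AY.image Prod.swap → a ∈ insert v Y ∧ b ∈ insert v Y) :
    ∀ a b, (a, b) ∈ AY → a ∈ insert v Y ∧ b ∈ insert v Y := by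
  intro a b hab
  have h1 : (b, a) ∈ AY.image Prod.swap := by
    rw [mem_image]
    exact ⟨(a, b), hab, rfl⟩
  exact (hwf b a h1).symm

private theorem zin_wf {Y X3 : Finset V} {u f1 f2 v : V} {AY A3 : Finset (V × V)}
    (hwfY : ∀ a b, (a, b) ∈ AY → a ∈ insert v Y ∧ b ∈ insert v Y)
    (hwfX : ∀ a b, (a, b) ∈ A3 → a ∈ X3 ∧ b ∈ X3) (hv3 : v ∈ X3) :
    ∀ a b, (a, b) ∈ insert (u, f1) (insert (f1, f2) (insert (f2, v) (AY ∪ A3))) →
      a ∈ insert u (insert f1 (insert f2 (Y ∪ X3))) ∧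
        b ∈ insert u (insert f1 (insert f2 (Y ∪ X3))) := by
  intro a b hab
  rw [mem_insert, mem_insert, mem_insert, mem_union, Prod.mk.injEq, Prod.mk.injEq,
    Prod.mk.injEq] at hab
  simp only [mem_insert, mem_union]
  rcases hab with ⟨rfl, rfl⟩ | ⟨rfl, rfl⟩ | ⟨rfl, rfl⟩ | h | h
  · simp
  · simp
  · simp [hv3]
  · have h2 := hwfY a b h
    rw [mem_insert, mem_insert] at h2
    rcases h2 with ⟨h3 | h3, h4 | h4⟩
    · rw [h3, h4]
      simp [hv3]
    · rw [h3]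
      simp [hv3, h4]
    · rw [h4]
      simp [hv3, h3]
    · simp [h3, h4]
  · have := hwfX a b h
    tauto

theorem zle_win (ok : Ok D H k L) {Y X3 : Finset V} {u f1 f2 v : V} {AY A3 : Finset (V × V)}
    (hN : ZNO D H s m Y v (AY.image Prod.swap)) (hX : ZLE D H X3 v A3) (hs : s = Y.card + X3.card + 3) (hm : m ≤ D)
    (hL : L ≤ Y.card + 2) (hn : [u, f1, f2].Nodup) (hx : ∀ x ∈ [u, f1, f2], x ∉ Y ∪ X3) (hd : Disjoint Y X3) :
    ZLE D H (insert u (insert f1 (insert f2 (Y ∪ X3)))) u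
      (insert (u, f1) (insert (f1, f2) (insert (f2, v) (AY ∪ A3)))) := by
  have hwfY := zin_wfY hN.wf
  refine ⟨mem_insert_self _ _, zin_wf hwfY hX.wf hX.mem, ?_⟩
  intro N r ts F σ lo hi adm hiN hlh hlo hsl inv
  rw [zin_card hn hx hd] at hsl inv
  rw [← hs] at inv
  have hX3 : 1 ≤ X3.card := card_pos.2 ⟨v, hX.mem⟩
  obtain ⟨lo1, mid, y, y', F2, σ2, φ1, h1, g1, g2, g3, h5, g5, tw, e1, p1, w4, w5, w6⟩ :=
    zin_pre ok hN hm hL hX3 (by omega : 0 ≤ 10) ts adm hiN hlo hsl (by omega) inv (by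
      intro f hf ha hb
      have := inv.ge hf ha hb
      omega)
  have hmid := tw.tau mid (Or.inr (by omega))
  have hout := tw.out mid hi (Or.inr (by omega))
  obtain ⟨φ2, e2, p2⟩ := hX.emb N r ts F2 σ2 mid hi tw.adm hiN g2 (fun h => g3 (hmid.1.1 h))
    (by rw [hout.1, g5])
    ((tw.invout mid hi s 0 (Or.inr (by omega)) (inv.mono_int (by omega) le_rfl)).mono_s (by omega))
  obtain ⟨φ, q1, q2, -⟩ := zin_post hwfY hX.wf hX.mem hn hx hd hlo h1 g1 g2 h5 tw e1 p1 e2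
    (by rw [p2, hmid.2]) w4 w5 w6
  exact ⟨φ, q1, q2⟩

theorem zsp_win (ok : Ok D H k L) {Y X3 : Finset V} {u z f1 f2 v : V} {AY A3 : Finset (V × V)}
    (hN : ZNO D H s m Y v (AY.image Prod.swap)) (hX : ZSP D H s X3 v z A3) (hm : m ≤ D)
    (hL : L ≤ Y.card + 2) (hn : [u, f1, f2].Nodup) (hx : ∀ x ∈ [u, f1, f2], x ∉ Y ∪ X3) (hd : Disjoint Y X3) :
    ZSP D H s (insert u (insert f1 (insert f2 (Y ∪ X3)))) u z
      (insert (u, f1) (insert (f1, f2) (insert (f2, v) (AY ∪ A3)))) := by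
  have hwfY := zin_wfY hN.wf
  refine ⟨mem_insert_self _ _, ?_, zin_wf hwfY hX.wf hX.memu, ?_⟩
  · simp only [mem_insert, mem_union]
    exact Or.inr (Or.inr (Or.inr (Or.inr hX.memz)))
  intro N r ts F σ lo hi adm hiN hlh hlo hhi hsl hXs inv hσ
  rw [zin_card hn hx hd] at hsl hXs hσ
  have hX3 : 1 ≤ X3.card := card_pos.2 ⟨v, hX.memu⟩
  obtain ⟨lo1, mid, y, y', F2, σ2, φ1, h1, g1, g2, g3, h5, g5, tw, e1, p1, w4, w5, w6⟩ :=
    zin_pre ok hN hm hL hX3 (by omega : 8 ≤ 10) ts adm hiN hlo hsl (by omega) inv (by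
      intro f hf ha hb
      have := hσ f hf ha hb
      omega)
  have hmid := tw.tau mid (Or.inr (by omega))
  have hhi' := tw.tau (hi - 1) (Or.inr (by omega))
  have hout := tw.out mid hi (Or.inr (by omega))
  have hlt := tw.lt
  obtain ⟨φ2, e2, p2, p3⟩ := hX.emb N r ts F2 σ2 mid hi tw.adm hiN g2 (fun h => g3 (hmid.1.1 h))
    (fun h => hhi (hhi'.1.1 h)) (by rw [hout.1, g5]) (by omega)
    (tw.invout mid hi s 8 (Or.inr (by omega)) (inv.mono_int (by omega) le_rfl))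
    (by
      intro f hf ha hb
      rcases tw.mem f hf with h | h | h
      · rw [tw.old f h]
        have := hσ f h (by omega) hb
        omega
      · omega
      · omega)
  obtain ⟨φ, q1, q2, q3⟩ := zin_post hwfY hX.wf hX.memu hn hx hd hlo h1 g1 g2 h5 tw e1 p1 e2
    (by rw [p2, hmid.2]) w4 w5 w6
  exact ⟨φ, q1, q2, by rw [q3 z hX.memz, p3, hhi'.2]⟩

end UT35
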