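import Pool.Agent.UT35.LCt
import Pool.Agent.UT35.ZIn
import Pool.Agent.UT35.ZOut

/-!
# [UT35-LQ] the spine leaves the vertex `v` towards an in-child `c0`

`LF M c0` (`Good.long`). Let `S = (ic v).erase c0`.
If `S = ∅` (`ic v = {c0}`): `x = c0`; `Px t e c0 = insert c0 (Pv t e v {c0})`; `zsp_step` (arc `(c0, v) = arc c0`).
Otherwise let `c1` be the child of `c0`, `x` the child of `c1` (`LF_succ` twice): `De c0 = insert c0 (insert c1 (De x))`, `LF (M - 2) x`. `zsp_win` with `Y = S.biUnion De`, `X3 = Pv t e v (ic v)`, `u = x`, `f1 = c1`, `f2 = c0`, `v`, `z = e`;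
`hN`: `nesti` for `S` gives `ZNO` with some `m ≤ D` (`Y` is not empty, so the first alternative of `NestI` is impossible: `v`-children subtrees are nonempty) for the arcs `AR Y` — the arcs of `Y` are `arc o = (o, v)` for `o ∈ S` and
those inside; `L ≤ Y.card` by `LF_card`. The set: `insert x (insert c1 (insert c0 (Y ∪ Pv t e v (ic v)))) = Px t e x`.
-/

set_option autoImplicit false

open Finset Classical

namespace UT35

variable {V : Type} [Fintype V] {t : RT V} {D H k L M s : ℕ} {u e : V}

theorem run_q (c : Ctx t D H k L M s u e) {v c0 : V} (hv : v ∈ WW t e) (hp : ¬ t.Pass v) (hc : c0 ∈ t.ic v)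
    (hl : ∀ o ∈ t.ic v, o ≠ c0 → 2 * (t.De o).card ≤ s) (hS : Sv t D H s e v (t.ic v)) :
    ∃ x ∈ t.De c0, x ∈ WW t e ∧ x ≠ e ∧ ¬ t.out x ∧ t.LF (M - 2) x ∧ Sx t D H s e x ∧
      (Pv t e v (t.ic v)).card + 1 ≤ (Px t e x).card := by
  have hcc : c0 ∈ t.ch v := t.ic_sub v hc
  obtain ⟨hr0, hpar0⟩ := t.mem_ch.1 hcc
  have ho0 : ¬ t.out c0 := by
    unfold RT.ic at hc
    exact (mem_filter.1 hc).2
  have hLF : t.LF M c0 := c.good.long c0 hr0 (by rw [hpar0]; exact hp)
  have hDW : t.De c0 ⊆ WW t e := WW_De t hv hcc (fun h => h ▸ hc)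
  have hv0 : v ∉ t.De c0 := t.not_mem_De hcc
  have he0 : e ∉ t.De c0 := by
    by_cases hve : v = e
    · rw [← hve]; exact hv0
    · intro h
      exact e_not t hv hve (t.De_ch hcc h)
  have hc00 := t.De_self c0
  set S : Finset V := (t.ic v).erase c0 with hSdef
  set Y : Finset V := S.biUnion t.De with hY
  have hSch : S ⊆ t.ch v := (erase_subset _ _).trans (t.ic_sub v)
  have hic : (t.ic v).biUnion t.De = t.De c0 ∪ Y := by
    rw [← insert_erase hc, biUnion_insert]
  have hYW : Y ⊆ WW t e := by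
    intro y hy
    rw [hY] at hy
    obtain ⟨o, ho, hyo⟩ := mem_biUnion.1 hy
    exact WW_De t hv (hSch ho) (fun h => h ▸ (mem_of_mem_erase ho)) hyo
  have hdY : Disjoint (t.De c0) Y := by
    have h1 := t.bi_disj (S := {c0}) (S' := S) (by simpa using hcc) hSch
      (by simp [hSdef])
    rw [singleton_biUnion] at h1
    exact h1
  have hvY : v ∉ Y := t.not_mem_bi hSch
  have hmemPv : ∀ y, y ∈ Pv t e v (t.ic v) ↔ y ∈ WW t e ∧ ¬ (y ∈ t.De c0 ∨ y ∈ Y) := by
    intro y
    unfold Pv
    rw [mem_sdiff, hic, mem_union]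
  have hmemPx : ∀ x y, y ∈ Px t e x ↔ y ∈ WW t e ∧ ¬ (y ≠ x ∧ y ∈ t.De x) := by
    intro x y
    unfold Px
    rw [mem_sdiff, mem_erase]
  have hM := c.hM
  rcases S.eq_empty_or_nonempty with hSe | ⟨o1, ho1⟩
  · have hYe : Y = ∅ := by rw [hY, hSe]; simp
    have hc0P : c0 ∉ Pv t e v (t.ic v) := fun h => ((hmemPv c0).1 h).2 (Or.inl hc00)
    have hset : insert c0 (Pv t e v (t.ic v)) = Px t e c0 := by
      ext y
      rw [mem_insert, hmemPv, hmemPx, hYe]
      constructor
      · rintro (rfl | ⟨h1, h2⟩)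
        · exact ⟨hDW hc00, fun h => h.1 rfl⟩
        · exact ⟨h1, fun h => h2 (Or.inl h.2)⟩
      · rintro ⟨h1, h2⟩
        by_cases hy : y = c0
        · exact Or.inl hy
        · refine Or.inr ⟨h1, ?_⟩
          rintro (h3 | h3)
          · exact h2 ⟨hy, h3⟩
          · exact absurd h3 (notMem_empty _)
    have harc0 : t.arc c0 = (c0, v) := by simp [RT.arc, ho0, hpar0]
    refine ⟨c0, hc00, hDW hc00, fun h => he0 (h ▸ hc00), ho0, t.LF_mono hLF (by omega), ?_, ?_⟩
    · unfold Sx
      unfold Sv at hS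
      refine (zsp_step hS hc0P).mono hset.symm ?_
      intro a ha
      unfold RT.AR at ha
      obtain ⟨y, hy, rfl⟩ := mem_image.1 ha
      rw [mem_erase, ← hset, mem_insert] at hy
      obtain ⟨hye, hy | hy⟩ := hy
      · rw [hy, harc0]; simp
      · have : t.arc y ∈ t.AR ((Pv t e v (t.ic v)).erase e) :=
          mem_image_of_mem _ (mem_erase.2 ⟨hye, hy⟩)
        simp [this]
    · rw [← hset, card_insert_of_notMem hc0P]
  · obtain ⟨M', rfl⟩ : ∃ M', M = M' + 2 := ⟨M - 2, by omega⟩
    obtain ⟨c1, a1, a2, a3, a4, a5, a6, a7, a8, a9⟩ := t.LF_succ (n := M' + 1) hLF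
    obtain ⟨x, b1, b2, b3, b4, b5, b6, b7, b8, b9⟩ := t.LF_succ (n := M') a3
    have hc1c0 : c1 ≠ c0 := fun h => a5 (h ▸ t.De_self c1)
    have hxx := t.De_self x
    have hxc1 : x ≠ c1 := fun h => b5 (h ▸ hxx)
    have hxD1 : x ∈ t.De c1 := by rw [b4]; exact mem_insert_of_mem hxx
    have hxc0 : x ≠ c0 := fun h => a5 (h ▸ hxD1)
    have hDe : t.De c0 = insert c0 (insert c1 (t.De x)) := by rw [a4, b4]
    have hxD0 : x ∈ t.De c0 := by rw [hDe]; simp [hxx]
    have hc1D0 : c1 ∈ t.De c0 := by rw [hDe]; simp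
    have hDx : t.De x ⊆ t.De c0 := by
      intro y hy
      rw [hDe]
      simp [hy]
    have ho1' : ¬ t.out c1 := fun h => ho0 (a2.1 h)
    have hox : ¬ t.out x := fun h => ho1' (b2.1 h)
    have hc0x : c0 ∉ t.De x := fun h => a5 (by rw [b4]; exact mem_insert_of_mem h)
    have hset : insert x (insert c1 (insert c0 (Y ∪ Pv t e v (t.ic v)))) = Px t e x := by
      ext y
      simp only [mem_insert, mem_union, hmemPv, hmemPx]
      constructor
      · rintro (rfl | rfl | rfl | h | ⟨h, h'⟩)
        · exact ⟨hDW hxD0, fun h => h.1 rfl⟩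
        · exact ⟨hDW hc1D0, fun h => b5 h.2⟩
        · exact ⟨hDW hc00, fun h => hc0x h.2⟩
        · exact ⟨hYW h, fun h2 => disjoint_left.1 hdY (hDx h2.2) h⟩
        · exact ⟨h, fun h2 => h' (Or.inl (hDx h2.2))⟩
      · rintro ⟨h, h'⟩
        by_cases h2 : y ∈ t.De c0
        · rw [hDe, mem_insert, mem_insert] at h2
          rcases h2 with h2 | h2 | h2
          · exact Or.inr (Or.inr (Or.inl h2))
          · exact Or.inr (Or.inl h2)
          · by_cases hyx : y = x
            · exact Or.inl hyx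
            · exact absurd ⟨hyx, h2⟩ h'
        · by_cases h3 : y ∈ Y
          · exact Or.inr (Or.inr (Or.inr (Or.inl h3)))
          · exact Or.inr (Or.inr (Or.inr (Or.inr ⟨h, fun h4 => h4.elim h2 h3⟩)))
    have hc0P : c0 ∉ Pv t e v (t.ic v) := fun h => ((hmemPv c0).1 h).2 (Or.inl hc00)
    have hc1P : c1 ∉ Pv t e v (t.ic v) := fun h => ((hmemPv c1).1 h).2 (Or.inl hc1D0)
    have hxP : x ∉ Pv t e v (t.ic v) := fun h => ((hmemPv x).1 h).2 (Or.inl hxD0)
    have hYP : Disjoint Y (Pv t e v (t.ic v)) := by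
      rw [disjoint_left]
      intro y hy h
      exact ((hmemPv y).1 h).2 (Or.inr hy)
    have harc0 : t.arc c0 = (c0, v) := by simp [RT.arc, ho0, hpar0]
    have harc1 : t.arc c1 = (c1, c0) := by simp [RT.arc, ho1', a7]
    have harcx : t.arc x = (x, c1) := by simp [RT.arc, hox, b7]
    have hxe : x ≠ e := fun h => he0 (h ▸ hxD0)
    refine ⟨x, hxD0, hDW hxD0, hxe, hox, by simpa using b3, ?_, ?_⟩
    · have hor := t.mem_ch.1 (hSch ho1)
      have hn := nesti c.ok c.good c.hM c.ih' hp (S := S) (erase_subset _ _)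
        (fun o ho => card_lt c hv (hSch ho))
        (fun o ho => hl o (mem_of_mem_erase ho) (ne_of_mem_erase ho))
      have hYne : Y.Nonempty := ⟨o1, mem_biUnion.2 ⟨o1, ho1, t.De_self o1⟩⟩
      rcases hn with ⟨h1, -⟩ | ⟨m, ⟨hm, -⟩, hN⟩
      · exact absurd h1 hYne.ne_empty
      · have hL : L ≤ Y.card + 2 := by
          have h5 : t.LF (M' + 2) o1 := c.good.long o1 hor.1 (by rw [hor.2]; exact hp)
          have h6 := t.LF_card h5
          have h7 : (t.De o1).card ≤ Y.card := card_le_card (subset_biUnion_of_mem t.De ho1)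
          omega
        unfold Sv at hS
        have hz := zsp_win (u := x) (f1 := c1) (f2 := c0) c.ok hN hS hm hL
          (by
            simp only [List.nodup_cons, List.mem_cons, List.not_mem_nil, or_false, not_or,
              List.nodup_nil, and_true, not_false_eq_true]
            exact ⟨⟨hxc1, hxc0⟩, hc1c0⟩)
          (by
            intro y hy
            simp only [List.mem_cons, List.not_mem_nil, or_false] at hy
            rw [mem_union, not_or]
            rcases hy with rfl | rfl | rfl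
            · exact ⟨fun h => disjoint_left.1 hdY hxD0 h, hxP⟩
            · exact ⟨fun h => disjoint_left.1 hdY hc1D0 h, hc1P⟩
            · exact ⟨fun h => disjoint_left.1 hdY hc00 h, hc0P⟩)
          hYP
        unfold Sx
        refine hz.mono hset.symm ?_
        intro a ha
        unfold RT.AR at ha
        obtain ⟨y, hy, rfl⟩ := mem_image.1 ha
        rw [mem_erase, ← hset] at hy
        obtain ⟨hye, hy⟩ := hy
        simp only [mem_insert, mem_union] at hy
        rcases hy with rfl | rfl | rfl | hy | hy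
        · rw [harcx]; simp
        · rw [harc1]; simp
        · rw [harc0]; simp
        · have : t.arc y ∈ t.AR Y := mem_image_of_mem _ hy
          exact mem_insert_of_mem (mem_insert_of_mem (mem_insert_of_mem (mem_union_left _ this)))
        · have : t.arc y ∈ t.AR ((Pv t e v (t.ic v)).erase e) :=
            mem_image_of_mem _ (mem_erase.2 ⟨hye, hy⟩)
          exact mem_insert_of_mem (mem_insert_of_mem (mem_insert_of_mem (mem_union_right _ this)))
    · have hsub : insert x (Pv t e v (t.ic v)) ⊆ Px t e x := by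
        rw [← hset]
        intro y hy
        simp only [mem_insert, mem_union] at hy ⊢
        tauto
      have hcard := card_le_card hsub
      rw [card_insert_of_notMem hxP] at hcard
      exact hcard

end UT35
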