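import Pool.Agent.UT35.LP
import Pool.Agent.UT35.LQ

/-!
# [UT35-LRUN] the whole spine

`run`: strong induction on `(De x).card`. Result: a number `b` with `Res t D H M s e b` and `(Px t e x).card + j ≤ b` whenever `LF j x`.
* `LF 4 x`: let `c1` be the child of `x` (`LF_succ`), `LF 3 c1`, `¬ out c1`, `Px t e c1 = insert c1 (Px t e x)`; `zsp_step` (arc `(c1, x) = arc c1`) gives `Sx` for `c1`; induction. Bound: for `j = 0` clear, for
  `j = i + 1` `LF i c1`, `(Px t e c1).card = (Px t e x).card + 1`.
* `¬ LF 4 x`: `run_p` gives `v`. `LF j x` implies `j ≤ 3`. (`LF_mono`.)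
  - If some `c0 ∈ oc v` has `s < 2 * (De c0).card`: `S = (oc v).erase c0`; by `light` all other children are light. `run_p` for `S`: `ch v \ S = insert c0 (ic v)`. `Res` with `g = v`, `Z = Pv t e v (ch v \ S)`, `Y = (ic v).biUnion De`
    (`nesti`), second alternative with `c = c0` (`LF M c0` by `Good.long`): `Z = WW t e \ (De c0 ∪ Y)`, and `De c0 ∪ Y ⊆ WW t e` (`WW_De`), `bi_disj`. `b = Z.card ≥ (Px t e x).card + 3`.
  - Otherwise `run_p` for `S = oc v`: `ch v \ oc v = ic v`, so `Sv t D H s e v (ic v)`. If no `o ∈ ic v` is heavy: `Res` with `Z = Pv t e v (ic v)`, `Y = (ic v).biUnion De`, first alternative. If `c0 ∈ ic v` is heavy: the others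
    are light (`light`), `run_q` gives `x'` with `(De x').card < (De x).card` (`De x' ⊆ De c0 ⊆ De v ⊆ De x`, `v ∉ De c0`), `LF 3 x'` (`M - 2 ≥ 3`); induction, and `(Px t e x).card + 3 ≤ (Pv ..).card ≤ (Px t e x').card`.
`run_top`: `Sv t D H s e e (ic e)` is `zsp_leaf`, as `WW t e \ (ic e).biUnion De = {e}` (`not_mem_bi`). `run_q` (`v = e`) gives `x`, `LF (M - 2) x`; `run` with `j = M - 2` gives `b ≥ M - 2 ≥ L`, and `Res` is monotone in `b`.
-/

set_option autoImplicit false

open Finset Classical

namespace UT35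

variable {V : Type} [Fintype V] {t : RT V} {D H k L M s : ℕ} {u e : V}

private theorem mem_oc' {c v : V} : c ∈ t.oc v ↔ c ∈ t.ch v ∧ t.out c := by
  unfold RT.oc; rw [mem_filter]

private theorem mem_ic' {c v : V} : c ∈ t.ic v ↔ c ∈ t.ch v ∧ ¬ t.out c := by
  unfold RT.ic; rw [mem_filter]

private theorem sdiff_oc (v : V) : t.ch v \ t.oc v = t.ic v := by
  ext c
  rw [mem_sdiff, mem_oc', mem_ic']
  tauto

private theorem sdiff_oc_erase {v c0 : V} (hc : c0 ∈ t.oc v) :
    t.ch v \ (t.oc v).erase c0 = insert c0 (t.ic v) := by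
  ext c
  have h0 := (mem_oc' (t := t)).1 hc
  rw [mem_sdiff, mem_erase, mem_insert, mem_oc', mem_ic']
  constructor
  · rintro ⟨h1, h2⟩
    by_cases h : c = c0
    · exact Or.inl h
    · right
      exact ⟨h1, fun h3 => h2 ⟨h, h1, h3⟩⟩
  · rintro (h | ⟨h1, h2⟩)
    · subst h
      exact ⟨h0.1, fun h3 => h3.1 rfl⟩
    · exact ⟨h1, fun h3 => h2 h3.2.2⟩

/-- the subtrees of all children of `v` are in `WW` -/
private theorem bi_WW {v : V} (hv : v ∈ WW t e) (hve : v ≠ e) {S : Finset V} (hS : S ⊆ t.ch v) :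
    S.biUnion t.De ⊆ WW t e := by
  intro a ha
  rw [mem_biUnion] at ha
  obtain ⟨o, ho, ha⟩ := ha
  exact WW_De t hv (hS ho) (fun h => absurd h hve) ha

theorem run (c : Ctx t D H k L M s u e) (x : V) (hx : x ∈ WW t e) (hxe : x ≠ e) (ho : ¬ t.out x) (h3 : t.LF 3 x)
    (hS : Sx t D H s e x) :
    ∃ b, (∀ j, t.LF j x → (Px t e x).card + j ≤ b) ∧ Res t D H M s e b := by
  obtain ⟨n, hn⟩ : ∃ n, (t.De x).card = n := ⟨_, rfl⟩
  induction n using Nat.strong_induction_on generalizing x with
  | _ n IH =>
  by_cases h4 : t.LF 4 x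
  · -- one plain step
    obtain ⟨c1, hch, hout, hLF, hDe, hxn, hc1r, hpar, hxr, hpass⟩ := t.LF_succ (n := 3) h4
    have hc1 : c1 ∈ t.ch x := by rw [hch]; exact mem_singleton_self _
    have hsub : t.De c1 ⊆ WW t e := WW_De t hx hc1 (fun h => absurd h hxe)
    have hc1W : c1 ∈ WW t e := hsub (t.De_self c1)
    have hc1x : c1 ∈ t.De x := t.De_ch hc1 (t.De_self c1)
    have hc1e : c1 ≠ e := by
      intro h
      exact e_not t hx hxe (h ▸ hc1x)
    have hc1o : ¬ t.out c1 := fun h => ho (hout.1 h)
    have hPx : Px t e x = WW t e \ t.De c1 := by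
      unfold Px
      rw [hDe, erase_insert hxn]
    have hPc : Px t e c1 = insert c1 (Px t e x) := by
      rw [hPx]
      unfold Px
      ext a
      rw [mem_sdiff, mem_erase, mem_insert, mem_sdiff]
      constructor
      · rintro ⟨h5, h6⟩
        by_cases h : a = c1
        · exact Or.inl h
        · exact Or.inr ⟨h5, fun h7 => h6 ⟨h, h7⟩⟩
      · rintro (h | ⟨h5, h6⟩)
        · subst h
          exact ⟨hc1W, fun h7 => h7.1 rfl⟩
        · exact ⟨h5, fun h7 => h6 h7.2⟩
    have hc1P : c1 ∉ Px t e x := by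
      rw [hPx, mem_sdiff]
      exact fun h => h.2 (t.De_self c1)
    have hcard : (Px t e c1).card = (Px t e x).card + 1 := by
      rw [hPc, card_insert_of_notMem hc1P]
    have hSc : Sx t D H s e c1 := by
      unfold Sx at hS ⊢
      refine (zsp_step hS hc1P).mono hPc ?_
      rw [hPc]
      intro ab hab
      unfold RT.AR at hab ⊢
      rw [mem_image] at hab
      obtain ⟨a, ha, rfl⟩ := hab
      rw [mem_erase, mem_insert] at ha
      rw [mem_insert, mem_image]
      rcases ha.2 with h | h
      · left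
        subst h
        unfold RT.arc
        rw [if_neg hc1o, hpar]
      · right
        exact ⟨a, mem_erase.2 ⟨ha.1, h⟩, rfl⟩
    obtain ⟨b, hb1, hb2⟩ := IH (t.De c1).card (by rw [← hn]; exact t.card_De_lt hc1) c1 hc1W hc1e hc1o hLF hSc rfl
    refine ⟨b, ?_, hb2⟩
    intro j hj
    cases j with
    | zero =>
      have := hb1 0 trivial
      omega
    | succ i =>
      have := hb1 i (hj.2 c1 hc1)
      omega
  · -- the spine arrives at `v`
    obtain ⟨v, hvx, hvne, hvW, hve, hvP, hvo, hrun⟩ := run_p c hx hxe ho h3 h4 hS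
    have hj3 : ∀ j, t.LF j x → j ≤ 3 := by
      intro j hj
      by_contra hcon
      exact h4 (t.LF_mono hj (by omega))
    have hlow : ∀ o ∈ t.ch v, (t.De o).card < s := fun o ho => card_lt c hvW ho
    by_cases hheavy : ∃ c0 ∈ t.oc v, s < 2 * (t.De c0).card
    · obtain ⟨c0, hc0, hh⟩ := hheavy
      have hc0' := (mem_oc' (t := t)).1 hc0
      have hlight : ∀ o ∈ t.ch v, o ≠ c0 → 2 * (t.De o).card ≤ s := by
        intro o hoc hne
        exact light c hvW hc0'.1 hoc (Ne.symm hne) hh
      obtain ⟨hSv, hcard⟩ := hrun ((t.oc v).erase c0) (erase_subset _ _) (by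
        intro o hoS
        rw [mem_erase] at hoS
        exact hlight o (t.oc_sub v hoS.2) hoS.1)
      rw [sdiff_oc_erase hc0] at hSv hcard
      have hin : ∀ o ∈ t.ic v, o ≠ c0 := by
        intro o hoI h
        rw [mem_ic'] at hoI
        exact hoI.2 (h ▸ hc0'.2)
      have hN : NestI D H s ((t.ic v).biUnion t.De) v (t.AR ((t.ic v).biUnion t.De)) :=
        nesti c.ok c.good c.hM c.ih' hvP (Subset.refl _) (fun o hoI => hlow o (t.ic_sub v hoI))
          (fun o hoI => hlight o (t.ic_sub v hoI) (hin o hoI))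
      have hins : insert c0 (t.ic v) ⊆ t.ch v := by
        intro a ha
        rw [mem_insert] at ha
        rcases ha with h | h
        · subst h; exact hc0'.1
        · exact t.ic_sub v h
      have hYW : (t.ic v).biUnion t.De ⊆ WW t e := bi_WW hvW hve (t.ic_sub v)
      have hCW : t.De c0 ⊆ WW t e := WW_De t hvW hc0'.1 (fun h => absurd h hve)
      have hYC : Disjoint ((t.ic v).biUnion t.De) (t.De c0) := by
        have := t.bi_disj (v := v) (S := t.ic v) (S' := {c0}) (t.ic_sub v)
          (by intro a ha; rw [mem_singleton] at ha; subst ha; exact hc0'.1) (by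
            rw [disjoint_singleton_right]
            intro h
            exact hin c0 h rfl)
        rwa [singleton_biUnion] at this
      have hbi : (insert c0 (t.ic v)).biUnion t.De = t.De c0 ∪ (t.ic v).biUnion t.De := by
        rw [biUnion_insert]
      refine ⟨(Pv t e v (insert c0 (t.ic v))).card, ?_, v, Pv t e v (insert c0 (t.ic v)),
        (t.ic v).biUnion t.De, hSv, hN, ?_, le_refl _, Or.inr ⟨c0, hc0, ?_, ?_, ?_⟩⟩
      · intro j hj
        have := hj3 j hj
        omega
      · unfold Pv
        rw [hbi]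
        rw [disjoint_left]
        intro a ha hb
        rw [mem_sdiff] at hb
        exact hb.2 (mem_union_right _ ha)
      · exact c.good.long c0 ((t.mem_ch).1 hc0'.1).1 (by rw [((t.mem_ch).1 hc0'.1).2]; exact hvP)
      · rw [disjoint_union_left]
        refine ⟨hYC, ?_⟩
        unfold Pv
        rw [hbi, disjoint_left]
        intro a ha hb
        rw [mem_sdiff] at ha
        exact ha.2 (mem_union_left _ hb)
      · unfold Pv
        rw [hbi]
        ext a
        rw [mem_union, mem_union, mem_sdiff, mem_union]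
        constructor
        · rintro ((h | h) | h)
          · exact hYW h
          · exact h.1
          · exact hCW h
        · intro h
          by_cases h5 : a ∈ t.De c0
          · exact Or.inr h5
          · by_cases h6 : a ∈ (t.ic v).biUnion t.De
            · exact Or.inl (Or.inl h6)
            · exact Or.inl (Or.inr ⟨h, fun h7 => h7.elim h5 h6⟩)
    · have hlo : ∀ o ∈ t.oc v, 2 * (t.De o).card ≤ s := by
        intro o hoO
        by_contra hcon
        exact hheavy ⟨o, hoO, by omega⟩
      obtain ⟨hSv, hcard⟩ := hrun (t.oc v) (Subset.refl _) hlo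
      rw [sdiff_oc] at hSv hcard
      by_cases hhi : ∃ c0 ∈ t.ic v, s < 2 * (t.De c0).card
      · obtain ⟨c0, hc0, hh⟩ := hhi
        have hc0c : c0 ∈ t.ch v := t.ic_sub v hc0
        obtain ⟨x', hx'c, hx'W, hx'e, hx'o, hx'L, hx'S, hx'card⟩ := run_q c hvW hvP hc0
          (fun o hoI hne => light c hvW hc0c (t.ic_sub v hoI) (Ne.symm hne) hh) hSv
        have h5 : (t.De x').card ≤ (t.De c0).card := card_le_card (t.De_trans hx'c)
        have h6 := t.card_De_lt hc0c
        have h7 : (t.De v).card ≤ (t.De x).card := card_le_card (t.De_trans hvx)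
        have hM := c.hM
        obtain ⟨b, hb1, hb2⟩ := IH (t.De x').card (by omega) x' hx'W hx'e hx'o (t.LF_mono hx'L (by omega)) hx'S rfl
        refine ⟨b, ?_, hb2⟩
        intro j hj
        have h8 := hj3 j hj
        have h9 := hb1 0 trivial
        omega
      · have hli : ∀ o ∈ t.ic v, 2 * (t.De o).card ≤ s := by
          intro o hoO
          by_contra hcon
          exact hhi ⟨o, hoO, by omega⟩
        have hN : NestI D H s ((t.ic v).biUnion t.De) v (t.AR ((t.ic v).biUnion t.De)) :=
          nesti c.ok c.good c.hM c.ih' hvP (Subset.refl _) (fun o hoI => hlow o (t.ic_sub v hoI)) hli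
        have hYW : (t.ic v).biUnion t.De ⊆ WW t e := bi_WW hvW hve (t.ic_sub v)
        refine ⟨(Pv t e v (t.ic v)).card, ?_, v, Pv t e v (t.ic v), (t.ic v).biUnion t.De, hSv, hN, ?_,
          le_refl _, Or.inl ?_⟩
        · intro j hj
          have := hj3 j hj
          omega
        · unfold Pv
          exact disjoint_sdiff
        · unfold Pv
          exact union_sdiff_of_subset hYW

theorem run_top (c : Ctx t D H k L M s u e) {c0 : V} (hc : c0 ∈ t.ic e) (hh : s < 2 * (t.De c0).card) :
    Res t D H M s e L := by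
  have heW : e ∈ WW t e := by
    unfold WW
    exact mem_insert_self _ _
  have hPv : Pv t e e (t.ic e) = {e} := by
    unfold Pv WW
    ext a
    rw [mem_sdiff, mem_insert, mem_singleton]
    constructor
    · rintro ⟨h1 | h1, h2⟩
      · exact h1
      · exact absurd h1 h2
    · intro h
      subst h
      exact ⟨Or.inl rfl, t.not_mem_bi (t.ic_sub a)⟩
  have hSv : Sv t D H s e e (t.ic e) := by
    unfold Sv
    rw [hPv]
    have h1 : t.AR (({e} : Finset V).erase e) = ∅ := by
      unfold RT.AR
      rw [erase_singleton, image_empty]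
    rw [h1]
    exact zsp_leaf e
  have hcc : c0 ∈ t.ch e := t.ic_sub e hc
  obtain ⟨x, hxc, hxW, hxe, hxo, hxL, hxS, hxcard⟩ := run_q c heW c.sp hc
    (fun o hoI hne => light c heW hcc (t.ic_sub e hoI) (Ne.symm hne) hh) hSv
  have hM := c.hM
  obtain ⟨b, hb1, g, Z, Y, h1, h2, h3, h4, h5⟩ := run c x hxW hxe hxo (t.LF_mono hxL (by omega)) hxS
  have h6 := hb1 (M - 2) hxL
  exact ⟨g, Z, Y, h1, h2, h3, by omega, h5⟩

end UT35
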