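import Pool.Agent.UT35.VSl
import Pool.Agent.UT35.InvL

/-!
# [UT35-TWO] adding floats

`one`-lemmas describe `insert y F` for a possible new float `y` (`Fl`), the `two`-lemmas follow by applying them twice (first `y`, then `y'`; with respect to `insert y F` the point `y'` satisfies
`Fl` as `Apart H l y y'`).
All statements are direct consequences of `VS_ins`, `VS_out`, `tau_ins`, `sl_ins`, `sl_out`, `Inv.ins`, `Inv.out`, `Adm.ins`, `Fl.far`.
-/

set_option autoImplicit false

open Finset Classical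

namespace UT35

/-- everything about the set of floats `F2` obtained from `F` by adding `y`, `y'` in the window `[lo, hi)` -/
structure Two (N : ℕ) (r : ℕ → ℕ → Prop) (F : Finset ℕ) (σ : ℕ → ℕ) (D H l lo hi y y' : ℕ) (F2 : Finset ℕ)
    (σ2 : ℕ → ℕ) : Prop where
  adm : Adm N F2
  sub : F ⊆ F2
  mem : ∀ f ∈ F2, f ∈ F ∨ f = y ∨ f = y'
  memy : y ∈ F2 ∧ y' ∈ F2
  old : ∀ f ∈ F, σ2 f = σ f
  new : σ2 y = l ∧ σ2 y' = l
  ge : lo + 320 ≤ y ∧ lo + 320 ≤ y'
  lt : y + 21 ≤ hi ∧ y' + 21 ≤ hi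
  VSin : VS r F lo hi = insert y (insert y' (VS r F2 lo hi))
  slin : sl F lo hi = sl F2 lo hi + 2
  tau : ∀ k, (k < lo + 300 ∨ hi ≤ k + 10) → (k ∈ F2 ↔ k ∈ F) ∧ UT35.tau r F2 k = UT35.tau r F k
  out : ∀ a b, (b ≤ lo + 300 ∨ hi ≤ a + 10) → sl F2 a b = sl F a b ∧ VS r F2 a b = VS r F a b
  invin : ∀ a b s e, (∀ f ∈ F, a ≤ f → f < b → lo ≤ f ∧ f < hi) → Inv D H F σ a b s e → Inv D H F2 σ2 a b s (e + 2)
  invout : ∀ a b s e, (b ≤ lo + 300 ∨ hi ≤ a + 10) → Inv D H F σ a b s e → Inv D H F2 σ2 a b s e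

theorem two {N D H l lo hi y y' : ℕ} {r : ℕ → ℕ → Prop} {F : Finset ℕ} {σ : ℕ → ℕ} (adm : Adm N F) (hN : hi ≤ N)
    (f1 : Fl F H l lo hi y) (f2 : Fl F H l lo hi y') (ap : Apart H l y y') :
    ∃ F2 σ2, Two N r F σ D H l lo hi y y' F2 σ2 := by
  have hy1 := f1.far
  have hy2 := f2.far
  have ge1 := f1.ge
  have ge2 := f2.ge
  have lt1 := f1.lt
  have lt2 := f2.lt
  have hyF : y ∉ F := fun h => by
    have := hy1 y h
    omega
  have hyF' : y' ∉ F := fun h => by
    have := hy2 y' h
    omega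
  have hap : y + 20 ≤ y' ∨ y' + 20 ≤ y := by
    rcases ap with h | h
    · exact Or.inl h.1
    · exact Or.inr h.1
  have hne : y ≠ y' := by omega
  have hyF2 : y' ∉ insert y F := by
    rw [mem_insert]
    push Not
    exact ⟨hne.symm, hyF'⟩
  have hfar2 : ∀ f ∈ insert y F, y' + 20 ≤ f ∨ f + 20 ≤ y' := by
    intro f hf
    rw [mem_insert] at hf
    rcases hf with rfl | hf
    · omega
    · exact hy2 f hf
  have hadm1 : Adm N (insert y F) := adm.ins (by omega) (by omega) hy1
  refine ⟨insert y' (insert y F), Function.update (Function.update σ y l) y' l, ?_⟩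
  refine
    { adm := hadm1.ins (by omega) (by omega) hfar2
      sub := fun f hf => mem_insert_of_mem (mem_insert_of_mem hf)
      mem := fun f hf => by
        rw [mem_insert, mem_insert] at hf
        tauto
      memy := ⟨mem_insert_of_mem (mem_insert_self _ _), mem_insert_self _ _⟩
      old := fun f hf => by
        have e1 : f ≠ y' := fun h => hyF' (h ▸ hf)
        have e2 : f ≠ y := fun h => hyF (h ▸ hf)
        rw [Function.update_of_ne e1, Function.update_of_ne e2]
      new := ⟨by rw [Function.update_of_ne hne, Function.update_self], by rw [Function.update_self]⟩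
      ge := ⟨ge1, ge2⟩
      lt := ⟨lt1, lt2⟩
      VSin := ?_
      slin := ?_
      tau := ?_
      out := ?_
      invin := ?_
      invout := ?_ }
  · rw [VS_ins hy1 (by omega) (by omega), VS_ins hfar2 (by omega) (by omega)]
  · rw [sl_ins hyF (by omega) (by omega), sl_ins hyF2 (by omega) (by omega)]
  · intro k hk
    refine ⟨?_, ?_⟩
    · rw [mem_insert, mem_insert]
      constructor
      · rintro (h | h | h)
        · omega
        · omega
        · exact h
      · intro h
        exact Or.inr (Or.inr h)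
    · rw [tau_ins (by omega) (by omega) (by omega), tau_ins (by omega) (by omega) (by omega)]
  · intro a b hab
    refine ⟨?_, ?_⟩
    · rw [sl_out (by omega), sl_out (by omega)]
    · rw [VS_out (by omega) (by omega), VS_out (by omega) (by omega)]
  · intro a b s e hab inv
    have h1 := inv.ins (l := l) hyF (fun f hf ha hb => f1.apart f hf (hab f hf ha hb).1 (hab f hf ha hb).2)
    have h2 := h1.ins (l := l) hyF2 (fun f hf ha hb => by
      rw [mem_insert] at hf
      rcases hf with rfl | hf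
      · exact ap
      · exact f2.apart f hf (hab f hf ha hb).1 (hab f hf ha hb).2)
    exact h2
  · intro a b s e hab inv
    exact (inv.out (l := l) hyF (by omega)).out (l := l) hyF2 (by omega)

/-- the same for one float -/
structure One (N : ℕ) (r : ℕ → ℕ → Prop) (F : Finset ℕ) (σ : ℕ → ℕ) (D H y : ℕ) (F2 : Finset ℕ)
    (σ2 : ℕ → ℕ) : Prop where
  adm : Adm N F2
  sub : F ⊆ F2
  mem : ∀ f ∈ F2, f ∈ F ∨ f = y
  memy : y ∈ F2
  old : ∀ f ∈ F, σ2 f = σ f
  VSin : ∀ a b, a + 2 ≤ y → y + 2 ≤ b → VS r F a b = insert y (VS r F2 a b)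
  slin : ∀ a b, a ≤ y → y < b → sl F a b = sl F2 a b + 1
  tau : ∀ k, (k + 2 ≤ y ∨ y + 2 ≤ k) → (k ∈ F2 ↔ k ∈ F) ∧ UT35.tau r F2 k = UT35.tau r F k
  out : ∀ a b, (b + 1 ≤ y ∨ y + 2 ≤ a) → sl F2 a b = sl F a b ∧ VS r F2 a b = VS r F a b
  invout : ∀ a b s e, (b ≤ y ∨ y < a) → Inv D H F σ a b s e → Inv D H F2 σ2 a b s e

theorem one {N D H y : ℕ} {r : ℕ → ℕ → Prop} {F : Finset ℕ} {σ : ℕ → ℕ} (adm : Adm N F) (h1 : 20 ≤ y)
    (h2 : y + 21 ≤ N) (h : ∀ f ∈ F, y + 20 ≤ f ∨ f + 20 ≤ y) : ∃ F2 σ2, One N r F σ D H y F2 σ2 := by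
  have hyF : y ∉ F := fun hy => by
    have := h y hy
    omega
  refine ⟨insert y F, Function.update σ y 0, ?_⟩
  refine
    { adm := adm.ins h1 h2 h
      sub := fun f hf => mem_insert_of_mem hf
      mem := fun f hf => by
        rw [mem_insert] at hf
        tauto
      memy := mem_insert_self _ _
      old := fun f hf => by
        have e2 : f ≠ y := fun h => hyF (h ▸ hf)
        rw [Function.update_of_ne e2]
      VSin := fun a b ha hb => VS_ins h ha hb
      slin := fun a b ha hb => sl_ins hyF ha hb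
      tau := ?_
      out := ?_
      invout := fun a b s e hab inv => inv.out (l := 0) hyF (by omega) }
  · intro k hk
    refine ⟨?_, tau_ins (by omega) (by omega) (by omega)⟩
    rw [mem_insert]
    constructor
    · rintro (h | h)
      · omega
      · exact h
    · intro h
      exact Or.inr h
  · intro a b hab
    exact ⟨sl_out (by omega), VS_out (by omega) (by omega)⟩

/-- a place for a station -/
theorem station {F : Finset ℕ} {ζ : ℕ} (h : ∀ f ∈ F, ∀ f' ∈ F, ζ ≤ f → f < f' → f' < ζ + 250 → False) :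
    ∃ y, ζ + 60 ≤ y ∧ y ≤ ζ + 180 ∧ ∀ f ∈ F, y + 20 ≤ f ∨ f + 20 ≤ y := by
  by_cases hex : ∃ f ∈ F, ζ ≤ f ∧ f < ζ + 80
  · obtain ⟨f0, hf0, h1, h2⟩ := hex
    refine ⟨ζ + 180, by omega, by omega, fun f hf => ?_⟩
    by_contra hcon
    push Not at hcon
    have hne : f0 ≠ f := by omega
    exact h f0 hf0 f hf h1 (by omega) (by omega)
  · push Not at hex
    refine ⟨ζ + 60, by omega, by omega, fun f hf => ?_⟩
    by_cases hf1 : ζ ≤ f
    · left
      exact hex f hf hf1
    · right
      omega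

end UT35
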