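import Pool.Agent.UT35.TDefs
import Pool.Agent.UT35.Two
import Pool.Agent.UT35.EmL
import Pool.Agent.UT35.Win

/-!
# [UT35-ZRI] right part of a turn

`zri_plain`: `e` on `lo`, next slot `lo1` (`next_slot`), `hX.emb` for `[lo1, hi)` (`Inv.mono_int`, `Inv.mono_s`), `φ c = tau r F lo1`, `lo1 ≤ lo + 2`, `tau_le`, `le_tau`, `tau_lt`.

`zri_st`: `lo1` = next slot after `lo`; `μ` with `sl F lo1 μ = Y.card + 3`, `sl F μ hi = X5.card` (`exists_mid`; `μ ∉ F`). Since `L ≤ Y.card` and `1000 H ≤ L` we have `1000 ≤ μ - lo1` (`sl_le`).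
`station` with `ζ = lo`: if `lo ≤ f < f' < lo + 250` are floats, then by `Inv.sep` and `Inv.ge` `s ≤ min (σ f) (σ f') ≤ H (f' - f) < 250 H`, but `s ≥ L ≥ 1000 H`, contradiction (`H ≥ 1`). So
there is `y0` with `lo + 60 ≤ y0 ≤ lo + 180` at distance `≥ 20` from all floats. `one` : `F3 = F + y0`, `σ3`. `win` for `F3`, `σ3`, the window `[lo1, μ)` (`sl F3 lo1 μ = Y.card + 2`, sparsity on
`[lo1 + 300, μ)` by `One.invout`, `y0 < lo1 + 300`, `e = 0`), `p = y0`, `q = tau r F3 μ`; `two` : `F5`, `σ5`, new floats `y`, `y'`.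
`hN.emb` for `F5`, `σ5`, `β = lo`, `[lo1, μ)`, `e = 2`, `2 * m ≤ 2 * D` : floats in `[lo1 + 300, μ)` are `y`, `y'` (scale `Y.card + 2`) or in `F` (scale `≥ s`, `Inv.ge`) (`y0 < lo1 + 300`).
`hX.emb` for `F5`, `σ5`, `[μ, hi)` (`One.invout`, `Two.invout`, `Inv.mono_s`). `tau r F5` agrees with `tau r F` at `lo` and `μ`.
Vertices: `VS r F lo hi = insert (tau r F lo) (VS r F lo1 μ ∪ VS r F μ hi)`, `VS r F lo1 μ = insert y0 (VS r F3 lo1 μ)`, `VS r F3 lo1 μ = insert y (insert y' (VS r F5 lo1 μ))`,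
`VS r F μ hi = VS r F3 μ hi = VS r F5 μ hi`.
Put `φ c2 = y0`, `φ c3 = y`, `φ c4 = y'` and glue the pieces on `insert e Y` and `X5`. Arcs `(c2, c3)`, `(c3, c4)`, `(c4, c5)` from `win`.
-/

set_option autoImplicit false

open Finset Classical

namespace UT35

variable {V : Type} {D H k L s m : ℕ}

theorem zri_plain {X : Finset V} {e c : V} {A : Finset (V × V)} (h : ZLE D H X c A) (he : e ∉ X) :
    ZRI D H s (insert e X) e c A := by
  refine ⟨mem_insert_self _ _, mem_insert_of_mem h.mem, fun a b hab => ?_, ?_⟩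
  · exact ⟨mem_insert_of_mem (h.wf a b hab).1, mem_insert_of_mem (h.wf a b hab).2⟩
  · intro N r ts F σ lo hi adm hiN hlt hloF hsl hcs inv
    rw [card_insert_of_notMem he] at hsl hcs
    have hX1 : 1 ≤ X.card := card_pos.2 ⟨c, h.mem⟩
    obtain ⟨lo1, h1, h2, h3, h4, h5, h6⟩ := next_slot adm hloF (hi := hi) (by omega)
    obtain ⟨φ1, hφ1, hφc⟩ := h.emb N r ts F σ lo1 hi adm hiN h3 h4 (by omega)
      ((inv.mono_int h1.le le_rfl).mono_s (by omega))
    have hne : ∀ x ∈ X, x ≠ e := fun x hx hxe => he (hxe ▸ hx)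
    refine ⟨fun x => if x = e then tau r F lo else φ1 x, ?_, if_pos rfl, ?_⟩
    · have hc : Em r X A (fun x => if x = e then tau r F lo else φ1 x) (VS r F lo1 hi) :=
        hφ1.congr h.wf (Subset.refl X) fun x hx => if_neg (hne x hx)
      have hv := hc.vertex e
      rw [VS_first hloF h1 h5 h3.le]
      simp only [if_pos] at hv
      exact hv
    · have hc : (if c = e then tau r F lo else φ1 c) = tau r F lo1 := by
        rw [if_neg (hne c h.mem), hφc]
      have h7 := tau_le (r := r) (F := F) lo1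
      have h8 := le_tau (r := r) (F := F) lo1
      have h9 := tau_lt (r := r) adm (k := lo1) (by omega)
      simp only [hc]
      omega

theorem zri_st (ok : Ok D H k L) {Y X5 : Finset V} {e c2 c3 c4 c5 : V} {AY A5 : Finset (V × V)}
    (hN : ZNO D H s m Y e AY) (hm : m ≤ D) (hX : ZLE D H X5 c5 A5) (hL : L ≤ Y.card)
    (hn : [e, c2, c3, c4].Nodup) (hx : ∀ x ∈ [e, c2, c3, c4], x ∉ Y ∪ X5) (hd : Disjoint Y X5) :
    ZRI D H s (insert e (insert c2 (insert c3 (insert c4 (Y ∪ X5))))) e c2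
      (insert (c2, c3) (insert (c3, c4) (insert (c4, c5) (AY ∪ A5)))) := by
  have hxe : e ∉ Y ∪ X5 := hx e (by simp)
  have hx2 : c2 ∉ Y ∪ X5 := hx c2 (by simp)
  have hx3 : c3 ∉ Y ∪ X5 := hx c3 (by simp)
  have hx4 : c4 ∉ Y ∪ X5 := hx c4 (by simp)
  have hnn : e ≠ c2 ∧ e ≠ c3 ∧ e ≠ c4 ∧ c2 ≠ c3 ∧ c2 ≠ c4 ∧ c3 ≠ c4 := by
    simp only [List.nodup_cons, List.mem_cons, List.not_mem_nil, or_false, not_or] at hn
    tauto
  obtain ⟨ne2, ne3, ne4, n23, n24, n34⟩ := hnn
  have hcard : (insert e (insert c2 (insert c3 (insert c4 (Y ∪ X5))))).card =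
      Y.card + X5.card + 4 := by
    rw [card_insert_of_notMem, card_insert_of_notMem, card_insert_of_notMem,
      card_insert_of_notMem hx4, card_union_of_disjoint hd]
    · simp only [mem_insert, not_or]
      exact ⟨n34, hx3⟩
    · simp only [mem_insert, not_or]
      exact ⟨n23, n24, hx2⟩
    · simp only [mem_insert, not_or]
      exact ⟨ne2, ne3, ne4, hxe⟩
  have hmemY : ∀ x ∈ insert e Y, x ∈ insert e (insert c2 (insert c3 (insert c4 (Y ∪ X5)))) := by
    intro x hxY
    rcases mem_insert.1 hxY with h | h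
    · exact h ▸ mem_insert_self _ _
    · exact mem_insert_of_mem (mem_insert_of_mem (mem_insert_of_mem (mem_insert_of_mem
        (mem_union_left _ h))))
  have hmemX : ∀ x ∈ X5, x ∈ insert e (insert c2 (insert c3 (insert c4 (Y ∪ X5)))) := by
    intro x hxX
    exact mem_insert_of_mem (mem_insert_of_mem (mem_insert_of_mem (mem_insert_of_mem
        (mem_union_right _ hxX))))
  have m2 : c2 ∈ insert e (insert c2 (insert c3 (insert c4 (Y ∪ X5)))) := by simp
  have m3 : c3 ∈ insert e (insert c2 (insert c3 (insert c4 (Y ∪ X5)))) := by simp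
  have m4 : c4 ∈ insert e (insert c2 (insert c3 (insert c4 (Y ∪ X5)))) := by simp
  refine ⟨mem_insert_self _ _, m2, fun a b hab => ?_, ?_⟩
  · simp only [mem_insert, mem_union, Prod.mk.injEq] at hab
    rcases hab with ⟨rfl, rfl⟩ | ⟨rfl, rfl⟩ | ⟨rfl, rfl⟩ | hab | hab
    · exact ⟨m2, m3⟩
    · exact ⟨m3, m4⟩
    · exact ⟨m4, hmemX _ hX.mem⟩
    · exact ⟨hmemY _ (hN.wf a b hab).1, hmemY _ (hN.wf a b hab).2⟩
    · exact ⟨hmemX _ (hX.wf a b hab).1, hmemX _ (hX.wf a b hab).2⟩
  · intro N r ts F σ lo hi adm hiN hlt hloF hsl hcs inv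
    rw [hcard] at hsl hcs
    have hH := ok.H1
    have hbig := ok.big
    have hX1 : 1 ≤ X5.card := card_pos.2 ⟨c5, hX.mem⟩
    obtain ⟨lo1, h1, h2, h3, h4, h5, h6⟩ := next_slot adm hloF (hi := hi) (by omega)
    obtain ⟨μ, g1, g2, g3, g4, g5⟩ := exists_mid (F := F) (lo := lo1) (hi := hi) (Y.card + 3)
      X5.card hX1 (by omega)
    have hμ := sl_le (F := F) lo1 μ
    -- the station
    have hst : ∀ f ∈ F, ∀ f' ∈ F, lo ≤ f → f < f' → f' < lo + 250 → False := by
      intro f hf f' hf' k1 k2 k3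
      have k4 := inv.sep f hf f' hf' k1 k2 (by omega)
      have k5 := inv.ge hf k1 (by omega)
      have k6 := inv.ge hf' (by omega) (by omega)
      have k7 : s ≤ min (σ f) (σ f') := le_min k5 k6
      have k8 : H * (f' - f) ≤ H * 250 := Nat.mul_le_mul_left H (by omega)
      omega
    obtain ⟨y0, p1, p2, p3⟩ := station hst
    obtain ⟨F3, σ3, o⟩ := one (D := D) (H := H) (r := r) (σ := σ) adm (y := y0) (by omega)
      (by omega) p3
    have o1 := o.tau lo1 (Or.inl (by omega))
    have o2 := o.tau μ (Or.inr (by omega))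
    have o3 := o.tau lo (Or.inl (by omega))
    have o4 := o.slin lo1 μ (by omega) (by omega)
    have o5 := o.out μ hi (Or.inr (by omega))
    have inv3 : Inv D H F3 σ3 (lo1 + 300) μ s 0 :=
      o.invout (lo1 + 300) μ s 0 (Or.inr (by omega)) (inv.mono_int (by omega) (by omega))
    have t1 := tau_le (r := r) (F := F3) μ
    have t2 := le_tau (r := r) (F := F3) μ
    have t3 := tau_lt (r := r) o.adm (k := μ) (by omega)
    obtain ⟨y, y', f1, f2, ap, r1, r2, r3⟩ := win (lo := lo1) (hi := μ) (p := y0)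
      (q := tau r F3 μ) (s := s) ok ts (by omega) (by omega) (Nat.zero_le _) inv3 (by omega)
      (by omega) (by omega) (by omega) t3
    obtain ⟨F5, σ5, t⟩ := two (D := D) (r := r) (σ := σ3) o.adm (by omega) f1 f2 ap
    have w1 := t.tau lo1 (Or.inl (by omega))
    have w2 := t.tau μ (Or.inr (by omega))
    have w3 := t.tau lo (Or.inl (by omega))
    have w4 := t.slin
    have w5 := t.out μ hi (Or.inr (by omega))
    have hlo5 : lo ∉ F5 := by
      rw [w3.1, o3.1]
      exact hloF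
    have hlo15 : lo1 ∉ F5 := by
      rw [w1.1, o1.1]
      exact h4
    have hμ5 : μ ∉ F5 := by
      rw [w2.1, o2.1]
      exact g3
    have inv5 : Inv D H F5 σ5 (lo1 + 300) μ s 2 :=
      t.invin (lo1 + 300) μ s 0 (fun f _ q1 q2 => ⟨by omega, q2⟩) inv3
    obtain ⟨φY, hφY, hφYe⟩ := hN.emb N r ts F5 σ5 lo lo1 μ 2 t.adm (by omega) h1 hlo5
      (fun j j1 j2 => t.sub (o.sub (h5 j j1 j2))) (by omega) hlo15 (by omega) (by omega)
      (by omega) inv5 (by
        intro f hf q1 q2
        rcases t.mem f hf with hf3 | rfl | rfl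
        · rcases o.mem f hf3 with hfF | rfl
          · rw [t.old f hf3, o.old f hfF]
            have := inv.ge hfF (by omega) (by omega)
            omega
          · omega
        · rw [t.new.1]
          omega
        · rw [t.new.2]
          omega)
    obtain ⟨φX, hφX, hφXc⟩ := hX.emb N r ts F5 σ5 μ hi t.adm hiN g2 hμ5
      (by rw [w5.1, o5.1]; exact g5)
      (t.invout μ hi _ 0 (Or.inr (by omega)) (o.invout μ hi _ 0 (Or.inr (by omega))
        ((inv.mono_int (by omega) le_rfl).mono_s (by omega))))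
    -- the map
    obtain ⟨φ, hφ⟩ : ∃ φ : V → ℕ, φ = fun x => if x = c2 then y0 else if x = c3 then y else
      if x = c4 then y' else if x ∈ X5 then φX x else φY x := ⟨_, rfl⟩
    have v2 : φ c2 = y0 := by
      rw [hφ]
      exact if_pos rfl
    have v3 : φ c3 = y := by
      rw [hφ]
      simp only
      rw [if_neg n23.symm, if_pos trivial]
    have v4 : φ c4 = y' := by
      rw [hφ]
      simp only
      rw [if_neg n24.symm, if_neg n34.symm, if_pos trivial]
    have vX : ∀ x ∈ X5, φ x = φX x := by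
      intro x hxX
      have q2 : x ≠ c2 := fun h => hx2 (mem_union_right _ (h ▸ hxX))
      have q3 : x ≠ c3 := fun h => hx3 (mem_union_right _ (h ▸ hxX))
      have q4 : x ≠ c4 := fun h => hx4 (mem_union_right _ (h ▸ hxX))
      rw [hφ]
      simp only
      rw [if_neg q2, if_neg q3, if_neg q4, if_pos hxX]
    have vY : ∀ x ∈ insert e Y, φ x = φY x := by
      intro x hxY
      have q : x ≠ c2 ∧ x ≠ c3 ∧ x ≠ c4 ∧ x ∉ X5 := by
        rcases mem_insert.1 hxY with h | h
        · rw [h]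
          exact ⟨ne2, ne3, ne4, fun h' => hxe (mem_union_right _ h')⟩
        · exact ⟨fun h' => hx2 (mem_union_left _ (h' ▸ h)),
            fun h' => hx3 (mem_union_left _ (h' ▸ h)), fun h' => hx4 (mem_union_left _ (h' ▸ h)),
            fun h' => disjoint_left.1 hd h h'⟩
      rw [hφ]
      simp only
      rw [if_neg q.1, if_neg q.2.1, if_neg q.2.2.1, if_neg q.2.2.2]
    have ve : φ e = tau r F lo := by
      rw [vY e (mem_insert_self _ _), hφYe, w3.2, o3.2]
    have vc5 : φ c5 = tau r F3 μ := by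
      rw [vX c5 hX.mem, hφXc, w2.2]
    have eY : Em r Y AY φ (VS r F5 lo1 μ) := hφY.congr hN.wf (subset_insert _ _) vY
    have eX : Em r X5 A5 φ (VS r F5 μ hi) := hφX.congr hX.wf (Subset.refl _) vX
    have eU := ((((eY.union eX).vertex c4).vertex c3).vertex c2).vertex e
    rw [v2, v3, v4, ve] at eU
    have hVS : VS r F lo hi = insert (tau r F lo) (insert y0 (insert y (insert y'
        (VS r F5 lo1 μ ∪ VS r F5 μ hi)))) := by
      rw [VS_first hloF h1 h5 h3.le, VS_split g1 g2.le, o.VSin lo1 μ (by omega) (by omega),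
        t.VSin, ← o5.2, ← w5.2, insert_union, insert_union, insert_union]
    rw [← hVS] at eU
    refine ⟨φ, ((eU.arcs (a := c4) (b := c5) ?_).arcs (a := c3) (b := c4) ?_).arcs (a := c2)
      (b := c3) ?_, ve, ?_, ?_, ?_⟩
    · rw [v4, vc5]
      exact r3
    · rw [v3, v4]
      exact r2
    · rw [v2, v3]
      exact r1
    · rw [v2]
      omega
    · rw [v2]
      omega
    · rw [v2]
      omega

end UT35
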