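import Pool.Agent.UT35.TDefs
import Pool.Agent.UT35.Two
import Pool.Agent.UT35.EmL
import Pool.Agent.UT35.Win

/-!
# [UT35-ZTL] left part of a turn without exit

Let `ζ = hi - 1` (a slot). `lo1` = next slot after `lo` (`next_slot`; `lo1 ≤ ζ` as there are many slots). `sl F lo1 ζ = Y.card + Z.card + 1`
(total number `Y.card + Z.card + 3`, without `lo` and `ζ`: `sl_split`, `sl_one`). `win` for the window `[lo1, ζ)`, `p = tau r F lo`, `q = tau r F ζ`, `e = 0`, then `two`: `F2`, `σ2`, `y`, `y'`.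
Now `sl F2 lo1 ζ = Y.card + Z.card - 1`. `exists_mid` for `F2` and `[lo1, hi)` (`sl F2 lo1 hi = Y.card + Z.card`): `γ ∉ F2` with `sl F2 lo1 γ = Y.card`, `sl F2 γ hi = Z.card`.
`zni_opt` for `F2`, `σ2`, `[lo1, γ)`, `β = γ`, `e = 2` (`Two.invin` for the interval `[lo1, ζ)`, `Inv.mono_int`; scales: old floats `≥ s` by `Inv.ge`, new ones `Y.card + Z.card + 1`).
`hZ.emb` for `F2`, `σ2`, `[γ, hi)` : `hi - 1 = ζ ∉ F2`; sparsity `e = 2 ≤ 8` on `[γ, hi)` (the position `ζ` is not a float, so `Inv D H F σ lo hi s 0` gives via `Two.invin` with `a = lo1`, `b = hi`: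
every float in `[lo1, hi)` is in `[lo1, ζ)`); scales `≥ Z.card`.
Vertices: `VS r F lo hi = insert (tau r F lo) (VS r F lo1 ζ ∪ {tau r F ζ})` (`VS_first`, `VS_split`, `VS_one`), `VS r F lo1 ζ = insert y (insert y' (VS r F2 lo1 ζ))`, and
`VS r F2 lo1 γ ∪ VS r F2 γ hi = VS r F2 lo1 hi = VS r F2 lo1 ζ ∪ {tau r F2 ζ}`.
Put `φ u = tau r F lo`, `φ f1 = y`, `φ f2 = y'` and glue the pieces on `insert g Y` and `Z` (they agree at `g ∈ Z`: both values are `tau r F2 γ`).
-/

set_option autoImplicit false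

open Finset Classical

namespace UT35

variable {V : Type} {D H k L s m : ℕ}

theorem ztl (ok : Ok D H k L) {Y Z : Finset V} {u f1 f2 g e : V} {Ag Az : Finset (V × V)}
    (hY : NestI D H s Y g Ag) (hZ : ZSP D H s Z g e Az) (hL : L ≤ Z.card) (hn : [u, f1, f2].Nodup)
    (hx : ∀ x ∈ [u, f1, f2], x ∉ Y ∪ Z) (hd : Disjoint Y Z) :
    ZTL D H s (insert u (insert f1 (insert f2 (Y ∪ Z)))) u e
      (insert (u, f1) (insert (f1, f2) (insert (f2, e) (Ag ∪ Az)))) := by
  have hn' : u ≠ f1 ∧ u ≠ f2 ∧ f1 ≠ f2 := by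
    simp only [List.nodup_cons, List.mem_cons, List.not_mem_nil, or_false, not_or] at hn
    exact ⟨hn.1.1, hn.1.2, hn.2.1⟩
  obtain ⟨hu1, hu2, h12⟩ := hn'
  have hxu : u ∉ Y ∪ Z := hx u (by simp)
  have hx1 : f1 ∉ Y ∪ Z := hx f1 (by simp)
  have hx2 : f2 ∉ Y ∪ Z := hx f2 (by simp)
  have hg : g ∈ Z := hZ.memu
  have he : e ∈ Z := hZ.memz
  have hAg : ∀ a b, (a, b) ∈ Ag → a ∈ insert g Y ∧ b ∈ insert g Y := by
    intro a b hab
    rcases hY with ⟨-, hA⟩ | ⟨m, -, hm⟩
    · rw [hA] at hab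
      exact absurd hab (notMem_empty _)
    · have h3 : (b, a) ∈ Ag.image Prod.swap := mem_image.mpr ⟨(a, b), hab, rfl⟩
      exact ⟨(hm.wf b a h3).2, (hm.wf b a h3).1⟩
  have hcard : (insert u (insert f1 (insert f2 (Y ∪ Z)))).card = Y.card + Z.card + 3 := by
    rw [card_insert_of_notMem, card_insert_of_notMem, card_insert_of_notMem hx2, card_union_of_disjoint hd]
    · rw [mem_insert, not_or]
      exact ⟨h12, hx1⟩
    · rw [mem_insert, mem_insert, not_or, not_or]
      exact ⟨hu1, hu2, hxu⟩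
  have key : ∀ x, x = u ∨ x = f1 ∨ x = f2 ∨ x ∈ Y ∨ x ∈ Z →
      x ∈ insert u (insert f1 (insert f2 (Y ∪ Z))) := by
    intro x hx
    simp only [mem_insert, mem_union]
    exact hx
  refine ⟨key u (Or.inl rfl), key e (by tauto), ?_, ?_⟩
  · intro a b hab
    simp only [mem_insert, mem_union, Prod.mk.injEq] at hab
    rcases hab with ⟨ha, hb⟩ | ⟨ha, hb⟩ | ⟨ha, hb⟩ | hab | hab
    · exact ⟨key a (Or.inl ha), key b (Or.inr (Or.inl hb))⟩
    · exact ⟨key a (Or.inr (Or.inl ha)), key b (Or.inr (Or.inr (Or.inl hb)))⟩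
    · refine ⟨key a (Or.inr (Or.inr (Or.inl ha))), key b ?_⟩
      rw [hb]
      exact Or.inr (Or.inr (Or.inr (Or.inr he)))
    · have hh := hAg a b hab
      simp only [mem_insert] at hh
      refine ⟨key a ?_, key b ?_⟩
      · rcases hh.1 with hh | hh
        · rw [hh]; tauto
        · tauto
      · rcases hh.2 with hh | hh
        · rw [hh]; tauto
        · tauto
    · have hh := hZ.wf a b hab
      exact ⟨key a (by tauto), key b (by tauto)⟩
  · intro N r ts F σ lo hi adm hhi hlh hloF hζF hsl hs inv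
    rw [hcard] at hsl hs
    have hb1 := ok.big
    have hb2 := ok.H1
    obtain ⟨ζ, hζ⟩ : ∃ ζ, hi = ζ + 1 := ⟨hi - 1, by omega⟩
    have hζ1 : hi - 1 = ζ := by omega
    rw [hζ1] at hζF ⊢
    obtain ⟨lo1, hl1, hl2, hl3, hl4, hl5, hl6⟩ := next_slot adm hloF (by omega : 2 ≤ sl F lo hi)
    have hone : sl F ζ hi = 1 := by
      rw [hζ]
      exact sl_one hζF
    have hlζ : lo1 ≤ ζ := by omega
    have hsp := sl_split (F := F) hlζ (by omega : ζ ≤ hi)
    have hslw : sl F lo1 ζ = Y.card + Z.card + 1 := by omega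
    have hlen := sl_le (F := F) lo1 ζ
    have inv1 : Inv D H F σ lo1 hi s 0 := inv.mono_int hl1.le le_rfl
    have tb1 := tau_le (r := r) (F := F) lo
    have tb2 := le_tau (r := r) (F := F) lo
    have tm1 := tau_le (r := r) (F := F) ζ
    have tm2 := le_tau (r := r) (F := F) ζ
    have tmN : tau r F ζ < N := tau_lt adm (by omega)
    obtain ⟨y, y', fl1, fl2, ap, r1, r2, r3⟩ :=
      win (p := tau r F lo) (q := tau r F ζ) ok ts (by omega : L ≤ sl F lo1 ζ) (by omega : sl F lo1 ζ ≤ s)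
        (by omega : 0 ≤ 2 * D + 12) (inv1.mono_int (by omega) (by omega)) (by omega) (by omega) (by omega)
        (by omega) tmN
    obtain ⟨F2, σ2, T⟩ := two (D := D) (σ := σ) (r := r) adm (by omega : ζ ≤ N) fl1 fl2 ap
    have hslin := T.slin
    have tlo := T.tau lo (Or.inl (by omega))
    have tlo1 := T.tau lo1 (Or.inl (by omega))
    have tζ := T.tau ζ (Or.inr (by omega))
    have toutζ := T.out ζ hi (Or.inr (by omega))
    have hζF2 : ζ ∉ F2 := fun hh => hζF (tζ.1.mp hh)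
    have hlo1F2 : lo1 ∉ F2 := fun hh => hl4 (tlo1.1.mp hh)
    have hsp2 := sl_split (F := F2) hlζ (by omega : ζ ≤ hi)
    have hsl2 : sl F2 lo1 hi = Y.card + Z.card := by
      rw [hsp2, toutζ.1]
      omega
    have hZpos : 1 ≤ Z.card := card_pos.mpr ⟨g, hg⟩
    obtain ⟨γ, hγ1, hγ2, hγF, hslγ, hslγ'⟩ := exists_mid (F := F2) (lo := lo1) (hi := hi) Y.card Z.card hZpos hsl2
    have inv2 : Inv D H F2 σ2 lo1 hi s 2 := T.invin lo1 hi s 0 (by
      intro f hf h3 h4
      refine ⟨h3, ?_⟩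
      have : f ≠ ζ := fun hh => hζF (hh ▸ hf)
      omega) inv1
    have hσ2 : ∀ f ∈ F2, lo1 ≤ f → f < hi → Y.card + Z.card + 1 ≤ σ2 f := by
      intro f hf h3 h4
      rcases T.mem f hf with hf' | hf' | hf'
      · rw [T.old f hf']
        have := inv1.ge hf' h3 h4
        omega
      · rw [hf', T.new.1]
        omega
      · rw [hf', T.new.2]
        omega
    obtain ⟨φ1, em1, e1v⟩ := zni_opt hY ts (F := F2) (σ := σ2) (β := γ) (lo := lo1) (e := 2) T.adm (by omega)
      hγ1 hlo1F2 hγF hslγ (by omega) (by omega) (inv2.mono_int le_rfl hγ2.le) (by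
        intro f hf h3 h4
        have := hσ2 f hf h3 (by omega)
        omega)
    obtain ⟨φ2, em2, e2u, e2z⟩ := hZ.emb N r ts F2 σ2 γ hi T.adm hhi hγ2 hγF (by rw [hζ1]; exact hζF2) hslγ'
      (by omega) ((inv2.mono_int hγ1 le_rfl).mono_e (by omega)) (by
        intro f hf h3 h4
        have := hσ2 f hf (by omega) h4
        omega)
    rw [hζ1] at e2z
    -- the combined map
    obtain ⟨ψ, hψ⟩ : ∃ ψ : V → ℕ, ψ = fun x => if x = u then tau r F lo else if x = f1 then y else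
        if x = f2 then y' else if x ∈ Z then φ2 x else φ1 x := ⟨_, rfl⟩
    have p0 : ψ u = tau r F lo := by
      rw [hψ]
      simp only [if_true]
    have p1 : ψ f1 = y := by
      rw [hψ]
      simp only [if_neg (Ne.symm hu1), if_true]
    have p2 : ψ f2 = y' := by
      rw [hψ]
      simp only [if_neg (Ne.symm hu2), if_neg (Ne.symm h12), if_true]
    have hne : ∀ x ∈ Y ∪ Z, x ≠ u ∧ x ≠ f1 ∧ x ≠ f2 := by
      intro x hx
      exact ⟨fun hh => hxu (hh ▸ hx), fun hh => hx1 (hh ▸ hx), fun hh => hx2 (hh ▸ hx)⟩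
    have pZ : ∀ x ∈ Z, ψ x = φ2 x := by
      intro x hx
      obtain ⟨g0, g1, g2⟩ := hne x (mem_union_right _ hx)
      rw [hψ]
      simp only [if_neg g0, if_neg g1, if_neg g2, if_pos hx]
    have pY : ∀ x ∈ insert g Y, ψ x = φ1 x := by
      intro x hx
      rcases mem_insert.mp hx with hx | hx
      · rw [hx, pZ g hg, e2u, e1v]
      · obtain ⟨g0, g1, g2⟩ := hne x (mem_union_left _ hx)
        have g3 : x ∉ Z := disjoint_left.mp hd hx
        rw [hψ]
        simp only [if_neg g0, if_neg g1, if_neg g2, if_neg g3]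
    have pe : ψ e = tau r F ζ := by
      rw [pZ e he, e2z, tζ.2]
    have em1' : Em r Y Ag ψ (VS r F2 lo1 γ) := em1.congr hAg (subset_insert _ _) pY
    have em2' : Em r Z Az ψ (VS r F2 γ hi) := em2.congr hZ.wf (Subset.refl _) pZ
    have em3 := (((em1'.union em2').vertex f2).vertex f1).vertex u
    have em4 := ((em3.arcs (a := f2) (b := e) (by rw [p2, pe]; exact r3)).arcs (a := f1) (b := f2)
      (by rw [p1, p2]; exact r2)).arcs (a := u) (b := f1) (by rw [p0, p1]; exact r1)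
    refine ⟨ψ, ?_, p0, pe⟩
    have hT : VS r F lo hi = insert (ψ u) (insert (ψ f1) (insert (ψ f2) (VS r F2 lo1 γ ∪ VS r F2 γ hi))) := by
      rw [VS_first hloF hl1 hl5 hl3.le, VS_split hlζ (by omega : ζ ≤ hi), T.VSin, p0, p1, p2,
        ← VS_split hγ1 hγ2.le, VS_split (F := F2) hlζ (by omega : ζ ≤ hi), toutζ.2, insert_union, insert_union]
    rw [hT]
    exact em4

end UT35
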