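import Pool.Agent.UT35.TDefs
import Pool.Agent.UT35.Two
import Pool.Agent.UT35.EmL

/-!
# [UT35-ZTURN] putting together the two parts of a turn

Both theorems: `(XL ∪ X3).card = s` (`card_union_add_card_inter`). `exists_mid` for `[lo, hi)` with `a = XL.card - 1`, `c = X3.card ≥ 1` gives a slot `ζ`, `sl F lo ζ = XL.card - 1`,
`sl F ζ hi = X3.card`, so `sl F lo (ζ + 1) = XL.card` (`sl_split`, `sl_one`). Apply the left part to `[lo, ζ + 1)` (`XL.card ≤ s`, `Inv.mono_int`) and the right part to `[ζ, hi)`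
(`Inv.mono_s` for `zle_tl`). For `zle_tx` apply the right part first and take `q = φ c2`: `ζ ≤ q + 10`, so `ζ + 1 ≤ q + 11`, and `q ≤ ζ + 300 = (ζ + 1) + 299`.
Both embeddings have the value `tau r F ζ` at `e`, so they can be glued (`glue`, `Em.congr`, `Em.union`); `VS r F lo hi = VS r F lo (ζ + 1) ∪ VS r F ζ hi` (`VS_split`, `VS_one` : the
vertex `tau r F ζ` is in both).
-/

set_option autoImplicit false

open Finset Classical

namespace UT35

variable {V : Type} {D H s : ℕ}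

private theorem card_s {XL X3 : Finset V} {e : V} (hs : s + 1 = XL.card + X3.card) (hi : XL ∩ X3 = {e}) :
    (XL ∪ X3).card = s := by
  have h1 := card_union_add_card_inter XL X3
  rw [hi, card_singleton] at h1
  omega

private theorem VS_mid {r : ℕ → ℕ → Prop} {F : Finset ℕ} {lo ζ hi : ℕ} (h1 : lo ≤ ζ) (h2 : ζ < hi) (h3 : ζ ∉ F) :
    VS r F lo hi = VS r F lo (ζ + 1) ∪ VS r F ζ hi := by
  have e1 : VS r F lo hi = VS r F lo ζ ∪ VS r F ζ hi := VS_split h1 (by omega)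
  have e2 : VS r F ζ hi = VS r F ζ (ζ + 1) ∪ VS r F (ζ + 1) hi := VS_split (by omega) (by omega)
  have e3 : VS r F lo (ζ + 1) = VS r F lo ζ ∪ VS r F ζ (ζ + 1) := VS_split h1 (by omega)
  have e4 : VS r F ζ (ζ + 1) = {tau r F ζ} := VS_one h3
  rw [e1, e3, e2, e4]
  ext z
  simp only [mem_union, mem_singleton]
  tauto

private theorem glue_em {XL X3 : Finset V} {e : V} {AL A3 : Finset (V × V)} (hi : XL ∩ X3 = {e})
    {r : ℕ → ℕ → Prop} {T1 T2 : Finset ℕ} {φ1 φ2 : V → ℕ} (h1 : Em r XL AL φ1 T1) (h2 : Em r X3 A3 φ2 T2)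
    (w1 : ∀ a b, (a, b) ∈ AL → a ∈ XL ∧ b ∈ XL) (w2 : ∀ a b, (a, b) ∈ A3 → a ∈ X3 ∧ b ∈ X3)
    (he : φ1 e = φ2 e) :
    ∃ φ : V → ℕ, Em r (XL ∪ X3) (AL ∪ A3) φ (T1 ∪ T2) ∧ (∀ x ∈ XL, φ x = φ1 x) ∧ ∀ x ∈ X3, φ x = φ2 x := by
  obtain ⟨φ, g1, g2⟩ := glue XL X3 φ1 φ2 (by
    intro x hx hx'
    have hm : x ∈ XL ∩ X3 := mem_inter.mpr ⟨hx, hx'⟩
    rw [hi, mem_singleton] at hm
    rw [hm]
    exact he)
  exact ⟨φ, (h1.congr w1 (Subset.refl _) g1).union (h2.congr w2 (Subset.refl _) g2), g1, g2⟩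

theorem zle_tl {XL X3 : Finset V} {u e : V} {AL A3 : Finset (V × V)} (hT : ZTL D H s XL u e AL)
    (hX : ZLE D H X3 e A3) (hs : s + 1 = XL.card + X3.card) (hi : XL ∩ X3 = {e}) :
    ZLE D H (XL ∪ X3) u (AL ∪ A3) := by
  have hc := card_s hs hi
  have hL : 1 ≤ XL.card := card_pos.mpr ⟨u, hT.memu⟩
  have hR : 1 ≤ X3.card := card_pos.mpr ⟨e, hX.mem⟩
  refine ⟨mem_union_left _ hT.memu, ?_, ?_⟩
  · intro a b hab
    rcases mem_union.mp hab with h | h
    · exact ⟨mem_union_left _ (hT.wf a b h).1, mem_union_left _ (hT.wf a b h).2⟩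
    · exact ⟨mem_union_right _ (hX.wf a b h).1, mem_union_right _ (hX.wf a b h).2⟩
  · intro N r ts F σ lo hi' adm hN hlt hlo hsl inv
    rw [hc] at hsl inv
    obtain ⟨ζ, z1, z2, z3, z4, z5⟩ := exists_mid (F := F) (lo := lo) (hi := hi') (XL.card - 1) X3.card hR
      (by rw [hsl]; omega)
    have z6 : sl F lo (ζ + 1) = XL.card := by
      rw [sl_split z1 (Nat.le_succ ζ), z4, sl_one z3]
      omega
    obtain ⟨φ1, p1, p2, p3⟩ := hT.emb N r ts F σ lo (ζ + 1) adm (by omega) (by omega) hlo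
      (by rw [Nat.add_sub_cancel]; exact z3) z6 (by omega) (inv.mono_int (le_refl _) (by omega))
    obtain ⟨φ2, q1, q2⟩ := hX.emb N r ts F σ ζ hi' adm hN z2 z3 z5
      ((inv.mono_int z1 (le_refl _)).mono_s (by omega))
    rw [Nat.add_sub_cancel] at p3
    obtain ⟨φ, g1, g2, g3⟩ := glue_em hi p1 q1 hT.wf hX.wf (p3.trans q2.symm)
    refine ⟨φ, ?_, ?_⟩
    · rw [VS_mid z1 z2 z3]
      exact g1
    · rw [g2 u hT.memu]
      exact p2

theorem zle_tx {XL X3 : Finset V} {u e c1 c2 : V} {AL A3 : Finset (V × V)} (hT : ZTX D H s XL u e c1 AL)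
    (hX : ZRI D H s X3 e c2 A3) (hs : s + 1 = XL.card + X3.card) (hi : XL ∩ X3 = {e}) :
    ZLE D H (XL ∪ X3) u (insert (c1, c2) (AL ∪ A3)) := by
  have hc := card_s hs hi
  have hL : 1 ≤ XL.card := card_pos.mpr ⟨u, hT.memu⟩
  have hR : 1 ≤ X3.card := card_pos.mpr ⟨e, hX.meme⟩
  refine ⟨mem_union_left _ hT.memu, ?_, ?_⟩
  · intro a b hab
    rcases mem_insert.mp hab with h | h
    · rw [Prod.mk.injEq] at h
      rw [h.1, h.2]
      exact ⟨mem_union_left _ hT.memc, mem_union_right _ hX.memc⟩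
    rcases mem_union.mp h with h | h
    · exact ⟨mem_union_left _ (hT.wf a b h).1, mem_union_left _ (hT.wf a b h).2⟩
    · exact ⟨mem_union_right _ (hX.wf a b h).1, mem_union_right _ (hX.wf a b h).2⟩
  · intro N r ts F σ lo hi' adm hN hlt hlo hsl inv
    rw [hc] at hsl inv
    obtain ⟨ζ, z1, z2, z3, z4, z5⟩ := exists_mid (F := F) (lo := lo) (hi := hi') (XL.card - 1) X3.card hR
      (by rw [hsl]; omega)
    have z6 : sl F lo (ζ + 1) = XL.card := by
      rw [sl_split z1 (Nat.le_succ ζ), z4, sl_one z3]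
      omega
    obtain ⟨φ2, q1, q2, q3, q4, q5⟩ := hX.emb N r ts F σ ζ hi' adm hN z2 z3 z5 (by omega)
      (inv.mono_int z1 (le_refl _))
    obtain ⟨φ1, p1, p2, p3, p4⟩ := hT.emb N r ts F σ lo (ζ + 1) (φ2 c2) adm (by omega) (by omega) hlo
      (by rw [Nat.add_sub_cancel]; exact z3) z6 (by omega) (inv.mono_int (le_refl _) (by omega))
      (by omega) (by omega) q5
    rw [Nat.add_sub_cancel] at p3
    obtain ⟨φ, g1, g2, g3⟩ := glue_em hi p1 q1 hT.wf hX.wf (p3.trans q2.symm)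
    refine ⟨φ, ?_, ?_⟩
    · rw [VS_mid z1 z2 z3]
      refine g1.arcs ?_
      rw [g2 c1 hT.memc, g3 c2 hX.memc]
      exact p4
    · rw [g2 u hT.memu]
      exact p2

end UT35
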