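import Pool.Agent.UT35.TDefs
import Pool.Agent.UT35.Two
import Pool.Agent.UT35.EmL
import Pool.Agent.UT35.Win

/-!
# [UT35-ZTX] left part of a turn with an exit

Let `ζ = hi - 1` (a slot). `lo1` = next slot after `lo` (`next_slot`; `lo1 ≤ ζ` as there are many slots). The total number of slots is `Y.card + Z.card + 5`, so
`sl F lo1 ζ = Y.card + Z.card + 3` (`sl_split`, `sl_one`). `win` for the window `[lo1, ζ)`, `p = tau r F lo`, target `tau r F ζ`, `e = 0`, then `two`: `F2`, `σ2`, new floats `y`, `y'`.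
`sl F2 lo1 ζ = Y.card + Z.card + 1`, `sl F2 lo1 hi = Y.card + Z.card + 2`. `exists_mid` for `F2` and `[lo1, hi)`: `γ ∉ F2` with `sl F2 lo1 γ = Y.card`, `sl F2 γ hi = Z.card + 2`.
`sl F2 γ ζ = Z.card + 1`. `win` for `F2`, `σ2`, the window `[γ, ζ)`, `e = 2` (sparsity by `Two.invin`, `Inv.mono_int`), `p = tau r F2 γ`, target `q` (`ζ ≤ q + 10`,
`q ≤ ζ + 300`, `q < N`), then `two` : `F4`, `σ4`, new floats `w`, `w'` (scale `Z.card + 1`). `tau r F4` agrees with `tau r F2` at `lo`, `γ`, `ζ`, and `tau r F2` with `tau r F` at `lo`, `ζ`.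
`zni_opt` for `F4`, `σ4`, `[lo1, γ)`, `β = γ`, `e = 2` (`Two.invout`: `γ ≤ γ + 300`; scales: old floats `≥ s` by `Inv.ge`, `y`, `y'` have scale `Y.card + Z.card + 3`; `w`, `w'` are not in `[lo1, γ)`).
`hZ.emb` for `F4`, `σ4`, `[γ, hi)` : `hi - 1 = ζ ∉ F4`; sparsity `e = 4 ≤ 8` on `[γ, hi)` (`Two.invin` twice: the floats of `F2` in `[γ, hi)` are in `[γ, ζ)`, the floats of `F` in `[γ, hi)` are in `[lo1, ζ)`);
all scales are `≥ Z.card`; `sl F4 γ hi = Z.card`.
Vertices: `VS r F lo hi = insert (tau r F lo) (VS r F lo1 ζ ∪ {tau r F ζ})` (`VS_first`, `VS_split`, `VS_one`), `VS r F lo1 ζ = insert y (insert y' (VS r F2 lo1 ζ))`,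
`VS r F2 lo1 ζ = VS r F2 lo1 γ ∪ VS r F2 γ ζ`, `VS r F2 γ ζ = insert w (insert w' (VS r F4 γ ζ))`.
Put `φ u = tau r F lo`, `φ f1 = y`, `φ f2 = y'`, `φ c0 = w`, `φ c1 = w'` and glue the pieces on `insert g Y` and `Z` (they agree at `g ∈ Z`: both values are `tau r F4 γ`).
Arcs `(u, f1)`, `(f1, f2)`, `(f2, e)` from the first `win`, `(g, c0)`, `(c0, c1)` and `r (φ c1) q` from the second.
-/

set_option autoImplicit false

open Finset Classical

namespace UT35

variable {V : Type} {D H k L s m : ℕ}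

theorem ztx (ok : Ok D H k L) {Y Z : Finset V} {u f1 f2 g e c0 c1 : V} {Ag Az : Finset (V × V)}
    (hY : NestI D H s Y g Ag) (hZ : ZSP D H s Z g e Az) (hL : L ≤ Z.card) (hn : [u, f1, f2, c0, c1].Nodup)
    (hx : ∀ x ∈ [u, f1, f2, c0, c1], x ∉ Y ∪ Z) (hd : Disjoint Y Z) :
    ZTX D H s (insert u (insert f1 (insert f2 (insert c0 (insert c1 (Y ∪ Z)))))) u e c1
      (insert (u, f1) (insert (f1, f2) (insert (f2, e) (insert (g, c0) (insert (c0, c1) (Ag ∪ Az)))))) := by
  have hn' : (u ≠ f1 ∧ u ≠ f2 ∧ u ≠ c0 ∧ u ≠ c1) ∧ (f1 ≠ f2 ∧ f1 ≠ c0 ∧ f1 ≠ c1) ∧ (f2 ≠ c0 ∧ f2 ≠ c1) ∧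
      c0 ≠ c1 := by
    simp only [List.nodup_cons, List.mem_cons, List.not_mem_nil, or_false, not_or, List.nodup_nil, and_true] at hn
    tauto
  obtain ⟨⟨hu1, hu2, hu3, hu4⟩, ⟨h12, h13, h14⟩, ⟨h23, h24⟩, h34⟩ := hn'
  have hxu : u ∉ Y ∪ Z := hx u (by simp)
  have hx1 : f1 ∉ Y ∪ Z := hx f1 (by simp)
  have hx2 : f2 ∉ Y ∪ Z := hx f2 (by simp)
  have hx3 : c0 ∉ Y ∪ Z := hx c0 (by simp)
  have hx4 : c1 ∉ Y ∪ Z := hx c1 (by simp)
  have hg : g ∈ Z := hZ.memu
  have he : e ∈ Z := hZ.memz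
  have hAg : ∀ a b, (a, b) ∈ Ag → a ∈ insert g Y ∧ b ∈ insert g Y := by
    intro a b hab
    rcases hY with ⟨-, hA⟩ | ⟨m, -, hm⟩
    · rw [hA] at hab
      exact absurd hab (notMem_empty _)
    · have h3 : (b, a) ∈ Ag.image Prod.swap := mem_image.mpr ⟨(a, b), hab, rfl⟩
      exact ⟨(hm.wf b a h3).2, (hm.wf b a h3).1⟩
  have hcard : (insert u (insert f1 (insert f2 (insert c0 (insert c1 (Y ∪ Z)))))).card = Y.card + Z.card + 5 := by
    rw [card_insert_of_notMem, card_insert_of_notMem, card_insert_of_notMem, card_insert_of_notMem,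
      card_insert_of_notMem hx4, card_union_of_disjoint hd]
    · rw [mem_insert, not_or]
      exact ⟨h34, hx3⟩
    · rw [mem_insert, mem_insert, not_or, not_or]
      exact ⟨h23, h24, hx2⟩
    · rw [mem_insert, mem_insert, mem_insert, not_or, not_or, not_or]
      exact ⟨h12, h13, h14, hx1⟩
    · rw [mem_insert, mem_insert, mem_insert, mem_insert, not_or, not_or, not_or, not_or]
      exact ⟨hu1, hu2, hu3, hu4, hxu⟩
  have key : ∀ x, x = u ∨ x = f1 ∨ x = f2 ∨ x = c0 ∨ x = c1 ∨ x ∈ Y ∨ x ∈ Z →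
      x ∈ insert u (insert f1 (insert f2 (insert c0 (insert c1 (Y ∪ Z))))) := by
    intro x hx
    simp only [mem_insert, mem_union]
    exact hx
  have kZ : ∀ x ∈ Z, x ∈ insert u (insert f1 (insert f2 (insert c0 (insert c1 (Y ∪ Z))))) := fun x hx =>
    key x (Or.inr (Or.inr (Or.inr (Or.inr (Or.inr (Or.inr hx))))))
  have kY : ∀ x ∈ insert g Y, x ∈ insert u (insert f1 (insert f2 (insert c0 (insert c1 (Y ∪ Z))))) := by
    intro x hx
    rcases mem_insert.mp hx with hx | hx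
    · rw [hx]
      exact kZ g hg
    · exact key x (Or.inr (Or.inr (Or.inr (Or.inr (Or.inr (Or.inl hx))))))
  have k0 := key u (Or.inl rfl)
  have k1 := key f1 (Or.inr (Or.inl rfl))
  have k2 := key f2 (Or.inr (Or.inr (Or.inl rfl)))
  have k3 := key c0 (Or.inr (Or.inr (Or.inr (Or.inl rfl))))
  have k4 := key c1 (Or.inr (Or.inr (Or.inr (Or.inr (Or.inl rfl)))))
  refine ⟨k0, kZ e he, k4, ?_, ?_⟩
  · intro a b hab
    rcases mem_insert.mp hab with hab | hab
    · rw [Prod.mk.injEq] at hab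
      rw [hab.1, hab.2]
      exact ⟨k0, k1⟩
    rcases mem_insert.mp hab with hab | hab
    · rw [Prod.mk.injEq] at hab
      rw [hab.1, hab.2]
      exact ⟨k1, k2⟩
    rcases mem_insert.mp hab with hab | hab
    · rw [Prod.mk.injEq] at hab
      rw [hab.1, hab.2]
      exact ⟨k2, kZ e he⟩
    rcases mem_insert.mp hab with hab | hab
    · rw [Prod.mk.injEq] at hab
      rw [hab.1, hab.2]
      exact ⟨kZ g hg, k3⟩
    rcases mem_insert.mp hab with hab | hab
    · rw [Prod.mk.injEq] at hab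
      rw [hab.1, hab.2]
      exact ⟨k3, k4⟩
    rcases mem_union.mp hab with hab | hab
    · have hh := hAg a b hab
      exact ⟨kY a hh.1, kY b hh.2⟩
    · have hh := hZ.wf a b hab
      exact ⟨kZ a hh.1, kZ b hh.2⟩
  · intro N r ts F σ lo hi q adm hhi hlh hloF hζF hsl hs inv hq1 hq2 hqN
    rw [hcard] at hsl hs
    have hb1 := ok.big
    have hb2 := ok.H1
    obtain ⟨ζ, hζ⟩ : ∃ ζ, hi = ζ + 1 := ⟨hi - 1, by omega⟩
    have hζ1 : hi - 1 = ζ := by omega
    rw [hζ1] at hζF ⊢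
    obtain ⟨lo1, hl1, hl2, hl3, hl4, hl5, hl6⟩ := next_slot adm hloF (by omega : 2 ≤ sl F lo hi)
    have hone : sl F ζ hi = 1 := by
      rw [hζ]
      exact sl_one hζF
    have hlζ : lo1 ≤ ζ := by omega
    have hsp := sl_split (F := F) hlζ (by omega : ζ ≤ hi)
    have hslw : sl F lo1 ζ = Y.card + Z.card + 3 := by omega
    have hlen := sl_le (F := F) lo1 ζ
    have inv1 : Inv D H F σ lo1 hi s 0 := inv.mono_int hl1.le le_rfl
    have tb1 := tau_le (r := r) (F := F) lo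
    have tb2 := le_tau (r := r) (F := F) lo
    have tm1 := tau_le (r := r) (F := F) ζ
    have tm2 := le_tau (r := r) (F := F) ζ
    have tmN : tau r F ζ < N := tau_lt adm (by omega)
    obtain ⟨y, y', fl1, fl2, ap, r1, r2, r3⟩ :=
      win (p := tau r F lo) (q := tau r F ζ) ok ts (by omega : L ≤ sl F lo1 ζ) (by omega : sl F lo1 ζ ≤ s)
        (by omega : 0 ≤ 2 * D + 12) (inv1.mono_int (by omega) (by omega)) (by omega) (by omega) (by omega)
        (by omega) tmN
    obtain ⟨F2, σ2, T⟩ := two (D := D) (σ := σ) (r := r) adm (by omega : ζ ≤ N) fl1 fl2 ap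
    have hslin := T.slin
    have tlo := T.tau lo (Or.inl (by omega))
    have tlo1 := T.tau lo1 (Or.inl (by omega))
    have tζ := T.tau ζ (Or.inr (by omega))
    have toutζ := T.out ζ hi (Or.inr (by omega))
    have hζF2 : ζ ∉ F2 := fun hh => hζF (tζ.1.mp hh)
    have hlo1F2 : lo1 ∉ F2 := fun hh => hl4 (tlo1.1.mp hh)
    have hsp2 := sl_split (F := F2) hlζ (by omega : ζ ≤ hi)
    have hsl2 : sl F2 lo1 hi = Y.card + (Z.card + 2) := by
      rw [hsp2, toutζ.1]
      omega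
    have hZpos : 1 ≤ Z.card := card_pos.mpr ⟨g, hg⟩
    obtain ⟨γ, hγ1, hγ2, hγF, hslγ, hslγ'⟩ := exists_mid (F := F2) (lo := lo1) (hi := hi) Y.card (Z.card + 2)
      (by omega) hsl2
    have hγζ : γ ≤ ζ := by omega
    have inv2 : Inv D H F2 σ2 lo1 hi s 2 := T.invin lo1 hi s 0 (by
      intro f hf h3 h4
      refine ⟨h3, ?_⟩
      have : f ≠ ζ := fun hh => hζF (hh ▸ hf)
      omega) inv1
    have hσ2 : ∀ f ∈ F2, lo1 ≤ f → f < hi → Y.card + Z.card + 1 ≤ σ2 f := by
      intro f hf h3 h4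
      rcases T.mem f hf with hf' | hf' | hf'
      · rw [T.old f hf']
        have := inv1.ge hf' h3 h4
        omega
      · rw [hf', T.new.1]
        omega
      · rw [hf', T.new.2]
        omega
    -- the second window
    have hspg := sl_split (F := F2) hγζ (by omega : ζ ≤ hi)
    have hslg : sl F2 γ ζ = Z.card + 1 := by
      rw [toutζ.1, hone] at hspg
      omega
    have hleng := sl_le (F := F2) γ ζ
    have tg1 := tau_le (r := r) (F := F2) γ
    have tg2 := le_tau (r := r) (F := F2) γ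
    obtain ⟨w, w', gl1, gl2, bp, r4, r5, r6⟩ :=
      win (p := tau r F2 γ) (q := q) ok ts (by omega : L ≤ sl F2 γ ζ) (by omega : sl F2 γ ζ ≤ s)
        (by omega : 2 ≤ 2 * D + 12) (inv2.mono_int (by omega) (by omega)) (by omega) (by omega) (by omega)
        (by omega) hqN
    obtain ⟨F4, σ4, S⟩ := two (D := D) (σ := σ2) (r := r) T.adm (by omega : ζ ≤ N) gl1 gl2 bp
    have hslin4 := S.slin
    have slo1 := S.tau lo1 (Or.inl (by omega))
    have sγ := S.tau γ (Or.inl (by omega))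
    have sζ := S.tau ζ (Or.inr (by omega))
    have soutζ := S.out ζ hi (Or.inr (by omega))
    have soutγ := S.out lo1 γ (Or.inl (by omega))
    have hζF4 : ζ ∉ F4 := fun hh => hζF2 (sζ.1.mp hh)
    have hlo1F4 : lo1 ∉ F4 := fun hh => hlo1F2 (slo1.1.mp hh)
    have hγF4 : γ ∉ F4 := fun hh => hγF (sγ.1.mp hh)
    have hsp4 := sl_split (F := F4) hγζ (by omega : ζ ≤ hi)
    have hsl4 : sl F4 γ hi = Z.card := by
      rw [hsp4, soutζ.1, toutζ.1]
      omega
    have inv4 : Inv D H F4 σ4 γ hi s 4 := S.invin γ hi s 2 (by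
      intro f hf h3 h4
      refine ⟨h3, ?_⟩
      have : f ≠ ζ := fun hh => hζF2 (hh ▸ hf)
      omega) (inv2.mono_int hγ1 le_rfl)
    have inv4' : Inv D H F4 σ4 lo1 γ s 2 := S.invout lo1 γ s 2 (Or.inl (by omega)) (inv2.mono_int le_rfl hγ2.le)
    have wge := S.ge
    obtain ⟨φ1, em1, e1v⟩ := zni_opt hY ts (F := F4) (σ := σ4) (β := γ) (lo := lo1) (e := 2) S.adm (by omega)
      hγ1 hlo1F4 hγF4 (by rw [soutγ.1]; exact hslγ) (by omega) (by omega) inv4' (by
        intro f hf h3 h4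
        rcases S.mem f hf with hf' | hf' | hf'
        · rw [S.old f hf']
          have := hσ2 f hf' h3 (by omega)
          omega
        · omega
        · omega)
    obtain ⟨φ2, em2, e2u, e2z⟩ := hZ.emb N r ts F4 σ4 γ hi S.adm hhi hγ2 hγF4 (by rw [hζ1]; exact hζF4) hsl4
      (by omega) (inv4.mono_e (by omega)) (by
        intro f hf h3 h4
        rcases S.mem f hf with hf' | hf' | hf'
        · rw [S.old f hf']
          have := hσ2 f hf' (by omega) h4
          omega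
        · rw [hf', S.new.1]
          omega
        · rw [hf', S.new.2]
          omega)
    rw [hζ1] at e2z
    -- the combined map
    obtain ⟨ψ, hψ⟩ : ∃ ψ : V → ℕ, ψ = fun x => if x = u then tau r F lo else if x = f1 then y else
        if x = f2 then y' else if x = c0 then w else if x = c1 then w' else if x ∈ Z then φ2 x else φ1 x := ⟨_, rfl⟩
    have p0 : ψ u = tau r F lo := by
      rw [hψ]
      simp only [if_true]
    have p1 : ψ f1 = y := by
      rw [hψ]
      simp only [if_neg (Ne.symm hu1), if_true]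
    have p2 : ψ f2 = y' := by
      rw [hψ]
      simp only [if_neg (Ne.symm hu2), if_neg (Ne.symm h12), if_true]
    have p3 : ψ c0 = w := by
      rw [hψ]
      simp only [if_neg (Ne.symm hu3), if_neg (Ne.symm h13), if_neg (Ne.symm h23), if_true]
    have p4 : ψ c1 = w' := by
      rw [hψ]
      simp only [if_neg (Ne.symm hu4), if_neg (Ne.symm h14), if_neg (Ne.symm h24), if_neg (Ne.symm h34), if_true]
    have hne : ∀ x ∈ Y ∪ Z, x ≠ u ∧ x ≠ f1 ∧ x ≠ f2 ∧ x ≠ c0 ∧ x ≠ c1 := by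
      intro x hx
      exact ⟨fun hh => hxu (hh ▸ hx), fun hh => hx1 (hh ▸ hx), fun hh => hx2 (hh ▸ hx), fun hh => hx3 (hh ▸ hx),
        fun hh => hx4 (hh ▸ hx)⟩
    have pZ : ∀ x ∈ Z, ψ x = φ2 x := by
      intro x hx
      obtain ⟨g0, g1, g2, g3, g4⟩ := hne x (mem_union_right _ hx)
      rw [hψ]
      simp only [if_neg g0, if_neg g1, if_neg g2, if_neg g3, if_neg g4, if_pos hx]
    have pY : ∀ x ∈ insert g Y, ψ x = φ1 x := by
      intro x hx
      rcases mem_insert.mp hx with hx | hx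
      · rw [hx, pZ g hg, e2u, e1v]
      · obtain ⟨g0, g1, g2, g3, g4⟩ := hne x (mem_union_left _ hx)
        have g5 : x ∉ Z := disjoint_left.mp hd hx
        rw [hψ]
        simp only [if_neg g0, if_neg g1, if_neg g2, if_neg g3, if_neg g4, if_neg g5]
    have pe : ψ e = tau r F ζ := by
      rw [pZ e he, e2z, sζ.2, tζ.2]
    have pg : ψ g = tau r F2 γ := by
      rw [pZ g hg, e2u, sγ.2]
    have em1' : Em r Y Ag ψ (VS r F4 lo1 γ) := em1.congr hAg (subset_insert _ _) pY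
    have em2' : Em r Z Az ψ (VS r F4 γ hi) := em2.congr hZ.wf (Subset.refl _) pZ
    have em3 := (((((em1'.union em2').vertex c1).vertex c0).vertex f2).vertex f1).vertex u
    have em4 := ((((em3.arcs (a := c0) (b := c1) (by rw [p3, p4]; exact r5)).arcs (a := g) (b := c0)
      (by rw [pg, p3]; exact r4)).arcs (a := f2) (b := e) (by rw [p2, pe]; exact r3)).arcs (a := f1) (b := f2)
      (by rw [p1, p2]; exact r2)).arcs (a := u) (b := f1) (by rw [p0, p1]; exact r1)
    refine ⟨ψ, ?_, p0, pe, by rw [p4]; exact r6⟩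
    have hT : VS r F lo hi = insert (ψ u) (insert (ψ f1) (insert (ψ f2) (insert (ψ c0) (insert (ψ c1)
        (VS r F4 lo1 γ ∪ VS r F4 γ hi))))) := by
      rw [VS_first hloF hl1 hl5 hl3.le, VS_split hlζ (by omega : ζ ≤ hi), T.VSin, p0, p1, p2, p3, p4,
        VS_split (F := F4) hγζ (by omega : ζ ≤ hi), VS_split (F := F2) hγ1 hγζ, S.VSin, soutγ.2, soutζ.2, toutζ.2]
      rw [union_insert, union_insert, insert_union, insert_union, insert_union, insert_union, union_assoc]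
    rw [hT]
    exact em4

end UT35
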