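import Pool.Agent.UT35.LRun
import Pool.Agent.UT35.LFan
import Pool.Agent.UT35.ZTl
import Pool.Agent.UT35.ZTx
import Pool.Agent.UT35.ZRi
import Pool.Agent.UT35.ZTurn

/-!
# [UT35-LTURN] layout of a subtree with a turn

`run_top` gives `g, Z, Y` with `L ≤ Z.card`. `De e = WW t e ∪ (oc e).biUnion De`, and these two sets intersect in `∅` (`De_split`, `bi_disj`, `not_mem_bi`).
All children of `e` other than `c0` are light (`light`).
* `Y ∪ Z = WW t e`: `ztl` gives the left part `XL = insert u (insert f1 (insert f2 (Y ∪ Z)))`, `fan` (with `n = s`, `(De e).card ≤ s`) the piece `X3 = insert e ((oc e).biUnion De)`; `XL ∩ X3 = {e}`,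
  `XL ∪ X3 = De u`, `s + 1 = XL.card + X3.card`; `zle_tl`, `ZLE.mono`.
* exit child `c` of `g`: `c ∉ {u, f1, f2}` etc. `De c = insert c (insert c1 (De c2))` with `c1` the child of `c`, `c2` the child of `c1` (`LF_succ`), all `out`. `ztx` with `c0 := c`, `c1 := c1`:
  `XL = insert u (insert f1 (insert f2 (insert c (insert c1 (Y ∪ Z)))))`; arc `(g, c) = arc c`. `(De c2).card < s` (`De c ⊆ WW t e ⊆ De e`).
  - `oc e = ∅`: `zri_plain` with the piece `De c2` (`ih`), `e ∉ De c2`; `zle_tx`: arcs `(c1, c2) = arc c2`.
  - `oc e ≠ ∅`: go on with `chain3` for `c2`: `De c2 = insert c2 (insert c3 (insert c4 (De c5)))`; `zri_st` with `Y := (oc e).biUnion De` (`yno`, all light, `m = (oc e).card ≤ D`, `L ≤ M ≤ Y.card`) and `X5 = De c5` (`ih`); `zle_tx`.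
  In both cases `XL ∩ XR = {e}`, `XL ∪ XR = De u`, `s + 1 = XL.card + XR.card`. Then `ZLE.mono`: the arcs of `(De u).erase u` are `arc f1 = (u, f1)`, `arc f2 = (f1, f2)`, `arc e = (f2, e)`, and those of `Z.erase e`, `Y`,
  `De c`, `(oc e).biUnion De`.
-/

set_option autoImplicit false

open Finset Classical

namespace UT35

variable {V : Type} [Fintype V] {t : RT V} {D H k L M s : ℕ} {u e : V}

private theorem De_parts (t : RT V) (e : V) : t.De e = WW t e ∪ (t.oc e).biUnion t.De := by
  rw [t.De_split e (t.ch_eq e), WW, insert_union]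

private theorem WW_disj (t : RT V) (e : V) : Disjoint (WW t e) ((t.oc e).biUnion t.De) := by
  rw [WW, disjoint_insert_left]
  refine ⟨t.not_mem_bi (t.oc_sub e), t.bi_disj (t.ic_sub e) (t.oc_sub e) ?_⟩
  rw [disjoint_left]
  intro x h1 h2
  simp only [RT.ic, RT.oc, mem_filter] at h1 h2
  exact h1.2 h2.2

private theorem e_mem_WW (t : RT V) (e : V) : e ∈ WW t e := mem_insert_self _ _

omit [Fintype V] in
private theorem arc_out (t : RT V) {x p : V} (ho : t.out x) (hp : t.par x = p) : t.arc x = (p, x) := by
  rw [RT.arc, if_pos ho, hp]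

theorem turn (c : Ctx t D H k L M s u e) {f1 f2 c0 : V} (hp1 : t.par f1 = u) (hp2 : t.par f2 = f1) (hp3 : t.par e = f2)
    (ho1 : t.out f1) (ho2 : t.out f2) (ho3 : t.out e) (hDe : t.De u = insert u (insert f1 (insert f2 (t.De e))))
    (hn : [u, f1, f2].Nodup) (hx : ∀ x ∈ [u, f1, f2], x ∉ t.De e)
    (hc : c0 ∈ t.ic e) (hh : s < 2 * (t.De c0).card) :
    ZLE D H (t.De u) u (t.AR ((t.De u).erase u)) := by
  obtain ⟨g, Z, Y, hZ, hY, hd, hL, hres⟩ := run_top c hc hh
  have hgZ : g ∈ Z := hZ.memu
  have heZ : e ∈ Z := hZ.memz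
  set O := (t.oc e).biUnion t.De with hO
  have hDeE : t.De e = WW t e ∪ O := De_parts t e
  have hWO : Disjoint (WW t e) O := WW_disj t e
  have hWsub : WW t e ⊆ t.De e := by rw [hDeE]; exact subset_union_left
  have hOsub : O ⊆ t.De e := by rw [hDeE]; exact subset_union_right
  have heW : e ∈ WW t e := e_mem_WW t e
  have heO : e ∉ O := fun h => (disjoint_left.mp hWO) heW h
  have hcardE : (t.De e).card = (WW t e).card + O.card := by rw [hDeE, card_union_of_disjoint hWO]
  have hu : u ∉ t.De e := hx u (by simp)
  have hf1 : f1 ∉ t.De e := hx f1 (by simp)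
  have hf2 : f2 ∉ t.De e := hx f2 (by simp)
  have hn' : u ≠ f1 ∧ u ≠ f2 ∧ f1 ≠ f2 := by
    simp only [List.nodup_cons, List.mem_cons, List.not_mem_nil, or_false, not_or] at hn
    exact ⟨hn.1.1, hn.1.2, hn.2.1⟩
  obtain ⟨n1, n2, n3⟩ := hn'
  have hs : s = (WW t e).card + O.card + 3 := by
    rw [← c.card, hDe, card_insert_of_notMem, card_insert_of_notMem, card_insert_of_notMem hf2, hcardE]
    · simp only [mem_insert, not_or]; exact ⟨n3, hf1⟩
    · simp only [mem_insert, not_or]; exact ⟨n1, n2, hu⟩
  have harc1 : t.arc f1 = (u, f1) := arc_out t ho1 hp1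
  have harc2 : t.arc f2 = (f1, f2) := arc_out t ho2 hp2
  have harc3 : t.arc e = (f2, e) := arc_out t ho3 hp3
  rcases hres with hW | ⟨w, hw, hLFw, hdw, hW⟩
  · -- no exit
    have hYZ : ∀ x ∈ [u, f1, f2], x ∉ Y ∪ Z := by
      intro x hx1 hx2
      rw [hW] at hx2
      exact hx x hx1 (hWsub hx2)
    have h1 := ztl (u := u) (f1 := f1) (f2 := f2) c.ok hY hZ hL hn hYZ hd
    have hDes : (t.De e).card ≤ s := by rw [hcardE, hs]; omega
    have h2 := fan c.ok c.good c.hM c.ih c.sp hDes
    rw [← hO] at h2
    have hXL : (insert u (insert f1 (insert f2 (Y ∪ Z)))).card = (WW t e).card + 3 := by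
      rw [hW, card_insert_of_notMem, card_insert_of_notMem, card_insert_of_notMem]
      · exact fun h => hf2 (hWsub h)
      · simp only [mem_insert, not_or]; exact ⟨n3, fun h => hf1 (hWsub h)⟩
      · simp only [mem_insert, not_or]; exact ⟨n1, n2, fun h => hu (hWsub h)⟩
    have h3 := zle_tl (s := s) h1 h2 (by rw [hXL, card_insert_of_notMem heO, hs]; ring) (by
      ext x
      simp only [mem_inter, mem_insert, mem_singleton, hW]
      constructor
      · rintro ⟨h4, h5⟩
        rcases h5 with rfl | h5
        · rfl
        · exfalso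
          rcases h4 with rfl | rfl | rfl | h4
          · exact hu (hOsub h5)
          · exact hf1 (hOsub h5)
          · exact hf2 (hOsub h5)
          · exact (disjoint_left.mp hWO) h4 h5
      · rintro rfl
        exact ⟨Or.inr (Or.inr (Or.inr heW)), Or.inl rfl⟩)
    refine h3.mono ?_ ?_
    · rw [hDe, hDeE, hW]
      ext x
      simp only [mem_union, mem_insert]
      constructor
      · rintro (h | h | h | h | h)
        · exact Or.inl (Or.inl h)
        · exact Or.inl (Or.inr (Or.inl h))
        · exact Or.inl (Or.inr (Or.inr (Or.inl h)))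
        · exact Or.inl (Or.inr (Or.inr (Or.inr h)))
        · exact Or.inr (Or.inr h)
      · rintro ((h | h | h | h) | (h | h))
        · exact Or.inl h
        · exact Or.inr (Or.inl h)
        · exact Or.inr (Or.inr (Or.inl h))
        · exact Or.inr (Or.inr (Or.inr (Or.inl h)))
        · subst h; exact Or.inr (Or.inr (Or.inr (Or.inl heW)))
        · exact Or.inr (Or.inr (Or.inr (Or.inr h)))
    · intro a ha
      rw [RT.AR, mem_image] at ha
      obtain ⟨x, hx1, rfl⟩ := ha
      rw [mem_erase, hDe, hDeE, ← hW] at hx1
      obtain ⟨hxu, hx1⟩ := hx1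
      simp only [mem_insert, mem_union] at hx1 ⊢
      rcases hx1 with h | h | h | (h | h) | h
      · exact absurd h hxu
      · subst h; left; left; exact harc1
      · subst h; left; right; left; exact harc2
      · left; right; right; right; left
        exact mem_image_of_mem _ h
      · by_cases hxe : x = e
        · subst hxe; left; right; right; left; exact harc3
        · left; right; right; right; right
          exact mem_image_of_mem _ (mem_erase.mpr ⟨hxe, h⟩)
      · right
        exact mem_image_of_mem _ h
  · -- exit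
    have hM3 : 3 ≤ M := by have := c.hM; omega
    have hwch : w ∈ t.ch g := t.oc_sub g hw
    have hwout : t.out w := by simp only [RT.oc, mem_filter] at hw; exact hw.2
    have hwp : t.par w = g := ((t.mem_ch).mp hwch).2
    have hM1 : M = (M - 5) + 5 := by have := c.hM; omega
    rw [hM1] at hLFw
    obtain ⟨c1, -, ho4, hLF1, hDw, hwc1, hc1r, hpc1, -, -⟩ := t.LF_succ hLFw
    obtain ⟨c2, -, ho5, hLF2, hDc1, hc12, hc2r, hpc2, -, -⟩ := t.LF_succ hLF1
    have hc1out : t.out c1 := ho4.mpr hwout
    have hc2out : t.out c2 := ho5.mpr hc1out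
    have hLF3 : t.LF 3 c2 := t.LF_mono hLF2 (by omega)
    have hDwW : t.De w ⊆ WW t e := by rw [← hW]; exact subset_union_right
    have hYZW : Y ∪ Z ⊆ WW t e := by rw [← hW]; exact subset_union_left
    have hgW : g ∈ WW t e := hYZW (mem_union_right _ hgZ)
    have hc1w : t.De c1 ⊆ t.De w := by rw [hDw]; exact subset_insert _ _
    have hc2c1 : t.De c2 ⊆ t.De c1 := by rw [hDc1]; exact subset_insert _ _
    have hc2w : t.De c2 ⊆ t.De w := hc2c1.trans hc1w
    have hwDw : w ∈ t.De w := t.De_self w
    have hc1Dw : c1 ∈ t.De w := hc1w (t.De_self c1)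
    have hwc2 : w ∉ t.De c2 := fun h => hwc1 (hc2c1 h)
    have hsub : ∀ {x : V}, x ∈ t.De w → x ∈ t.De e := fun h => hWsub (hDwW h)
    have hwc1' : w ≠ c1 := by rintro rfl; exact hwc1 (t.De_self _)
    have hnd : [u, f1, f2, w, c1].Nodup := by
      simp only [List.nodup_cons, List.mem_cons, List.not_mem_nil, or_false, not_or, List.nodup_nil,
        not_false_eq_true, and_true]
      refine ⟨⟨n1, n2, ?_, ?_⟩, ⟨n3, ?_, ?_⟩, ⟨?_, ?_⟩, hwc1'⟩
      · rintro rfl; exact hu (hsub hwDw)
      · rintro rfl; exact hu (hsub hc1Dw)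
      · rintro rfl; exact hf1 (hsub hwDw)
      · rintro rfl; exact hf1 (hsub hc1Dw)
      · rintro rfl; exact hf2 (hsub hwDw)
      · rintro rfl; exact hf2 (hsub hc1Dw)
    have hwYZ : w ∉ Y ∪ Z := fun h => (disjoint_left.mp hdw) h hwDw
    have hc1YZ : c1 ∉ Y ∪ Z := fun h => (disjoint_left.mp hdw) h hc1Dw
    have huYZ : u ∉ Y ∪ Z := fun h => hu (hWsub (hYZW h))
    have hf1YZ : f1 ∉ Y ∪ Z := fun h => hf1 (hWsub (hYZW h))
    have hf2YZ : f2 ∉ Y ∪ Z := fun h => hf2 (hWsub (hYZW h))
    have hYZ : ∀ x ∈ [u, f1, f2, w, c1], x ∉ Y ∪ Z := by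
      intro x hx1
      simp only [List.mem_cons, List.not_mem_nil, or_false] at hx1
      rcases hx1 with rfl | rfl | rfl | rfl | rfl
      · exact huYZ
      · exact hf1YZ
      · exact hf2YZ
      · exact hwYZ
      · exact hc1YZ
    have h1 := ztx (u := u) (f1 := f1) (f2 := f2) (c0 := w) (c1 := c1) c.ok hY hZ hL hnd hYZ hd
    have hWcard : (WW t e).card = (Y ∪ Z).card + (t.De c2).card + 2 := by
      rw [← hW, card_union_of_disjoint hdw, hDw, card_insert_of_notMem hwc1, hDc1, card_insert_of_notMem hc12]
      ring
    have hXL : (insert u (insert f1 (insert f2 (insert w (insert c1 (Y ∪ Z)))))).card = (Y ∪ Z).card + 5 := by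
      simp only [List.nodup_cons, List.mem_cons, List.not_mem_nil, or_false, not_or, List.nodup_nil,
        not_false_eq_true, and_true] at hnd
      obtain ⟨⟨-, -, m3, m4⟩, ⟨-, m6, m7⟩, ⟨m8, m9⟩, -⟩ := hnd
      rw [card_insert_of_notMem, card_insert_of_notMem, card_insert_of_notMem, card_insert_of_notMem,
        card_insert_of_notMem hc1YZ]
      · simp only [mem_insert, not_or]; exact ⟨hwc1', hwYZ⟩
      · simp only [mem_insert, not_or]; exact ⟨m8, m9, hf2YZ⟩
      · simp only [mem_insert, not_or]; exact ⟨n3, m6, m7, hf1YZ⟩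
      · simp only [mem_insert, not_or]; exact ⟨n1, n2, m3, m4, huYZ⟩
    have hwcard : (t.De w).card < s := card_lt c hgW hwch
    have hc2card : (t.De c2).card < s := lt_of_le_of_lt (card_le_card hc2w) hwcard
    have hec2 : e ∉ t.De c2 := fun h => (disjoint_left.mp hdw) (mem_union_right _ heZ) (hc2w h)
    have harcw : t.arc w = (g, w) := arc_out t hwout hwp
    have harcc1 : t.arc c1 = (w, c1) := arc_out t hc1out hpc1
    have harcc2 : t.arc c2 = (c1, c2) := arc_out t hc2out hpc2
    -- elements of XL are not in the subtree of c2 and not in O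
    have hXLnot : ∀ x, x ∈ insert u (insert f1 (insert f2 (insert w (insert c1 (Y ∪ Z))))) → x ∉ t.De c2 ∧ x ∉ O := by
      intro x h
      rw [mem_insert, mem_insert, mem_insert, mem_insert, mem_insert] at h
      rcases h with rfl | rfl | rfl | rfl | rfl | h
      · exact ⟨fun h => hu (hsub (hc2w h)), fun h => hu (hOsub h)⟩
      · exact ⟨fun h => hf1 (hsub (hc2w h)), fun h => hf1 (hOsub h)⟩
      · exact ⟨fun h => hf2 (hsub (hc2w h)), fun h => hf2 (hOsub h)⟩
      · exact ⟨hwc2, fun h => (disjoint_left.mp hWO) (hDwW hwDw) h⟩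
      · exact ⟨hc12, fun h => (disjoint_left.mp hWO) (hDwW hc1Dw) h⟩
      · exact ⟨fun h' => (disjoint_left.mp hdw) h (hc2w h'), fun h' => (disjoint_left.mp hWO) (hYZW h) h'⟩
    have heXL : e ∈ insert u (insert f1 (insert f2 (insert w (insert c1 (Y ∪ Z))))) := by
      simp only [mem_insert, mem_union]
      exact Or.inr (Or.inr (Or.inr (Or.inr (Or.inr (Or.inr heZ)))))
    by_cases hoc : t.oc e = ∅
    · have hO0 : O = ∅ := by rw [hO, hoc]; rfl
      have hX := c.ih c2 hc2r hc2card hc2out hLF3
      have h2 := zri_plain (s := s) hX hec2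
      have h3 := zle_tx (s := s) h1 h2 (by
        rw [hXL, card_insert_of_notMem hec2, hs, hWcard, hO0, card_empty]; ring) (by
        ext x
        rw [mem_inter, mem_singleton]
        constructor
        · rintro ⟨h4, h5⟩
          rw [mem_insert] at h5
          rcases h5 with h5 | h5
          · exact h5
          · exact absurd h5 (hXLnot x h4).1
        · rintro rfl
          exact ⟨heXL, mem_insert_self _ _⟩)
      refine h3.mono ?_ ?_
      · rw [hDe, hDeE, hO0, union_empty, ← hW, hDw, hDc1, union_insert e, insert_eq_of_mem (mem_union_left _ heXL)]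
        simp only [insert_union, union_insert]
      · intro a ha
        rw [RT.AR, mem_image] at ha
        obtain ⟨x, hx1, rfl⟩ := ha
        rw [mem_erase, hDe, hDeE, hO0, union_empty, ← hW, hDw, hDc1] at hx1
        obtain ⟨hxu, hx1⟩ := hx1
        simp only [mem_insert, mem_union] at hx1 ⊢
        rcases hx1 with h | h | h | (h | h) | h | h | h
        · exact absurd h hxu
        · subst h; right; left; left; exact harc1
        · subst h; right; left; right; left; exact harc2
        · right; left; right; right; right; right; right; left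
          exact mem_image_of_mem _ h
        · by_cases hxe : x = e
          · subst hxe; right; left; right; right; left; exact harc3
          · right; left; right; right; right; right; right; right
            exact mem_image_of_mem _ (mem_erase.mpr ⟨hxe, h⟩)
        · subst h; right; left; right; right; right; left; exact harcw
        · subst h; right; left; right; right; right; right; left; exact harcc1
        · by_cases hxc : x = c2
          · subst hxc; left; exact harcc2
          · right; right
            exact mem_image_of_mem _ (mem_erase.mpr ⟨hxc, h⟩)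
    · have hne : (t.oc e).Nonempty := nonempty_iff_ne_empty.mpr hoc
      obtain ⟨c3, c4, c5, hc3r, hc4r, hc5r, hpc3, hpc4, hpc5, hoc3, hoc4, hoc5, hDc2, hnd2, hx2, hLFn⟩ := t.chain3 hLF3
      have hc3out : t.out c3 := hoc3.mpr hc2out
      have hc4out : t.out c4 := hoc4.mpr hc2out
      have hc5out : t.out c5 := hoc5.mpr hc2out
      have hLF5 : t.LF 3 c5 := by
        have : t.LF ((M - 5 + 3 - 3) + 3) c2 := t.LF_mono hLF2 (by omega)
        exact t.LF_mono ((hLFn _).mp this) (by have := c.hM; omega)
      have hcO : ∀ o ∈ t.oc e, (t.De o).card < s := fun o ho => card_lt c heW (t.oc_sub e ho)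
      have hlight : ∀ o ∈ t.oc e, 2 * (t.De o).card ≤ s := by
        intro o ho
        refine light c heW (t.ic_sub e hc) (t.oc_sub e ho) ?_ hh
        rintro rfl
        simp only [RT.ic, RT.oc, mem_filter] at hc ho
        exact hc.2 ho.2
      have hN := yno (s := s) c.ok c.good c.hM c.ih c.sp (Subset.refl (t.oc e)) hne hcO hlight
      rw [← hO] at hN
      have hmD : (t.oc e).card ≤ D := (card_le_card (t.oc_sub e)).trans (c.good.deg e)
      have hLO : L ≤ O.card := by
        obtain ⟨o, ho⟩ := hne
        have ho' := (t.mem_ch).mp (t.oc_sub e ho)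
        have h4 : t.LF M o := c.good.long o ho'.1 (by rw [ho'.2]; exact c.sp)
        have h5 := t.LF_card h4
        have h6 : t.De o ⊆ O := subset_biUnion_of_mem t.De ho
        have h7 := card_le_card h6
        have := c.hM
        omega
      have hc5c2 : t.De c5 ⊆ t.De c2 := by
        rw [hDc2]
        exact (subset_insert _ _).trans ((subset_insert _ _).trans (subset_insert _ _))
      have hX5 := c.ih c5 hc5r (lt_of_le_of_lt (card_le_card hc5c2) hc2card) hc5out hLF5
      have hc2D : c2 ∈ t.De c2 := t.De_self c2
      have hc3D : c3 ∈ t.De c2 := by rw [hDc2]; exact mem_insert_of_mem (mem_insert_self _ _)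
      have hc4D : c4 ∈ t.De c2 := by
        rw [hDc2]; exact mem_insert_of_mem (mem_insert_of_mem (mem_insert_self _ _))
      have hDO : ∀ {x : V}, x ∈ t.De c2 → x ∉ O := fun h h' => (disjoint_left.mp hWO) (hDwW (hc2w h)) h'
      have hnd2' : c2 ≠ c3 ∧ c2 ≠ c4 ∧ c3 ≠ c4 := by
        simp only [List.nodup_cons, List.mem_cons, List.not_mem_nil, or_false, not_or] at hnd2
        exact ⟨hnd2.1.1, hnd2.1.2, hnd2.2.1⟩
      obtain ⟨k1, k2, k3⟩ := hnd2'
      have hx2' : c2 ∉ t.De c5 := hx2 c2 (by simp)
      have hx3' : c3 ∉ t.De c5 := hx2 c3 (by simp)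
      have hx4' : c4 ∉ t.De c5 := hx2 c4 (by simp)
      have hec2' : e ≠ c2 := by rintro rfl; exact hec2 hc2D
      have hec3' : e ≠ c3 := by rintro rfl; exact hec2 hc3D
      have hec4' : e ≠ c4 := by rintro rfl; exact hec2 hc4D
      have hec5 : e ∉ t.De c5 := fun h => hec2 (hc5c2 h)
      have heU : e ∉ O ∪ t.De c5 := by simp only [mem_union, not_or]; exact ⟨heO, hec5⟩
      have h2U : c2 ∉ O ∪ t.De c5 := by simp only [mem_union, not_or]; exact ⟨hDO hc2D, hx2'⟩
      have h3U : c3 ∉ O ∪ t.De c5 := by simp only [mem_union, not_or]; exact ⟨hDO hc3D, hx3'⟩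
      have h4U : c4 ∉ O ∪ t.De c5 := by simp only [mem_union, not_or]; exact ⟨hDO hc4D, hx4'⟩
      have hdO : Disjoint O (t.De c5) := by
        rw [disjoint_left]
        intro x h h'
        exact hDO (hc5c2 h') h
      have h2 := zri_st (s := s) (c2 := c2) (c3 := c3) (c4 := c4) c.ok hN hmD hX5 hLO (by
        simp only [List.nodup_cons, List.mem_cons, List.not_mem_nil, or_false, not_or, List.nodup_nil,
          not_false_eq_true, and_true]
        exact ⟨⟨hec2', hec3', hec4'⟩, ⟨k1, k2⟩, k3⟩) (by
        intro x hx1
        simp only [List.mem_cons, List.not_mem_nil, or_false] at hx1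
        rcases hx1 with rfl | rfl | rfl | rfl
        · exact heU
        · exact h2U
        · exact h3U
        · exact h4U) hdO
      have hXR : (insert e (insert c2 (insert c3 (insert c4 (O ∪ t.De c5))))).card = O.card + (t.De c5).card + 4 := by
        rw [card_insert_of_notMem, card_insert_of_notMem, card_insert_of_notMem, card_insert_of_notMem h4U,
          card_union_of_disjoint hdO]
        · simp only [mem_insert, not_or]; exact ⟨k3, h3U⟩
        · simp only [mem_insert, not_or]; exact ⟨k1, k2, h2U⟩
        · simp only [mem_insert, not_or]; exact ⟨hec2', hec3', hec4', heU⟩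
      have hc2c : (t.De c2).card = (t.De c5).card + 3 := by
        rw [hDc2, card_insert_of_notMem, card_insert_of_notMem, card_insert_of_notMem hx4']
        · simp only [mem_insert, not_or]; exact ⟨k3, hx3'⟩
        · simp only [mem_insert, not_or]; exact ⟨k1, k2, hx2'⟩
      have h3 := zle_tx (s := s) h1 h2 (by
        rw [hXL, hXR, hs, hWcard, hc2c]; ring) (by
        ext x
        rw [mem_inter, mem_singleton]
        constructor
        · rintro ⟨h4, h5⟩
          obtain ⟨h6, h7⟩ := hXLnot x h4
          rw [mem_insert, mem_insert, mem_insert, mem_insert, mem_union] at h5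
          rcases h5 with h5 | rfl | rfl | rfl | h5 | h5
          · exact h5
          · exact absurd hc2D h6
          · exact absurd hc3D h6
          · exact absurd hc4D h6
          · exact absurd h5 h7
          · exact absurd (hc5c2 h5) h6
        · rintro rfl
          exact ⟨heXL, mem_insert_self _ _⟩)
      have harcc3 : t.arc c3 = (c2, c3) := arc_out t hc3out hpc3
      have harcc4 : t.arc c4 = (c3, c4) := arc_out t hc4out hpc4
      have harcc5 : t.arc c5 = (c4, c5) := arc_out t hc5out hpc5
      refine h3.mono ?_ ?_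
      · rw [hDe, hDeE, ← hW, hDw, hDc1, hDc2, union_insert e, insert_eq_of_mem (mem_union_left _ heXL)]
        ext x
        simp only [mem_union, mem_insert, or_assoc, or_left_comm, or_comm]
      · intro a ha
        rw [RT.AR, mem_image] at ha
        obtain ⟨x, hx1, rfl⟩ := ha
        rw [mem_erase, hDe, hDeE, ← hW, hDw, hDc1, hDc2] at hx1
        obtain ⟨hxu, hx1⟩ := hx1
        simp only [mem_insert, mem_union] at hx1 ⊢
        rcases hx1 with h | h | h | ((h | h) | h | h | h | h | h | h) | h
        · exact absurd h hxu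
        · subst h; right; left; left; exact harc1
        · subst h; right; left; right; left; exact harc2
        · right; left; right; right; right; right; right; left
          exact mem_image_of_mem _ h
        · by_cases hxe : x = e
          · subst hxe; right; left; right; right; left; exact harc3
          · right; left; right; right; right; right; right; right
            exact mem_image_of_mem _ (mem_erase.mpr ⟨hxe, h⟩)
        · subst h; right; left; right; right; right; left; exact harcw
        · subst h; right; left; right; right; right; right; left; exact harcc1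
        · subst h; left; exact harcc2
        · subst h; right; right; left; exact harcc3
        · subst h; right; right; right; left; exact harcc4
        · by_cases hxc : x = c5
          · subst hxc; right; right; right; right; left; exact harcc5
          · right; right; right; right; right; right
            exact mem_image_of_mem _ (mem_erase.mpr ⟨hxc, h⟩)
        · right; right; right; right; right; left
          exact mem_image_of_mem _ h

end UT35
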