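import Pool.Agent.UT35.Defs

/-!
# [UT35-MIRA] the reversed tournament in the reversed order has the median property

`asym`, `tot`: clear. `med p q A` for `rev N r` (`q ≤ N`; if `q ≤ p` both sides are empty): apply `ts.med (N - q) (N - p)` with the set
`A' = (range N).filter (fun j => N - 1 - j ∉ A)`. The map `(a, b) ↦ (N - 1 - b, N - 1 - a)` is a bijection from the pairs `p ≤ a < b < q`, `a ∈ A`, `b ∉ A` onto the pairs
`N - q ≤ a' < b' < N - p`, `a' ∈ A'`, `b' ∉ A'`, and `rev N r a b ↔ r a' b'`, `rev N r b a ↔ r b' a'`.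
-/

set_option autoImplicit false

open Finset Classical

namespace UT35

private theorem card_mir {N p q : ℕ} (hq : q ≤ N) (A : Finset ℕ) (R R' : ℕ → ℕ → Prop)
    (hR : ∀ a b, a < N → b < N → (R a b ↔ R' (N - 1 - b) (N - 1 - a))) :
    ((Ico p q ×ˢ Ico p q).filter fun x => x.1 < x.2 ∧ x.1 ∈ A ∧ x.2 ∉ A ∧ R x.1 x.2).card =
    ((Ico (N - q) (N - p) ×ˢ Ico (N - q) (N - p)).filter fun x => x.1 < x.2 ∧
      x.1 ∈ (range N).filter (fun j => N - 1 - j ∉ A) ∧
      x.2 ∉ (range N).filter (fun j => N - 1 - j ∉ A) ∧ R' x.1 x.2).card := by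
  apply card_nbij' (fun x => (N - 1 - x.2, N - 1 - x.1)) (fun x => (N - 1 - x.2, N - 1 - x.1))
  · rintro ⟨a, b⟩ h
    rw [mem_coe, mem_filter, mem_product, mem_Ico, mem_Ico] at h
    obtain ⟨⟨h1, h2⟩, h3, h4, h5, h6⟩ := h
    simp only at h1 h2 h3 h4 h5 h6
    rw [mem_coe, mem_filter, mem_product, mem_Ico, mem_Ico, mem_filter, mem_filter, mem_range, mem_range]
    have e1 : N - 1 - (N - 1 - a) = a := by omega
    have e2 : N - 1 - (N - 1 - b) = b := by omega
    refine ⟨⟨by simp only; omega, by simp only; omega⟩, by simp only; omega, ⟨by simp only; omega, ?_⟩, ?_, ?_⟩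
    · simp only [e2]
      exact h5
    · simp only [e1]
      exact fun h => h.2 h4
    · exact (hR a b (by omega) (by omega)).1 h6
  · rintro ⟨a, b⟩ h
    rw [mem_coe, mem_filter, mem_product, mem_Ico, mem_Ico, mem_filter, mem_filter, mem_range, mem_range] at h
    obtain ⟨⟨h1, h2⟩, h3, h4, h5, h6⟩ := h
    simp only at h1 h2 h3 h4 h5 h6
    have e1 : N - 1 - (N - 1 - a) = a := by omega
    have e2 : N - 1 - (N - 1 - b) = b := by omega
    rw [mem_coe, mem_filter, mem_product, mem_Ico, mem_Ico]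
    refine ⟨⟨by simp only; omega, by simp only; omega⟩, by simp only; omega, ?_, ?_, ?_⟩
    · by_contra hcon
      exact h5 ⟨by omega, hcon⟩
    · exact h4.2
    · apply (hR (N - 1 - b) (N - 1 - a) (by omega) (by omega)).2
      rw [e1, e2]
      exact h6
  · rintro ⟨a, b⟩ h
    rw [mem_coe, mem_filter, mem_product, mem_Ico, mem_Ico] at h
    obtain ⟨⟨h1, h2⟩, _⟩ := h
    simp only at h1 h2
    ext
    · simp only; omega
    · simp only; omega
  · rintro ⟨a, b⟩ h
    rw [mem_coe, mem_filter, mem_product, mem_Ico, mem_Ico] at h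
    obtain ⟨⟨h1, h2⟩, _⟩ := h
    simp only at h1 h2
    ext
    · simp only; omega
    · simp only; omega

theorem TS.rev {N : ℕ} {r : ℕ → ℕ → Prop} (ts : TS N r) : TS N (rev N r) := by
  refine ⟨?_, ?_, ?_⟩
  · intro i j h
    exact ts.asym _ _ h
  · intro i j hi hj hij
    exact ts.tot (N - 1 - j) (N - 1 - i) (by omega) (by omega) (by omega)
  · intro p q hq A
    have h := ts.med (N - q) (N - p) (Nat.sub_le _ _) ((range N).filter (fun j => N - 1 - j ∉ A))
    have h1 := card_mir (p := p) hq A (fun a b => UT35.rev N r b a) (fun a b => r b a) (by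
      intro a b ha hb
      exact Iff.rfl)
    have h2 := card_mir (p := p) hq A (fun a b => UT35.rev N r a b) (fun a b => r a b) (by
      intro a b ha hb
      exact Iff.rfl)
    rw [h1, h2]
    exact h

end UT35
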