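import Pool.Agent.UT35.VSl
import Pool.Agent.UT35.InvL
import Pool.Agent.UT35.MirA

/-!
# [UT35-MIRB] floats, slots and sparsity in the reversed order

`tau_mir`: let `K = N - 1 - k`. `K + 1 ∈ mir N F ↔ k - 1 ∈ F` (with `1 ≤ k`) and `rev N r (K + 2) K = r k (k - 2)` (for `2 ≤ k`); `K - 1 ∈ mir N F ↔ k + 1 ∈ F` and
`rev N r K (K - 2) = r (k + 2) k`. The two clauses of `tau` exclude each other by `Adm.sep`, so it does not matter that their order is exchanged.
All floats are in `[20, N - 21]`. `Inv.mir` : `f ↦ N - 1 - f` is a bijection of the floats in `[lo, hi)` onto those in `[N - hi, N - lo)`.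
-/

set_option autoImplicit false

open Finset Classical

namespace UT35

/-- reversed set of floats -/
def mir (N : ℕ) (F : Finset ℕ) : Finset ℕ := F.image fun f => N - 1 - f

variable {N : ℕ} {r : ℕ → ℕ → Prop} {F : Finset ℕ}

theorem Adm.mir (adm : Adm N F) : Adm N (mir N F) := by
  have key : ∀ f' ∈ UT35.mir N F, ∃ f ∈ F, N - 1 - f = f' := fun f' h => mem_image.1 h
  refine ⟨fun f' h => ?_, fun f' h => ?_, fun f' h g' h' hlt => ?_⟩
  · obtain ⟨f, hf, rfl⟩ := key f' h
    have := adm.hi f hf
    omega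
  · obtain ⟨f, hf, rfl⟩ := key f' h
    have := adm.lo f hf
    have := adm.hi f hf
    omega
  · obtain ⟨f, hf, rfl⟩ := key f' h
    obtain ⟨g, hg, rfl⟩ := key g' h'
    have h1 := adm.hi f hf
    have h2 := adm.hi g hg
    have h3 := adm.sep g hg f hf (by omega)
    omega

theorem mem_mir (adm : Adm N F) {k : ℕ} (hk : k < N) : N - 1 - k ∈ mir N F ↔ k ∈ F := by
  unfold UT35.mir
  rw [mem_image]
  constructor
  · rintro ⟨f, hf, h⟩
    have h1 := adm.hi f hf
    have : f = k := by omega
    rwa [← this]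
  · intro h
    exact ⟨k, h, rfl⟩

private lemma mem_succ (adm : Adm N F) {k : ℕ} (hk : k < N) : N - 1 - k + 1 ∈ mir N F ↔ k - 1 ∈ F := by
  rcases Nat.eq_zero_or_pos k with h | h
  · subst h
    constructor
    · intro h1
      have := adm.mir.hi _ h1
      omega
    · intro h1
      have := adm.lo _ h1
      omega
  · rw [← mem_mir adm (k := k - 1) (by omega)]
    have : N - 1 - (k - 1) = N - 1 - k + 1 := by omega
    rw [this]

private lemma mem_pred (adm : Adm N F) {k : ℕ} (hk : k < N) : N - 1 - k - 1 ∈ mir N F ↔ k + 1 ∈ F := by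
  by_cases h : k + 1 < N
  · rw [← mem_mir adm (k := k + 1) h]
    have : N - 1 - (k + 1) = N - 1 - k - 1 := by omega
    rw [this]
  · constructor
    · intro h1
      have := adm.mir.lo _ h1
      omega
    · intro h1
      have := adm.hi _ h1
      omega

theorem tau_mir (adm : Adm N F) {k : ℕ} (hk : k < N) :
    tau (rev N r) (mir N F) (N - 1 - k) = N - 1 - tau r F k := by
  have m1 := mem_succ adm hk
  have m2 := mem_pred adm hk
  unfold tau
  by_cases h1 : k + 1 ∈ F
  · have a1 := adm.hi _ h1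
    have h2 : k - 1 ∉ F := by
      intro h
      have a2 := adm.lo _ h
      have := adm.sep _ h _ h1 (by omega)
      omega
    have e1 : rev N r (N - 1 - k) (N - 1 - k - 2) ↔ r (k + 2) k := by
      unfold rev
      have e2 : N - 1 - (N - 1 - k - 2) = k + 2 := by omega
      have e3 : N - 1 - (N - 1 - k) = k := by omega
      rw [e2, e3]
    rw [if_neg (fun h => h2 (m1.1 h.1))]
    by_cases h3 : r (k + 2) k
    · rw [if_pos ⟨m2.2 h1, e1.2 h3⟩, if_pos ⟨h1, h3⟩]
      omega
    · rw [if_neg (fun h => h3 (e1.1 h.2)), if_neg (fun h => h3 h.2), if_neg (fun h => h2 h.1)]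
  · by_cases h2 : k - 1 ∈ F
    · have a1 := adm.lo _ h2
      have e1 : rev N r (N - 1 - k + 2) (N - 1 - k) ↔ r k (k - 2) := by
        unfold rev
        have e2 : N - 1 - (N - 1 - k + 2) = k - 2 := by omega
        have e3 : N - 1 - (N - 1 - k) = k := by omega
        rw [e2, e3]
      by_cases h3 : r k (k - 2)
      · rw [if_pos ⟨m1.2 h2, e1.2 h3⟩, if_neg (fun h => h1 h.1), if_pos ⟨h2, h3⟩]
        omega
      · rw [if_neg (fun h => h3 (e1.1 h.2)), if_neg (fun h => h1 (m2.1 h.1)),
          if_neg (fun h => h1 h.1), if_neg (fun h => h3 h.2)]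
    · rw [if_neg (fun h => h2 (m1.1 h.1)), if_neg (fun h => h1 (m2.1 h.1)),
        if_neg (fun h => h1 h.1), if_neg (fun h => h2 h.1)]

private lemma slots_mir (adm : Adm N F) {lo hi : ℕ} (h : hi ≤ N) :
    slots (mir N F) (N - hi) (N - lo) = (slots F lo hi).image fun k => N - 1 - k := by
  ext j
  unfold slots
  rw [mem_filter, mem_Ico, mem_image]
  constructor
  · rintro ⟨⟨h1, h2⟩, h3⟩
    refine ⟨N - 1 - j, ?_, by omega⟩
    rw [mem_filter, mem_Ico]
    refine ⟨⟨by omega, by omega⟩, ?_⟩
    rw [← mem_mir adm (k := N - 1 - j) (by omega)]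
    have : N - 1 - (N - 1 - j) = j := by omega
    rwa [this]
  · rintro ⟨k, hk, rfl⟩
    rw [mem_filter, mem_Ico] at hk
    refine ⟨⟨by omega, by omega⟩, ?_⟩
    rw [mem_mir adm (by omega)]
    exact hk.2

theorem sl_mir (adm : Adm N F) {lo hi : ℕ} (h : hi ≤ N) : sl (mir N F) (N - hi) (N - lo) = sl F lo hi := by
  unfold sl
  rw [slots_mir adm h]
  refine card_image_of_injOn fun k hk k' hk' he => ?_
  have h1 : k < hi := by
    have := mem_coe.1 hk
    unfold slots at this
    rw [mem_filter, mem_Ico] at this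
    exact this.1.2
  have h2 : k' < hi := by
    have := mem_coe.1 hk'
    unfold slots at this
    rw [mem_filter, mem_Ico] at this
    exact this.1.2
  have h3 : N - 1 - k = N - 1 - k' := he
  omega

theorem VS_mir (adm : Adm N F) {lo hi : ℕ} (h : hi ≤ N) :
    VS (rev N r) (mir N F) (N - hi) (N - lo) = (VS r F lo hi).image fun k => N - 1 - k := by
  unfold VS
  rw [slots_mir adm h, image_image, image_image]
  refine image_congr fun k hk => ?_
  have h1 : k < hi := by
    have := mem_coe.1 hk
    unfold slots at this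
    rw [mem_filter, mem_Ico] at this
    exact this.1.2
  exact tau_mir adm (by omega)

theorem Inv.mir (adm : Adm N F) {D H lo hi s e : ℕ} {σ : ℕ → ℕ} (hN : hi ≤ N) (h : Inv D H F σ lo hi s e) :
    Inv D H (UT35.mir N F) (fun k => σ (N - 1 - k)) (N - hi) (N - lo) s e := by
  have key : ∀ f' ∈ UT35.mir N F, ∃ f ∈ F, N - 1 - f = f' := fun f' h => mem_image.1 h
  refine ⟨fun f' hf' g' hg' h1 h2 h3 => ?_, fun k => ?_⟩
  · obtain ⟨f, hf, rfl⟩ := key f' hf'
    obtain ⟨g, hg, rfl⟩ := key g' hg'
    have a1 := adm.hi f hf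
    have a2 := adm.hi g hg
    have h4 := h.sep g hg f hf (by omega) (by omega) (by omega)
    have e1 : N - 1 - (N - 1 - f) = f := by omega
    have e2 : N - 1 - (N - 1 - g) = g := by omega
    have e3 : N - 1 - g - (N - 1 - f) = f - g := by omega
    rw [e1, e2, e3, min_comm]
    exact h4
  · refine le_trans ?_ (h.cnt k)
    refine le_trans (card_le_card ?_) (card_image_le (f := fun f => N - 1 - f))
    intro f' hf'
    rw [mem_filter] at hf'
    obtain ⟨f, hf, rfl⟩ := key f' hf'.1
    have a1 := adm.hi f hf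
    have e1 : N - 1 - (N - 1 - f) = f := by omega
    rw [e1] at hf'
    rw [mem_image]
    refine ⟨f, ?_, rfl⟩
    rw [mem_filter]
    exact ⟨hf, by omega, by omega, hf'.2.2.2⟩

end UT35
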