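import Mathlib

/-!
# UT35: rooted oriented trees (definitions)

`par` is the parent function (`par root = root`), `dep` the depth, `out v` says that the arc between `v` and its parent
goes from the parent to `v` (meaningful for `v ≠ root` only).
-/

set_option autoImplicit false

open Finset Classical

namespace UT35

/-- a rooted tree on `V` with orientations of the edges -/
structure RT (V : Type) where
  par : V → V
  root : V
  dep : V → ℕ
  out : V → Prop
  par_root : par root = root
  dep_par : ∀ v, v ≠ root → dep v = dep (par v) + 1

namespace RT

variable {V : Type} (t : RT V)

/-- the arc between `x` and its parent -/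
noncomputable def arc (x : V) : V × V := if t.out x then (t.par x, x) else (x, t.par x)

/-- the arcs between the elements of `S` and their parents -/
noncomputable def AR (S : Finset V) : Finset (V × V) := S.image t.arc

/-- all arcs reversed -/
def op : RT V := { t with out := fun x => ¬ t.out x }

variable [Fintype V]

/-- children -/
noncomputable def ch (v : V) : Finset V := univ.filter fun c => c ≠ t.root ∧ t.par c = v

/-- descendants of `v`, including `v` -/
noncomputable def De (v : V) : Finset V := univ.filter fun x => ∃ n : ℕ, t.par^[n] x = v

/-- children with an arc from `v` -/
noncomputable def oc (v : V) : Finset V := (t.ch v).filter fun c => t.out c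

/-- children with an arc to `v` -/
noncomputable def ic (v : V) : Finset V := (t.ch v).filter fun c => ¬ t.out c

/-- `v` has in-degree one and out-degree one, the two edges being the one to the parent and the one to the only child -/
def Pass (v : V) : Prop := v ≠ t.root ∧ ∃ c, t.ch v = {c} ∧ (t.out c ↔ t.out v)

/-- `v` and the next vertices below it, `n` vertices altogether, are passed by the path going down from `v` -/
def LF : ℕ → V → Prop
  | 0, _ => True
  | n + 1, v => t.Pass v ∧ ∀ c ∈ t.ch v, LF n c

/-- at most `D` children; below every vertex which is not passed (the root for example) all paths go on for `M` steps -/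
structure Good (D M : ℕ) : Prop where
  deg : ∀ v, (t.ch v).card ≤ D
  long : ∀ v, v ≠ t.root → ¬ t.Pass (t.par v) → t.LF M v

end RT

end UT35
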