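import Pool.Agent.UT35.RT

/-!
# [UT35-RTA] descendants

`De_self`: `n = 0`. `De_trans`: add the numbers of iterations. `De_eq`: if `par^[n] x = v` with `n` minimal, `n = m + 1`, then `c = par^[m] x` is a child of `v`
(`c ≠ root`, since otherwise `v = par c = root = c` and `n` is not minimal). `not_mem_De`: depths: `dep` strictly decreases along `par` away from the root, and `par^[n] v = c` with `par c = v`, `c ≠ root` would
give `dep c ≤ dep v < dep c`. `De_disj`: if `par^[n] x = c`, `par^[m] x = c'`, `n ≤ m`, then `c' = par^[m - n] c`; if `m = n` then `c = c'`; otherwise `c' = par^[m - n - 1] v` so `dep c' ≤ dep v < dep c'`.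
`ne_root`: `par^[n] root = root`. `De_root`: by induction on `dep x` some iterate of `par` maps `x` to the root.
-/

set_option autoImplicit false

open Finset Classical

namespace UT35

namespace RT

variable {V : Type} [Fintype V] (t : RT V)

theorem mem_ch {c v : V} : c ∈ t.ch v ↔ c ≠ t.root ∧ t.par c = v := by
  simp [ch]

private lemma mem_De {x v : V} : x ∈ t.De v ↔ ∃ n : ℕ, t.par^[n] x = v := by
  simp [De]

omit [Fintype V] in
private lemma dep_par_le (x : V) : t.dep (t.par x) ≤ t.dep x := by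
  by_cases h : x = t.root
  · rw [h, t.par_root]
  · rw [t.dep_par x h]
    omega

omit [Fintype V] in
private lemma dep_iter_le (n : ℕ) (x : V) : t.dep (t.par^[n] x) ≤ t.dep x := by
  induction n with
  | zero => exact le_refl _
  | succ n ih =>
    rw [Function.iterate_succ_apply']
    exact le_trans (t.dep_par_le _) ih

private lemma dep_ch {c v : V} (h : c ∈ t.ch v) : t.dep c = t.dep v + 1 := by
  obtain ⟨h1, h2⟩ := t.mem_ch.1 h
  rw [t.dep_par c h1, h2]

private lemma ch_iter {c c' v : V} (h : c ∈ t.ch v) (h' : c' ∈ t.ch v) {k : ℕ}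
    (hk : t.par^[k] c = c') : c = c' := by
  cases k with
  | zero => exact hk
  | succ k =>
    rw [Function.iterate_succ_apply, (t.mem_ch.1 h).2] at hk
    have h1 := t.dep_iter_le k v
    rw [hk, t.dep_ch h'] at h1
    omega

theorem De_self (v : V) : v ∈ t.De v := by
  exact t.mem_De.2 ⟨0, rfl⟩

theorem De_trans {x v : V} (h : x ∈ t.De v) : t.De x ⊆ t.De v := by
  obtain ⟨n, hn⟩ := t.mem_De.1 h
  intro y hy
  obtain ⟨m, hm⟩ := t.mem_De.1 hy
  exact t.mem_De.2 ⟨n + m, by rw [Function.iterate_add_apply, hm, hn]⟩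

theorem par_mem {x v : V} (h : x ∈ t.De v) (hx : x ≠ v) : t.par x ∈ t.De v := by
  obtain ⟨n, hn⟩ := t.mem_De.1 h
  cases n with
  | zero => exact absurd hn hx
  | succ m => exact t.mem_De.2 ⟨m, by rw [← Function.iterate_succ_apply]; exact hn⟩

theorem De_ch {c v : V} (h : c ∈ t.ch v) : t.De c ⊆ t.De v := by
  exact t.De_trans (t.mem_De.2 ⟨1, (t.mem_ch.1 h).2⟩)

theorem De_eq (v : V) : t.De v = insert v ((t.ch v).biUnion t.De) := by
  ext x
  constructor
  · intro hx
    have hex := t.mem_De.1 hx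
    rw [Finset.mem_insert, Finset.mem_biUnion]
    by_cases h0 : Nat.find hex = 0
    · left
      have h1 := Nat.find_spec hex
      rw [h0] at h1
      exact h1
    · right
      obtain ⟨m, hm⟩ := Nat.exists_eq_succ_of_ne_zero h0
      have h1 := Nat.find_spec hex
      rw [hm, Nat.succ_eq_add_one, Function.iterate_succ_apply'] at h1
      have h2 : t.par^[m] x ≠ v := Nat.find_min hex (by omega)
      refine ⟨t.par^[m] x, t.mem_ch.2 ⟨?_, h1⟩, t.mem_De.2 ⟨m, rfl⟩⟩
      intro h3
      apply h2
      rw [h3, t.par_root] at h1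
      rw [h3, h1]
  · intro hx
    rw [Finset.mem_insert, Finset.mem_biUnion] at hx
    rcases hx with hx | ⟨c, hc, hx⟩
    · rw [hx]
      exact t.De_self v
    · exact t.De_ch hc hx

theorem not_mem_De {c v : V} (h : c ∈ t.ch v) : v ∉ t.De c := by
  intro hv
  obtain ⟨n, hn⟩ := t.mem_De.1 hv
  have h1 := t.dep_iter_le n v
  rw [hn, t.dep_ch h] at h1
  omega

theorem not_mem_bi {v : V} {S : Finset V} (h : S ⊆ t.ch v) : v ∉ S.biUnion t.De := by
  intro hv
  obtain ⟨c, hc, hx⟩ := Finset.mem_biUnion.1 hv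
  exact t.not_mem_De (h hc) hx

theorem De_disj {c c' v : V} (h : c ∈ t.ch v) (h' : c' ∈ t.ch v) (hn : c ≠ c') : Disjoint (t.De c) (t.De c') := by
  rw [Finset.disjoint_left]
  intro x hx hx'
  obtain ⟨n, hn'⟩ := t.mem_De.1 hx
  obtain ⟨m, hm⟩ := t.mem_De.1 hx'
  rcases le_total n m with hnm | hnm
  · apply hn
    apply t.ch_iter h h' (k := m - n)
    rw [← hn', ← Function.iterate_add_apply, Nat.sub_add_cancel hnm, hm]
  · apply hn
    symm
    apply t.ch_iter h' h (k := n - m)
    rw [← hm, ← Function.iterate_add_apply, Nat.sub_add_cancel hnm, hn']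

theorem bi_disj {v : V} {S S' : Finset V} (h : S ⊆ t.ch v) (h' : S' ⊆ t.ch v) (hd : Disjoint S S') :
    Disjoint (S.biUnion t.De) (S'.biUnion t.De) := by
  rw [Finset.disjoint_biUnion_left]
  intro c hc
  rw [Finset.disjoint_biUnion_right]
  intro c' hc'
  refine t.De_disj (h hc) (h' hc') ?_
  intro e
  rw [e] at hc
  exact Finset.disjoint_left.1 hd hc hc'

theorem ne_root {x v : V} (h : x ∈ t.De v) (hv : v ≠ t.root) : x ≠ t.root := by
  intro e
  obtain ⟨n, hn⟩ := t.mem_De.1 h
  rw [e, Function.iterate_fixed t.par_root n] at hn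
  exact hv hn.symm

theorem De_root : t.De t.root = univ := by
  rw [Finset.eq_univ_iff_forall]
  have key : ∀ n : ℕ, ∀ x : V, t.dep x ≤ n → x ∈ t.De t.root := by
    intro n
    induction n with
    | zero =>
      intro x hx
      by_cases h : x = t.root
      · rw [h]
        exact t.De_self _
      · have := t.dep_par x h
        omega
    | succ n ih =>
      intro x hx
      by_cases h : x = t.root
      · rw [h]
        exact t.De_self _
      · have h1 := t.dep_par x h
        obtain ⟨m, hm⟩ := t.mem_De.1 (ih (t.par x) (by omega))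
        exact t.mem_De.2 ⟨m + 1, by rw [Function.iterate_succ_apply]; exact hm⟩
  exact fun x => key _ x le_rfl

theorem card_De_lt {c v : V} (h : c ∈ t.ch v) : (t.De c).card < (t.De v).card := by
  apply Finset.card_lt_card
  refine ⟨t.De_ch h, ?_⟩
  intro h1
  exact t.not_mem_De h (h1 (t.De_self v))

theorem ch_eq (v : V) : t.ch v = t.ic v ∪ t.oc v := by
  ext c
  simp only [ic, oc, Finset.mem_union, Finset.mem_filter]
  by_cases h : t.out c <;> simp [h]

theorem ic_sub (v : V) : t.ic v ⊆ t.ch v := filter_subset _ _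

theorem oc_sub (v : V) : t.oc v ⊆ t.ch v := filter_subset _ _

/-- if a vertex of a subtree is in the set `S` of children ... -/
theorem De_split (v : V) {S S' : Finset V} (h : t.ch v = S ∪ S') :
    t.De v = insert v (S.biUnion t.De ∪ S'.biUnion t.De) := by
  rw [t.De_eq v, h]
  congr 1
  ext x
  simp only [Finset.mem_biUnion, Finset.mem_union]
  constructor
  · rintro ⟨c, hc | hc, hx⟩
    · exact Or.inl ⟨c, hc, hx⟩
    · exact Or.inr ⟨c, hc, hx⟩
  · rintro (⟨c, hc, hx⟩ | ⟨c, hc, hx⟩)
    · exact ⟨c, Or.inl hc, hx⟩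
    · exact ⟨c, Or.inr hc, hx⟩

/-- arcs: an arc between `x` and its parent, for `x` in the subtree of `v`, has both ends in the subtree or `x = v` -/
theorem arc_mem {x v : V} {a b : V} (hx : x ∈ t.De v) (hn : x ≠ v) (h : t.arc x = (a, b)) :
    a ∈ t.De v ∧ b ∈ t.De v := by
  have hp := t.par_mem hx hn
  unfold arc at h
  split_ifs at h with ho
  · rw [Prod.mk.injEq] at h
    obtain ⟨h1, h2⟩ := h
    rw [← h1, ← h2]
    exact ⟨hp, hx⟩
  · rw [Prod.mk.injEq] at h
    obtain ⟨h1, h2⟩ := h
    rw [← h1, ← h2]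
    exact ⟨hx, hp⟩

end RT

end UT35
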