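import Pool.Agent.UT35.RTA

/-!
# [UT35-RTB] reversal, and passed vertices

`op`: everything except `out`, `arc` is literally the same (`De`, `ch` by `rfl`); `AR_op`: `arc` is exchanged by `Prod.swap`; `op_op`: `propext`, `not_not`.
`LF_succ`: definition of `Pass`. `chain3`: three times `LF_succ`. `LF_card`: `LF_succ`, induction.
-/

set_option autoImplicit false

open Finset Classical

namespace UT35

namespace RT

variable {V : Type} [Fintype V] (t : RT V)

theorem De_op (v : V) : t.op.De v = t.De v := rfl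

theorem ch_op (v : V) : t.op.ch v = t.ch v := rfl

theorem root_op : t.op.root = t.root := rfl

theorem op_op : t.op.op = t := by
  unfold op
  cases t with
  | mk par root dep out h1 h2 =>
    simp only [not_not]

theorem AR_op (S : Finset V) : t.op.AR S = (t.AR S).image Prod.swap := by
  unfold AR
  rw [image_image]
  refine image_congr fun x _ => ?_
  show t.op.arc x = Prod.swap (t.arc x)
  unfold arc
  by_cases h : t.out x
  · rw [if_pos h, if_neg (show ¬ t.op.out x from not_not.mpr h)]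
    rfl
  · rw [if_neg h, if_pos (show t.op.out x from h)]
    rfl

theorem oc_op (v : V) : t.op.oc v = t.ic v := by
  ext c
  simp only [oc, ic, mem_filter]
  exact Iff.rfl

theorem ic_op (v : V) : t.op.ic v = t.oc v := by
  ext c
  simp only [oc, ic, mem_filter]
  constructor
  · rintro ⟨h1, h2⟩
    exact ⟨h1, not_not.mp h2⟩
  · rintro ⟨h1, h2⟩
    exact ⟨h1, not_not.mpr h2⟩

theorem Pass_op {v : V} : t.op.Pass v ↔ t.Pass v := by
  unfold Pass
  constructor
  · rintro ⟨h1, c, h2, h3⟩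
    exact ⟨h1, c, h2, not_iff_not.mp h3⟩
  · rintro ⟨h1, c, h2, h3⟩
    exact ⟨h1, c, h2, not_iff_not.mpr h3⟩

theorem LF_op {n : ℕ} {v : V} : t.op.LF n v ↔ t.LF n v := by
  induction n generalizing v with
  | zero => exact Iff.rfl
  | succ n ih =>
    unfold LF
    rw [t.Pass_op]
    constructor
    · rintro ⟨h1, h2⟩
      exact ⟨h1, fun c hc => ih.mp (h2 c hc)⟩
    · rintro ⟨h1, h2⟩
      exact ⟨h1, fun c hc => ih.mpr (h2 c hc)⟩

theorem Good_op {D M : ℕ} (h : t.Good D M) : t.op.Good D M := by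
  refine ⟨h.deg, fun v hv hp => ?_⟩
  exact t.LF_op.mpr (h.long v hv (fun hq => hp (t.Pass_op.mpr hq)))

theorem LF_mono {m n : ℕ} {v : V} (h : t.LF n v) (hm : m ≤ n) : t.LF m v := by
  induction m generalizing n v with
  | zero => exact trivial
  | succ m ih =>
    obtain ⟨n, rfl⟩ : ∃ k, n = k + 1 := ⟨n - 1, by omega⟩
    exact ⟨h.1, fun c hc => ih (h.2 c hc) (by omega)⟩

/-- one step down -/
theorem LF_succ {n : ℕ} {v : V} (h : t.LF (n + 1) v) : ∃ c, t.ch v = {c} ∧ (t.out c ↔ t.out v) ∧ t.LF n c ∧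
    t.De v = insert v (t.De c) ∧ v ∉ t.De c ∧ c ≠ t.root ∧ t.par c = v ∧ v ≠ t.root ∧ t.Pass v := by
  obtain ⟨hp, hl⟩ := h
  obtain ⟨hr, c, hc, ho⟩ := id hp
  have hcm : c ∈ t.ch v := by rw [hc]; exact mem_singleton_self c
  refine ⟨c, hc, ho, hl c hcm, ?_, t.not_mem_De hcm, (t.mem_ch.mp hcm).1, (t.mem_ch.mp hcm).2, hr, hp⟩
  rw [t.De_eq v, hc, singleton_biUnion]

theorem LF_card {n : ℕ} {v : V} (h : t.LF n v) : n ≤ (t.De v).card := by
  induction n generalizing v with
  | zero => exact Nat.zero_le _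
  | succ n ih =>
    obtain ⟨c, _, _, h3, h4, h5, _⟩ := t.LF_succ h
    have := ih h3
    rw [h4, card_insert_of_notMem h5]
    omega

/-- three steps down; the last vertex `c3` need not be passed -/
theorem chain3 {v : V} (h : t.LF 3 v) : ∃ c1 c2 c3, c1 ≠ t.root ∧ c2 ≠ t.root ∧ c3 ≠ t.root ∧ t.par c1 = v ∧ t.par c2 = c1 ∧
    t.par c3 = c2 ∧ (t.out c1 ↔ t.out v) ∧ (t.out c2 ↔ t.out v) ∧ (t.out c3 ↔ t.out v) ∧
    t.De v = insert v (insert c1 (insert c2 (t.De c3))) ∧ [v, c1, c2].Nodup ∧ (∀ x ∈ [v, c1, c2], x ∉ t.De c3) ∧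
    (∀ n, t.LF (n + 3) v ↔ t.LF n c3) := by
  obtain ⟨c1, a1, a2, a3, a4, a5, a6, a7, a8, a9⟩ := t.LF_succ h
  obtain ⟨c2, b1, b2, b3, b4, b5, b6, b7, b8, b9⟩ := t.LF_succ a3
  obtain ⟨c3, d1, d2, d3, d4, d5, d6, d7, d8, d9⟩ := t.LF_succ b3
  have hone : ∀ {x y : V} (n : ℕ), t.Pass x → t.ch x = {y} → (t.LF (n + 1) x ↔ t.LF n y) := by
    intro x y n hx hy
    constructor
    · intro hh
      exact hh.2 y (by rw [hy]; exact mem_singleton_self y)
    · intro hh
      refine ⟨hx, fun c hc => ?_⟩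
      rw [hy, mem_singleton] at hc
      rw [hc]
      exact hh
  have e1 : t.De c1 = insert c1 (insert c2 (t.De c3)) := by rw [b4, d4]
  have h12 : c1 ∉ insert c2 (t.De c3) := by rw [← d4]; exact b5
  have hv : v ∉ insert c1 (insert c2 (t.De c3)) := by rw [← e1]; exact a5
  rw [mem_insert, mem_insert, not_or, not_or] at hv
  rw [mem_insert, not_or] at h12
  refine ⟨c1, c2, c3, a6, b6, d6, a7, b7, d7, a2, b2.trans a2, (d2.trans b2).trans a2, ?_, ?_, ?_, ?_⟩
  · rw [a4, e1]
  · simp only [List.nodup_cons, List.mem_cons, List.not_mem_nil, or_false, not_or, not_false_eq_true,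
      List.nodup_nil, and_true]
    exact ⟨⟨hv.1, hv.2.1⟩, h12.1⟩
  · intro x hx
    simp only [List.mem_cons, List.not_mem_nil, or_false] at hx
    rcases hx with rfl | rfl | rfl
    · exact hv.2.2
    · exact h12.2
    · exact d5
  · intro n
    rw [show n + 3 = (n + 2) + 1 from rfl, hone (n + 2) a9 a1, show n + 2 = (n + 1) + 1 from rfl,
      hone (n + 1) b9 b1, hone n d9 d1]

end RT

end UT35
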