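import Pool.Agent.UT35.Arcs

/-!
# [UT35-SEL] a path of length three which avoids a small set

Let `l = q - p - 1` (so `20000 < l`). By `arcs` there are at least `l ^ 2 / 10000` pairs `(y, y')` in `Ioo p q` with `r p y`, `r y y'`, `r y' q`. At most `|B| l` of them have
`y ∈ B`, at most `|B| l` have `y' ∈ B`, and at most `(2 h + 1) l` have `|y - y'| < h`. Since `(2 |B| + 2 h + 1) l < l ^ 2 / 20000` there is a pair as required.
-/

set_option autoImplicit false

open Finset Classical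

namespace UT35

theorem sel {N : ℕ} {r : ℕ → ℕ → Prop} (ts : TS N r) {p q : ℕ} (hpq : p < q) (hq : q < N) (B : Finset ℕ) (h : ℕ)
    (hl : 20000 * (2 * B.card + 2 * h + 1) < q - p - 1) :
    ∃ y y', p < y ∧ y < q ∧ p < y' ∧ y' < q ∧ y ∉ B ∧ y' ∉ B ∧ (y + h ≤ y' ∨ y' + h ≤ y) ∧
      r p y ∧ r y y' ∧ r y' q := by
  by_contra hcon
  push Not at hcon
  have harcs := arcs ts hpq hq (by omega)
  set l := q - p - 1 with hldef
  have hW : (Ioo p q).card = l := by rw [Nat.card_Ioo]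
  set S := (Ioo p q ×ˢ Ioo p q).filter fun x => r p x.1 ∧ r x.1 x.2 ∧ r x.2 q with hS
  have hsub : S ⊆ (B ×ˢ Ioo p q ∪ Ioo p q ×ˢ B) ∪
      (Ioo p q ×ˢ range (2 * h + 1)).image (fun z : ℕ × ℕ => (z.1, z.1 + z.2 - h)) := by
    rintro ⟨y, y'⟩ hx
    rw [hS, mem_filter, mem_product, mem_Ioo, mem_Ioo] at hx
    obtain ⟨⟨⟨h1, h2⟩, h3, h4⟩, h5, h6, h7⟩ := hx
    simp only at h1 h2 h3 h4 h5 h6 h7
    by_cases hb : y ∈ B
    · exact mem_union_left _ (mem_union_left _ (mem_product.2 ⟨hb, mem_Ioo.2 ⟨h3, h4⟩⟩))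
    by_cases hb' : y' ∈ B
    · exact mem_union_left _ (mem_union_right _ (mem_product.2 ⟨mem_Ioo.2 ⟨h1, h2⟩, hb'⟩))
    apply mem_union_right
    by_cases hd : y + h ≤ y' ∨ y' + h ≤ y
    · exact absurd h7 (hcon y y' h1 h2 h3 h4 hb hb' hd h5 h6)
    · rw [mem_image]
      push Not at hd
      refine ⟨(y, y' + h - y), mem_product.2 ⟨mem_Ioo.2 ⟨h1, h2⟩, mem_range.2 ?_⟩, ?_⟩
      · show y' + h - y < 2 * h + 1
        omega
      · show (y, y + (y' + h - y) - h) = (y, y')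
        rw [Prod.mk.injEq]
        exact ⟨rfl, by omega⟩
  have hcard : S.card ≤ (2 * B.card + 2 * h + 1) * l := by
    calc S.card ≤ _ := card_le_card hsub
      _ ≤ (B ×ˢ Ioo p q ∪ Ioo p q ×ˢ B).card +
          ((Ioo p q ×ˢ range (2 * h + 1)).image (fun z : ℕ × ℕ => (z.1, z.1 + z.2 - h))).card := card_union_le _ _
      _ ≤ ((B ×ˢ Ioo p q).card + (Ioo p q ×ˢ B).card) + (Ioo p q ×ˢ range (2 * h + 1)).card :=
          add_le_add (card_union_le _ _) card_image_le
      _ = (2 * B.card + 2 * h + 1) * l := by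
          rw [card_product, card_product, card_product, hW, card_range]
          ring
  have h1 : l ^ 2 ≤ 10000 * ((2 * B.card + 2 * h + 1) * l) := harcs.trans (Nat.mul_le_mul_left _ hcard)
  have hl0 : 0 < l := by omega
  have h2 : l * l ≤ (10000 * (2 * B.card + 2 * h + 1)) * l := by
    calc l * l = l ^ 2 := by ring
      _ ≤ _ := h1
      _ = _ := by ring
  have h3 := Nat.le_of_mul_le_mul_right h2 hl0
  omega

end UT35
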