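import Pool.Agent.UT35.Half

/-!
# [UT35-TAU] the vertex carried by a slot

`tau_inj`: `tau` exchanges `f - 1` and `f + 1` for those `f ∈ F` with `r (f + 1) (f - 1)` and fixes the other non-floats (for `k ∉ F`; `k + 1 ∈ F` and
`k - 1 ∈ F` exclude each other by `Adm.sep`; note `20 ≤ f` for `f ∈ F`).
`tau_arc`: by `Adm.sep` `k' = k + 1`, or `k' = k + 2` and `f = k + 1 ∈ F`. In the second case `tau k`, `tau k'` are `f - 1`, `f + 1` in the order given by the arc
between them (`tot`). In the first case `k, k + 1 ∉ F`; if `f = k + 2 ∈ F` then `tau k = k = f - 2` (as `k - 1 ∉ F` by `sep`) and `tau (k + 1)` is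
`f + 1` if `r (f + 1) (f - 1)`, and then use `fix`, or `f - 1`, and then use `consec`; if `f = k - 1 ∈ F` it is similar (`tau k = f - 1` or `f + 1`,
`tau (k + 1) = f + 2`); otherwise `tau k = k`, `tau (k + 1) = k + 1`, `consec`. (All positions are `< N` by `Adm.hi`.)
-/

set_option autoImplicit false

open Finset Classical

namespace UT35

variable {N : ℕ} {r : ℕ → ℕ → Prop} {F : Finset ℕ}

theorem tau_far {k : ℕ} (h1 : k + 1 ∉ F) (h2 : k - 1 ∉ F) : tau r F k = k := by
  unfold tau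
  rw [if_neg (fun h => h1 h.1), if_neg (fun h => h2 h.1)]

theorem tau_le (k : ℕ) : tau r F k ≤ k + 2 := by
  unfold tau
  split_ifs <;> omega

theorem le_tau (k : ℕ) : k ≤ tau r F k + 2 := by
  unfold tau
  split_ifs <;> omega

theorem tau_lt (adm : Adm N F) {k : ℕ} (hk : k < N) : tau r F k < N := by
  unfold tau
  split_ifs with h1 h2
  · have := adm.hi _ h1.1
    omega
  · omega
  · exact hk

private theorem tau_cases (r : ℕ → ℕ → Prop) (F : Finset ℕ) (k : ℕ) :
    (k + 1 ∈ F ∧ r (k + 2) k ∧ tau r F k = k + 2) ∨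
    (¬ (k + 1 ∈ F ∧ r (k + 2) k) ∧ k - 1 ∈ F ∧ r k (k - 2) ∧ tau r F k = k - 2) ∨
    (¬ (k + 1 ∈ F ∧ r (k + 2) k) ∧ ¬ (k - 1 ∈ F ∧ r k (k - 2)) ∧ tau r F k = k) := by
  by_cases h1 : k + 1 ∈ F ∧ r (k + 2) k
  · exact Or.inl ⟨h1.1, h1.2, by unfold tau; rw [if_pos h1]⟩
  · by_cases h2 : k - 1 ∈ F ∧ r k (k - 2)
    · exact Or.inr (Or.inl ⟨h1, h2.1, h2.2, by unfold tau; rw [if_neg h1, if_pos h2]⟩)
    · exact Or.inr (Or.inr ⟨h1, h2, by unfold tau; rw [if_neg h1, if_neg h2]⟩)

private theorem two_floats (adm : Adm N F) {a b : ℕ} (ha : a ∈ F) (hb : b ∈ F) (h1 : a < b)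
    (h2 : b < a + 20) : False := by
  have := adm.sep a ha b hb h1
  omega

theorem tau_inj (adm : Adm N F) {k k' : ℕ} (hk : k ∉ F) (hk' : k' ∉ F) (h : tau r F k = tau r F k') : k = k' := by
  rcases tau_cases r F k with ⟨a1, a2, a3⟩ | ⟨a0, a1, a2, a3⟩ | ⟨a0, a1, a3⟩ <;>
  rcases tau_cases r F k' with ⟨b1, b2, b3⟩ | ⟨b0, b1, b2, b3⟩ | ⟨b0, b1, b3⟩ <;>
  rw [a3, b3] at h
  · omega
  · have e := adm.lo _ b1
    exact (two_floats adm a1 b1 (by omega) (by omega)).elim
  · exfalso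
    subst h
    exact b1 ⟨a1, a2⟩
  · have e := adm.lo _ a1
    exact (two_floats adm b1 a1 (by omega) (by omega)).elim
  · have e := adm.lo _ a1
    have e' := adm.lo _ b1
    omega
  · exfalso
    have e := adm.lo _ a1
    have e2 : k = k' + 2 := by omega
    subst e2
    exact b0 ⟨a1, a2⟩
  · exfalso
    subst h
    exact a1 ⟨b1, b2⟩
  · exfalso
    have e := adm.lo _ b1
    have e2 : k' = k + 2 := by omega
    subst e2
    exact a0 ⟨b1, b2⟩
  · exact h

theorem tau_arc (ts : TS N r) (adm : Adm N F) {k k' : ℕ} (hk : k ∉ F) (hk' : k' ∉ F) (h : k < k') (hN : k' < N)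
    (hb : ∀ j, k < j → j < k' → j ∈ F) : r (tau r F k) (tau r F k') := by
  have hk2 : k' ≤ k + 2 := by
    by_contra hc
    exact two_floats adm (hb (k + 1) (by omega) (by omega)) (hb (k + 2) (by omega) (by omega))
      (by omega) (by omega)
  rcases (by omega : k' = k + 1 ∨ k' = k + 2) with e | e
  · subst e
    by_cases h2 : k + 2 ∈ F
    · have e1 : tau r F k = k := by
        refine tau_far hk' fun h3 => ?_
        have := adm.lo _ h3
        exact two_floats adm h3 h2 (by omega) (by omega)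
      rcases tau_cases r F (k + 1) with ⟨a1, a2, a3⟩ | ⟨a0, a1, a2, a3⟩ | ⟨a0, a1, a3⟩
      · rw [e1, a3]
        have h4 := adm.hi _ h2
        exact (fix ts (y := k + 2) (by omega) (by omega) a2).1
      · exact absurd a1 hk
      · rw [e1, a3]
        exact consec ts hN
    · by_cases h3 : k - 1 ∈ F
      · have h4 := adm.lo _ h3
        have h5 := adm.hi _ h3
        have e1 : tau r F (k + 1) = k + 1 := tau_far h2 hk
        rcases tau_cases r F k with ⟨a1, a2, a3⟩ | ⟨a0, a1, a2, a3⟩ | ⟨a0, a1, a3⟩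
        · exact absurd a1 hk'
        · rw [e1, a3]
          obtain ⟨m, rfl⟩ : ∃ m, k = m + 2 := ⟨k - 2, by omega⟩
          exact (fix ts (y := m + 1) (by omega) (by omega) a2).2
        · rw [e1, a3]
          exact consec ts hN
      · rw [tau_far hk' h3, tau_far h2 hk]
        exact consec ts hN
  · subst e
    have h2 : k + 1 ∈ F := hb (k + 1) (by omega) (by omega)
    have h3 : k + 2 + 1 ∉ F := fun h3 => two_floats adm h2 h3 (by omega) (by omega)
    have h4 : k - 1 ∉ F := fun h4 => by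
      have := adm.lo _ h4
      exact two_floats adm h4 h2 (by omega) (by omega)
    rcases tau_cases r F k with ⟨a1, a2, a3⟩ | ⟨a0, a1, a2, a3⟩ | ⟨a0, a1, a3⟩
    · rcases tau_cases r F (k + 2) with ⟨b1, b2, b3⟩ | ⟨b0, b1, b2, b3⟩ | ⟨b0, b1, b3⟩
      · exact absurd b1 h3
      · rw [a3, b3]
        exact a2
      · exact absurd ⟨h2, a2⟩ b1
    · exact absurd a1 h4
    · rcases tau_cases r F (k + 2) with ⟨b1, b2, b3⟩ | ⟨b0, b1, b2, b3⟩ | ⟨b0, b1, b3⟩
      · exact absurd b1 h3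
      · exact absurd ⟨h2, b2⟩ a0
      · rw [a3, b3]
        rcases ts.tot k (k + 2) (by omega) hN (by omega) with h5 | h5
        · exact h5
        · exact absurd ⟨h2, h5⟩ a0

theorem tau_ins {y k : ℕ} (hy : 1 ≤ y) (h1 : k + 1 ≠ y) (h2 : k ≠ y + 1) : tau r (insert y F) k = tau r F k := by
  have e1 : k + 1 ∈ insert y F ↔ k + 1 ∈ F := by
    rw [mem_insert]
    exact ⟨fun h => h.resolve_left h1, Or.inr⟩
  have e2 : k - 1 ∈ insert y F ↔ k - 1 ∈ F := by
    rw [mem_insert]
    exact ⟨fun h => h.resolve_left (by omega), Or.inr⟩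
  unfold tau
  simp only [e1, e2]

end UT35
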