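import Pool.Agent.UT35.Tau
import Pool.Agent.UT35.Slot

/-!
# [UT35-VS] the vertices carried by an interval of slots

`card_VS`: `tau` is injective on non-floats. `VS_first`, `VS_last`: the positions in between are floats. `VS_ins`: the slots of `[lo, hi)` for `insert y F` are those for
`F` without `y`; `tau r F` fixes `y - 1, y, y + 1` (no element of `F` is near), `tau r (insert y F)` fixes or exchanges `y - 1`, `y + 1` (both are in
`[lo, hi)`) and agrees with `tau r F` elsewhere (`tau_ins`). `VS_out`: `tau_ins` and `slots` are unchanged.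
-/

set_option autoImplicit false

open Finset Classical

namespace UT35

variable {N : ℕ} {r : ℕ → ℕ → Prop} {F : Finset ℕ}

private lemma mem_VS {lo hi z : ℕ} :
    z ∈ VS r F lo hi ↔ ∃ k, lo ≤ k ∧ k < hi ∧ k ∉ F ∧ tau r F k = z := by
  unfold VS
  rw [mem_image]
  constructor
  · rintro ⟨k, hk, h⟩
    rw [mem_slots] at hk
    exact ⟨k, hk.1, hk.2.1, hk.2.2, h⟩
  · rintro ⟨k, h1, h2, h3, h⟩
    exact ⟨k, mem_slots.2 ⟨h1, h2, h3⟩, h⟩

theorem card_VS (adm : Adm N F) (lo hi : ℕ) : (VS r F lo hi).card = sl F lo hi := by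
  unfold VS sl
  refine card_image_of_injOn fun k hk k' hk' h => ?_
  have h1 := (mem_slots.1 (mem_coe.1 hk)).2.2
  have h2 := (mem_slots.1 (mem_coe.1 hk')).2.2
  exact tau_inj adm h1 h2 h

theorem VS_split {a b c : ℕ} (h1 : a ≤ b) (h2 : b ≤ c) : VS r F a c = VS r F a b ∪ VS r F b c := by
  ext z
  rw [mem_union, mem_VS, mem_VS, mem_VS]
  constructor
  · rintro ⟨k, h3, h4, h5⟩
    rcases lt_or_ge k b with h | h
    · exact Or.inl ⟨k, h3, h, h5⟩
    · exact Or.inr ⟨k, h, h4, h5⟩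
  · rintro (⟨k, h3, h4, h5⟩ | ⟨k, h3, h4, h5⟩)
    · exact ⟨k, h3, by omega, h5⟩
    · exact ⟨k, by omega, h4, h5⟩

theorem VS_first {lo lo1 hi : ℕ} (hlo : lo ∉ F) (h : lo < lo1) (hb : ∀ j, lo < j → j < lo1 → j ∈ F) (h1 : lo1 ≤ hi) :
    VS r F lo hi = insert (tau r F lo) (VS r F lo1 hi) := by
  ext z
  rw [mem_insert, mem_VS, mem_VS]
  constructor
  · rintro ⟨k, h3, h4, h5, h6⟩
    rcases Nat.lt_or_ge k lo1 with h7 | h7
    · rcases Nat.eq_or_lt_of_le h3 with h8 | h8
      · subst h8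
        exact Or.inl h6.symm
      · exact absurd (hb k h8 h7) h5
    · exact Or.inr ⟨k, h7, h4, h5, h6⟩
  · rintro (h3 | ⟨k, h3, h4, h5⟩)
    · exact ⟨lo, le_refl _, by omega, hlo, h3.symm⟩
    · exact ⟨k, by omega, h4, h5⟩

theorem VS_last {lo hi β : ℕ} (h : hi ≤ β) (hb : ∀ j, hi ≤ j → j < β → j ∈ F) : VS r F lo β = VS r F lo hi := by
  ext z
  rw [mem_VS, mem_VS]
  constructor
  · rintro ⟨k, h3, h4, h5, h6⟩
    rcases Nat.lt_or_ge k hi with h7 | h7
    · exact ⟨k, h3, h7, h5, h6⟩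
    · exact absurd (hb k h7 h4) h5
  · rintro ⟨k, h3, h4, h5⟩
    exact ⟨k, h3, by omega, h5⟩

theorem VS_one {lo : ℕ} (h : lo ∉ F) : VS r F lo (lo + 1) = {tau r F lo} := by
  ext z
  rw [mem_singleton, mem_VS]
  constructor
  · rintro ⟨k, h3, h4, h5, h6⟩
    have : k = lo := by omega
    rw [← h6, this]
  · rintro h3
    exact ⟨lo, le_refl _, by omega, h, h3.symm⟩

private lemma tau_pred {y : ℕ} (hF : ∀ f ∈ F, y + 20 ≤ f ∨ f + 20 ≤ y) (h1 : 2 ≤ y) :
    tau r (insert y F) (y - 1) = if r (y + 1) (y - 1) then y + 1 else y - 1 := by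
  have e1 : y - 1 + 1 = y := by omega
  have e2 : y - 1 + 2 = y + 1 := by omega
  have e3 : y - 1 - 1 ∉ insert y F := by
    rw [mem_insert]
    rintro (h | h)
    · omega
    · have := hF _ h
      omega
  unfold tau
  rw [e1, e2]
  by_cases h : r (y + 1) (y - 1)
  · rw [if_pos ⟨mem_insert_self _ _, h⟩, if_pos h]
  · rw [if_neg (fun h' => h h'.2), if_neg (fun h' => e3 h'.1), if_neg h]

private lemma tau_succ {y : ℕ} (hF : ∀ f ∈ F, y + 20 ≤ f ∨ f + 20 ≤ y) :
    tau r (insert y F) (y + 1) = if r (y + 1) (y - 1) then y - 1 else y + 1 := by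
  have e1 : y + 1 - 1 = y := by omega
  have e2 : y + 1 - 2 = y - 1 := by omega
  have e3 : y + 1 + 1 ∉ insert y F := by
    rw [mem_insert]
    rintro (h | h)
    · omega
    · have := hF _ h
      omega
  unfold tau
  rw [e1, e2, if_neg (fun h' => e3 h'.1)]
  by_cases h : r (y + 1) (y - 1)
  · rw [if_pos ⟨mem_insert_self _ _, h⟩, if_pos h]
  · rw [if_neg (fun h' => h h'.2), if_neg h]

theorem VS_ins {y lo hi : ℕ} (hF : ∀ f ∈ F, y + 20 ≤ f ∨ f + 20 ≤ y) (h1 : lo + 2 ≤ y) (h2 : y + 2 ≤ hi) :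
    VS r F lo hi = insert y (VS r (insert y F) lo hi) := by
  have hnF : ∀ j, j < y + 20 → y < j + 20 → j ∉ F := by
    intro j h3 h4 h5
    have := hF j h5
    omega
  have hn : ∀ j, j ≠ y → j ∉ F → j ∉ insert y F := by
    intro j h3 h4 h5
    rcases mem_insert.1 h5 with h6 | h6
    · exact h3 h6
    · exact h4 h6
  have t0 : tau r F y = y := tau_far (hnF _ (by omega) (by omega)) (hnF _ (by omega) (by omega))
  have t1 : tau r F (y - 1) = y - 1 := tau_far (hnF _ (by omega) (by omega)) (hnF _ (by omega) (by omega))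
  have t2 : tau r F (y + 1) = y + 1 := tau_far (hnF _ (by omega) (by omega)) (hnF _ (by omega) (by omega))
  have s1 := tau_pred (r := r) hF (by omega : 2 ≤ y)
  have s2 := tau_succ (r := r) hF
  have m0 : y ∉ F := hnF _ (by omega) (by omega)
  have m1 : y - 1 ∉ F := hnF _ (by omega) (by omega)
  have m2 : y + 1 ∉ F := hnF _ (by omega) (by omega)
  ext z
  rw [mem_insert, mem_VS, mem_VS]
  constructor
  · rintro ⟨k, h3, h4, h5, h6⟩
    by_cases k0 : k = y
    · left
      rw [← h6, k0, t0]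
    right
    by_cases k1 : k = y - 1
    · rw [k1, t1] at h6
      by_cases h : r (y + 1) (y - 1)
      · rw [if_pos h] at s2
        exact ⟨y + 1, by omega, by omega, hn _ (by omega) m2, s2.trans h6⟩
      · rw [if_neg h] at s1
        exact ⟨y - 1, by omega, by omega, hn _ (by omega) m1, s1.trans h6⟩
    by_cases k2 : k = y + 1
    · rw [k2, t2] at h6
      by_cases h : r (y + 1) (y - 1)
      · rw [if_pos h] at s1
        exact ⟨y - 1, by omega, by omega, hn _ (by omega) m1, s1.trans h6⟩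
      · rw [if_neg h] at s2
        exact ⟨y + 1, by omega, by omega, hn _ (by omega) m2, s2.trans h6⟩
    refine ⟨k, h3, h4, hn _ k0 h5, ?_⟩
    rw [tau_ins (by omega) (by omega) (by omega), h6]
  · rintro (h3 | ⟨k, h3, h4, h5, h6⟩)
    · exact ⟨y, by omega, by omega, m0, by rw [t0, h3]⟩
    · have k0 : k ≠ y := fun h => h5 (mem_insert.2 (Or.inl h))
      have h5' : k ∉ F := fun h => h5 (mem_insert.2 (Or.inr h))
      by_cases k1 : k = y - 1
      · rw [k1, s1] at h6
        by_cases h : r (y + 1) (y - 1)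
        · rw [if_pos h] at h6
          exact ⟨y + 1, by omega, by omega, m2, t2.trans h6⟩
        · rw [if_neg h] at h6
          exact ⟨y - 1, by omega, by omega, m1, t1.trans h6⟩
      by_cases k2 : k = y + 1
      · rw [k2, s2] at h6
        by_cases h : r (y + 1) (y - 1)
        · rw [if_pos h] at h6
          exact ⟨y - 1, by omega, by omega, m1, t1.trans h6⟩
        · rw [if_neg h] at h6
          exact ⟨y + 1, by omega, by omega, m2, t2.trans h6⟩
      refine ⟨k, h3, h4, h5', ?_⟩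
      rw [← h6, tau_ins (by omega) (by omega) (by omega)]

theorem VS_out {y lo hi : ℕ} (hy : 1 ≤ y) (h : y + 2 ≤ lo ∨ hi + 1 ≤ y) :
    VS r (insert y F) lo hi = VS r F lo hi := by
  ext z
  rw [mem_VS, mem_VS]
  constructor
  · rintro ⟨k, h3, h4, h5, h6⟩
    refine ⟨k, h3, h4, fun h' => h5 (mem_insert.2 (Or.inr h')), ?_⟩
    rw [← h6, tau_ins hy (by omega) (by omega)]
  · rintro ⟨k, h3, h4, h5, h6⟩
    refine ⟨k, h3, h4, ?_, ?_⟩
    · rw [mem_insert]
      rintro (h' | h')
      · omega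
      · exact h5 h'
    · rw [← h6, tau_ins hy (by omega) (by omega)]

end UT35
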